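import Pool.Agent.Work.MP_4a0cc5_co.Defs

set_option autoImplicit false

/-!
MP_4a0cc5_co: dense subsets, paths, and cycles through a vertex with a dense neighbourhood.
-/

namespace Pool.Agent.Work.FewC

open Finset

variable {V : Type*} [Fintype V] [DecidableEq V] (G : SimpleGraph V) [DecidableRel G.Adj]

lemma dg_eq (X : Finset V) (v : V) :
    (dg G X v : ℝ) = ∑ u ∈ X, (if G.Adj v u then (1:ℝ) else 0) := by
  unfold dg
  rw [← Finset.sum_filter, Finset.sum_const, nsmul_eq_mul, mul_one]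
  congr 2
  ext u
  rw [Finset.mem_inter, Finset.mem_filter, SimpleGraph.mem_neighborFinset]
  exact and_comm

lemma dd_eq (X : Finset V) :
    (dd G X : ℝ) = ∑ v ∈ X, ∑ u ∈ X, (if G.Adj v u then (1:ℝ) else 0) := by
  unfold dd
  push_cast
  exact Finset.sum_congr rfl fun v _ => dg_eq G X v

lemma dd_erase (X : Finset V) (v : V) (hv : v ∈ X) :
    (dd G (X.erase v) : ℝ) = dd G X - 2 * dg G X v := by
  have h1 : (dd G X : ℝ) = (∑ u ∈ X, (if G.Adj v u then (1:ℝ) else 0)) +
      ∑ w ∈ X.erase v, ∑ u ∈ X, (if G.Adj w u then (1:ℝ) else 0) := by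
    rw [dd_eq]
    exact (Finset.add_sum_erase X
      (fun w => ∑ u ∈ X, (if G.Adj w u then (1:ℝ) else 0)) hv).symm
  have h2 : ∀ w, ∑ u ∈ X, (if G.Adj w u then (1:ℝ) else 0) = (if G.Adj w v then (1:ℝ) else 0) +
      ∑ u ∈ X.erase v, (if G.Adj w u then (1:ℝ) else 0) := by
    intro w
    exact (Finset.add_sum_erase X (fun u => (if G.Adj w u then (1:ℝ) else 0)) hv).symm
  have h3 : ∑ w ∈ X.erase v, (if G.Adj w v then (1:ℝ) else 0) = dg G X v := by
    rw [dg_eq, ← Finset.add_sum_erase _ _ hv, if_neg (G.loopless.irrefl v), zero_add]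
    exact Finset.sum_congr rfl fun u _ => by simp only [G.adj_comm u v]
  have h5 : ∑ w ∈ X.erase v, ∑ u ∈ X, (if G.Adj w u then (1:ℝ) else 0) =
      dg G X v + dd G (X.erase v) := by
    rw [Finset.sum_congr rfl fun w _ => h2 w, Finset.sum_add_distrib, h3, ← dd_eq]
  rw [h1, h5, ← dg_eq]
  ring

/-- a set with large minimum degree -/
lemma core (S : Finset V) (δ : ℝ) :
    ∃ X ⊆ S, (∀ v ∈ X, δ ≤ dg G X v) ∧
      (dd G S : ℝ) - 2 * δ * S.card ≤ dd G X - 2 * δ * X.card := by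
  obtain ⟨X, hX, hmax⟩ := Finset.exists_max_image S.powerset
    (fun Y => (dd G Y : ℝ) - 2 * δ * Y.card) ⟨S, Finset.mem_powerset_self S⟩
  refine ⟨X, Finset.mem_powerset.1 hX, ?_, hmax S (Finset.mem_powerset_self S)⟩
  intro v hv
  have h1 := hmax (X.erase v) (Finset.mem_powerset.2
    ((Finset.erase_subset _ _).trans (Finset.mem_powerset.1 hX)))
  rw [dd_erase G X v hv, Finset.card_erase_of_mem hv, Nat.cast_sub (Finset.card_pos.2 ⟨v, hv⟩)] at h1
  push_cast at h1
  linarith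

/-- paths with `n + 1` vertices inside a set -/
def pth (n : ℕ) (X : Finset V) : Finset (Fin (n + 1) → V) :=
  univ.filter (fun x => Function.Injective x ∧ (∀ i, x i ∈ X) ∧
    ∀ i : Fin n, G.Adj (x i.castSucc) (x i.succ))

lemma mem_pth {n : ℕ} {X : Finset V} {x : Fin (n + 1) → V} :
    x ∈ pth G n X ↔ Function.Injective x ∧ (∀ i, x i ∈ X) ∧
      ∀ i : Fin n, G.Adj (x i.castSucc) (x i.succ) := by
  unfold pth
  rw [Finset.mem_filter]
  simp only [Finset.mem_univ, true_and]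

lemma adj_cons {n : ℕ} {x : Fin (n + 1) → V} {w : V} (h1 : G.Adj w (x 0))
    (h2 : ∀ i : Fin n, G.Adj (x i.castSucc) (x i.succ)) (i : Fin (n + 1)) :
    G.Adj ((Fin.cons w x : Fin (n + 2) → V) i.castSucc) ((Fin.cons w x : Fin (n + 2) → V) i.succ) := by
  refine Fin.cases ?_ (fun j => ?_) i
  · rw [Fin.castSucc_zero, Fin.cons_zero, Fin.cons_succ]
    exact h1
  · rw [← Fin.succ_castSucc, Fin.cons_succ, Fin.cons_succ]
    exact h2 j

/-- extension of paths -/
lemma pth_ext (n : ℕ) (X : Finset V) :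
    ∑ x ∈ pth G n X, ((dg G X (x 0) : ℝ) - n) ≤ ((pth G (n + 1) X).card : ℝ) := by
  classical
  let W : (Fin (n + 1) → V) → Finset V := fun x =>
    (G.neighborFinset (x 0) ∩ X) \ ((univ.erase (0 : Fin (n + 1))).image x)
  have h1 : ∀ x, (dg G X (x 0) : ℝ) - n ≤ ((W x).card : ℝ) := by
    intro x
    have h2 : dg G X (x 0) ≤ (W x).card + n := by
      have h3 := Finset.card_le_card_sdiff_add_card (t := (univ.erase (0 : Fin (n + 1))).image x)
        (s := G.neighborFinset (x 0) ∩ X)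
      have h4 : ((univ.erase (0 : Fin (n + 1))).image x).card ≤ n := by
        refine Finset.card_image_le.trans ?_
        rw [Finset.card_erase_of_mem (Finset.mem_univ _), Finset.card_univ, Fintype.card_fin]
        rfl
      exact h3.trans (Nat.add_le_add_left h4 _)
    have h5 : (dg G X (x 0) : ℝ) ≤ (W x).card + n := by exact_mod_cast h2
    linarith
  refine (Finset.sum_le_sum fun x _ => h1 x).trans ?_
  rw [← Nat.cast_sum, ← Finset.card_sigma]
  rw [Nat.cast_le]
  refine Finset.card_le_card_of_injOn (fun p => (Fin.cons p.2 p.1 : Fin (n + 2) → V)) ?_ ?_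
  · rintro ⟨x, w⟩ hp
    rw [Finset.mem_coe, Finset.mem_sigma] at hp
    obtain ⟨hx, hw⟩ := hp
    simp only at hx hw
    rw [mem_pth] at hx
    obtain ⟨hx1, hx2, hx3⟩ := hx
    rw [Finset.mem_sdiff, Finset.mem_inter, SimpleGraph.mem_neighborFinset] at hw
    obtain ⟨⟨hw1, hw2⟩, hw3⟩ := hw
    rw [Finset.mem_coe, mem_pth]
    refine ⟨?_, ?_, ?_⟩
    · rw [Fin.cons_injective_iff]
      refine ⟨?_, hx1⟩
      rintro ⟨i, hi⟩
      change x i = w at hi
      by_cases h0 : i = 0
      · subst h0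
        rw [hi] at hw1
        exact G.loopless.irrefl w hw1
      · apply hw3
        rw [← hi]
        exact Finset.mem_image_of_mem _ (Finset.mem_erase.2 ⟨h0, Finset.mem_univ _⟩)
    · intro i
      refine Fin.cases ?_ (fun j => ?_) i
      · exact hw2
      · exact hx2 j
    · exact adj_cons G hw1.symm hx3
  · rintro ⟨x, w⟩ _ ⟨x', w'⟩ _ h
    have h' : (Fin.cons w x : Fin (n + 2) → V) = Fin.cons w' x' := h
    have h2 := Fin.cons_injective2 h'
    obtain ⟨h3, h4⟩ := h2
    subst h3 h4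
    rfl

lemma pth_one (X : Finset V) : (dd G X : ℝ) ≤ ((pth G 1 X).card : ℝ) := by
  refine le_trans (le_of_eq ?_) (pth_ext G 0 X)
  unfold dd
  push_cast
  refine Finset.sum_bij (fun v _ => fun _ => v) ?_ ?_ ?_ ?_
  · intro v hv
    rw [mem_pth]
    refine ⟨?_, fun _ => hv, fun i => i.elim0⟩
    intro i j _
    exact Subsingleton.elim (α := Fin 1) i j
  · intro v _ w _ h
    exact congrFun h 0
  · intro x hx
    rw [mem_pth] at hx
    refine ⟨x 0, hx.2.1 0, ?_⟩
    funext i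
    have : i = 0 := Subsingleton.elim (α := Fin 1) i 0
    rw [this]
  · intro v _
    simp

lemma pth_count (X : Finset V) (δ : ℝ) (hδ : ∀ v ∈ X, δ ≤ dg G X v) (l : ℕ)
    (hl : 2 * ((l : ℝ) + 1) ≤ δ) : (dd G X : ℝ) * (δ / 2) ^ l ≤ ((pth G (l + 1) X).card : ℝ) := by
  induction l with
  | zero =>
    rw [pow_zero, mul_one]
    exact pth_one G X
  | succ l ih =>
    push_cast at hl
    have h1 := ih (by linarith)
    have h2 := pth_ext G (l + 1) X
    have h3 : ∑ x ∈ pth G (l + 1) X, (δ / 2) ≤ ∑ x ∈ pth G (l + 1) X,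
        ((dg G X (x 0) : ℝ) - ((l + 1 : ℕ) : ℝ)) := by
      refine Finset.sum_le_sum fun x hx => ?_
      have := hδ (x 0) (((mem_pth G).1 hx).2.1 0)
      push_cast
      linarith
    rw [Finset.sum_const, nsmul_eq_mul] at h3
    have h4 : 0 ≤ δ / 2 := by
      have : (0:ℝ) ≤ l := Nat.cast_nonneg l
      linarith
    have h5 := mul_le_mul_of_nonneg_right h1 h4
    rw [pow_succ, ← mul_assoc]
    exact (h5.trans h3).trans h2

/-- cyclic adjacency -/
lemma adj_rot {n : ℕ} {f : Fin (n + 1) → V} (h1 : ∀ i : Fin n, G.Adj (f i.castSucc) (f i.succ))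
    (h2 : G.Adj (f (Fin.last n)) (f 0)) (i : Fin (n + 1)) : G.Adj (f i) (f (finRotate (n + 1) i)) := by
  refine Fin.lastCases ?_ (fun j => ?_) i
  · rw [finRotate_last]
    exact h2
  · have : finRotate (n + 1) j.castSucc = j.succ := by
      rw [finRotate_apply]
      exact Fin.coeSucc_eq_succ
    rw [this]
    exact h1 j

/-- a vertex with a path in its neighbourhood -/
lemma cons_mem_cyc (s : ℕ) (v : V) (X : Finset V) (hX : X ⊆ G.neighborFinset v)
    (x : Fin (2 * s + 1) → V) (hx : x ∈ pth G (2 * s) X) :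
    (Fin.cons v x : Fin (2 * s + 2) → V) ∈ cyc (s + 1) G := by
  rw [mem_pth] at hx
  obtain ⟨hx1, hx2, hx3⟩ := hx
  have hadj : ∀ i, G.Adj v (x i) := fun i => (SimpleGraph.mem_neighborFinset G v _).1 (hX (hx2 i))
  unfold cyc
  rw [Finset.mem_filter]
  refine ⟨Finset.mem_univ _, ?_, ?_⟩
  · have : Function.Injective (Fin.cons v x : Fin (2 * s + 2) → V) := by
      rw [Fin.cons_injective_iff]
      refine ⟨?_, hx1⟩
      rintro ⟨i, hi⟩
      have := hadj i
      rw [hi] at this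
      exact G.loopless.irrefl v this
    exact this
  · have := adj_rot G (f := (Fin.cons v x : Fin (2 * s + 2) → V)) (adj_cons G (hadj 0) hx3) (by
      have e1 : (Fin.last (2 * s + 1)) = (Fin.last (2 * s)).succ := by
        rw [Fin.succ_last]
      rw [e1, Fin.cons_succ, Fin.cons_zero]
      exact (hadj _).symm)
    exact this

/-- many cycles from dense neighbourhoods -/
theorem cyc_of_nbhd (s : ℕ) (B : Finset V) (X : V → Finset V)
    (hX : ∀ v ∈ B, X v ⊆ G.neighborFinset v) :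
    ∑ v ∈ B, ((pth G (2 * s) (X v)).card : ℝ) ≤ ((cyc (s + 1) G).card : ℝ) := by
  rw [← Nat.cast_sum, ← Finset.card_sigma, Nat.cast_le]
  refine Finset.card_le_card_of_injOn (fun p => (Fin.cons p.1 p.2 : Fin (2 * s + 2) → V)) ?_ ?_
  · rintro ⟨v, x⟩ hp
    rw [Finset.mem_coe, Finset.mem_sigma] at hp
    exact cons_mem_cyc G s v (X v) (hX v hp.1) x hp.2
  · rintro ⟨v, x⟩ _ ⟨v', x'⟩ _ h
    have h' : (Fin.cons v x : Fin (2 * s + 2) → V) = Fin.cons v' x' := h
    obtain ⟨h3, h4⟩ := Fin.cons_injective2 h'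
    subst h3 h4
    rfl

end Pool.Agent.Work.FewC
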