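import Pool.Agent.Work.MP_4a0cc5_co.Defs

set_option autoImplicit false

/-!
MP_4a0cc5_co: labelled cycles and copies of the cycle graph.
-/

namespace Pool.Agent.Work.FewC

open Finset SimpleGraph

/-- labelled copies are at most `|W|^|W|` times the unlabelled ones -/
theorem labelled_le {V W : Type*} [Fintype V] [Fintype W] (G : SimpleGraph V) (H : SimpleGraph W) :
    G.labelledCopyCount H ≤ Fintype.card W ^ Fintype.card W * G.copyCount H := by
  classical
  rw [copyCount_eq_card_image_copyToSubgraph]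
  have h0 : G.labelledCopyCount H = (Finset.univ : Finset (H.Copy G)).card := by
    unfold labelledCopyCount
    rfl
  rw [h0]
  refine Finset.card_le_mul_card_image _ _ ?_
  intro S hS
  rw [Finset.mem_image] at hS
  obtain ⟨g, _, hg⟩ := hS
  have h1 : ∀ f : H.Copy G, f.toSubgraph = S → ∀ x, f x ∈ (Finset.univ.image (fun w => g w) : Finset V) := by
    intro f hf x
    have h2 : f x ∈ f.toSubgraph.verts := ⟨x, trivial, rfl⟩
    rw [hf, ← hg] at h2
    obtain ⟨y, _, hy⟩ := h2
    exact Finset.mem_image.2 ⟨y, Finset.mem_univ _, hy⟩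
  have h3 : ((Finset.univ.filter (fun f : H.Copy G => f.toSubgraph = S)).card) ≤
      (Fintype.piFinset (fun _ : W => (Finset.univ.image (fun w => g w) : Finset V))).card := by
    refine Finset.card_le_card_of_injOn (fun f => (f : W → V)) ?_ ?_
    · intro f hf
      rw [Finset.mem_coe, Finset.mem_filter] at hf
      rw [Finset.mem_coe, Fintype.mem_piFinset]
      exact h1 f hf.2
    · intro f _ f' _ h
      exact DFunLike.coe_injective h
  refine h3.trans ?_
  rw [Fintype.card_piFinset, Finset.prod_const, Finset.card_univ]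
  exact Nat.pow_le_pow_left (Finset.card_image_le.trans (le_of_eq Finset.card_univ)) _

/-- injective maps preserving adjacency are counted by the labelled copies -/
theorem inj_le_labelled {V W : Type*} [Fintype V] [Fintype W] (G : SimpleGraph V)
    (H : SimpleGraph W) (F : Finset (W → V)) (h1 : ∀ f ∈ F, Function.Injective f)
    (h2 : ∀ f ∈ F, ∀ u v, H.Adj u v → G.Adj (f u) (f v)) :
    F.card ≤ G.labelledCopyCount H := by
  classical
  have h0 : G.labelledCopyCount H = Fintype.card (H.Copy G) := rfl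
  rw [h0, ← Fintype.card_coe F]
  refine Fintype.card_le_of_injective
    (fun f : F => (⟨⟨f.1, fun {u v} h => h2 f.1 f.2 u v h⟩, h1 f.1 f.2⟩ : H.Copy G)) ?_
  intro f f' h
  apply Subtype.ext
  funext w
  have h3 : ((⟨⟨f.1, fun {u v} h => h2 f.1 f.2 u v h⟩, h1 f.1 f.2⟩ : H.Copy G) : W → V) w =
      ((⟨⟨f'.1, fun {u v} h => h2 f'.1 f'.2 u v h⟩, h1 f'.1 f'.2⟩ : H.Copy G) : W → V) w :=
    congrArg (fun g : H.Copy G => (g : W → V) w) h
  exact h3

variable {V : Type*} [Fintype V] [DecidableEq V] (G : SimpleGraph V) [DecidableRel G.Adj]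

lemma adj_of_cyc (n : ℕ) (f : Fin (n + 2) → V)
    (hf : ∀ i, G.Adj (f i) (f (finRotate (n + 2) i))) (u v : Fin (n + 2))
    (h : (cycleGraph (n + 2)).Adj u v) : G.Adj (f u) (f v) := by
  rw [cycleGraph_adj] at h
  rcases h with h1 | h1
  · have h2 : u = finRotate (n + 2) v := by
      rw [finRotate_apply]
      exact sub_eq_iff_eq_add'.1 h1
    rw [h2]
    exact (hf v).symm
  · have h2 : v = finRotate (n + 2) u := by
      rw [finRotate_apply]
      exact sub_eq_iff_eq_add'.1 h1
    rw [h2]
    exact hf u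

theorem cyc_le_labelled_aux (n : ℕ) :
    ((univ : Finset (Fin (n + 2) → V)).filter (fun f => Function.Injective f ∧
      ∀ i, G.Adj (f i) (f (finRotate (n + 2) i)))).card ≤ G.labelledCopyCount (cycleGraph (n + 2)) := by
  refine inj_le_labelled G (cycleGraph (n + 2)) _ ?_ ?_
  · intro f hf
    exact (Finset.mem_filter.1 hf).2.1
  · intro f hf u v h
    exact adj_of_cyc G n f (Finset.mem_filter.1 hf).2.2 u v h

theorem cyc_le_labelled (r : ℕ) (hr : 1 ≤ r) :
    (cyc r G).card ≤ G.labelledCopyCount (cycleGraph (2 * r)) := by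
  obtain ⟨n, hn⟩ : ∃ n, 2 * r = n + 2 := ⟨2 * r - 2, by omega⟩
  unfold cyc
  generalize 2 * r = N at hn ⊢
  subst hn
  exact cyc_le_labelled_aux G n

theorem cyc_le_copyCount (r : ℕ) (hr : 1 ≤ r) :
    (cyc r G).card ≤ (2 * r) ^ (2 * r) * G.copyCount (cycleGraph (2 * r)) := by
  refine (cyc_le_labelled G r hr).trans ?_
  have := labelled_le G (cycleGraph (2 * r))
  rw [Fintype.card_fin] at this
  exact this

end Pool.Agent.Work.FewC
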