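import Mathlib

set_option autoImplicit false

/-!
MP_4a0cc5_co: the maximum cut of a finite graph.
-/

namespace Pool.Agent.Work.FewC

open Finset SimpleGraph

/-- the largest number of edges in a bipartite subgraph -/
noncomputable def maxCut {V : Type*} (G : SimpleGraph V) : ℕ :=
  sSup {k : ℕ | ∃ B : SimpleGraph V, B ≤ G ∧ B.IsBipartite ∧ B.edgeSet.ncard = k}

section
variable {V : Type*} [Fintype V] (G : SimpleGraph V)

lemma maxCut_bdd : BddAbove {k : ℕ | ∃ B : SimpleGraph V, B ≤ G ∧ B.IsBipartite ∧ B.edgeSet.ncard = k} := by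
  classical
  refine ⟨G.edgeSet.ncard, ?_⟩
  rintro k ⟨B, hB, _, rfl⟩
  exact Set.ncard_le_ncard (SimpleGraph.edgeSet_subset_edgeSet.2 hB) (Set.toFinite _)

lemma le_maxCut [DecidableEq V] [DecidableRel G.Adj] (A : Finset V) :
    (G.interedges A Aᶜ).card ≤ maxCut G := by
  classical
  let B : SimpleGraph V :=
    { Adj := fun u v => G.Adj u v ∧ ¬ (u ∈ A ↔ v ∈ A)
      symm := ⟨fun u v h => ⟨h.1.symm, fun h' => h.2 h'.symm⟩⟩
      loopless := ⟨fun u h => G.loopless.irrefl u h.1⟩ }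
  have hB : B ≤ G := fun u v h => h.1
  have hcol : B.IsBipartite := by
    refine ⟨SimpleGraph.Coloring.mk (fun v => if v ∈ A then (0 : Fin 2) else 1) ?_⟩
    intro u v h
    have h2 : ¬ (u ∈ A ↔ v ∈ A) := h.2
    by_cases hu : u ∈ A <;> by_cases hv : v ∈ A
    · exact absurd (iff_of_true hu hv) h2
    · rw [if_pos hu, if_neg hv]
      decide
    · rw [if_neg hu, if_pos hv]
      decide
    · exact absurd (iff_of_false hu hv) h2
  refine le_trans ?_ (le_csSup (maxCut_bdd G) ⟨B, hB, hcol, rfl⟩)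
  rw [← SimpleGraph.coe_edgeFinset, Set.ncard_coe_finset]
  refine Finset.card_le_card_of_injOn (fun p => s(p.1, p.2)) ?_ ?_
  · intro p hp
    rw [Finset.mem_coe, SimpleGraph.interedges, Rel.mem_interedges_iff] at hp
    rw [Finset.mem_coe, SimpleGraph.mem_edgeFinset, SimpleGraph.mem_edgeSet]
    exact ⟨hp.2.2, fun h => (Finset.mem_compl.1 hp.2.1) (h.1 hp.1)⟩
  · intro p hp q hq h
    rw [Finset.mem_coe, SimpleGraph.interedges, Rel.mem_interedges_iff] at hp hq
    have h' : s(p.1, p.2) = s(q.1, q.2) := h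
    rw [Sym2.eq_iff] at h'
    rcases h' with h1 | h1
    · exact Prod.ext h1.1 h1.2
    · exact absurd (h1.1 ▸ hp.1) (Finset.mem_compl.1 hq.2.1)

lemma maxCut_le [DecidableEq V] [DecidableRel G.Adj] (K : ℕ)
    (h : ∀ A : Finset V, (G.interedges A Aᶜ).card ≤ K) : maxCut G ≤ K := by
  classical
  refine csSup_le ⟨_, ⟨⊥, bot_le, ?_, rfl⟩⟩ ?_
  · exact ⟨SimpleGraph.Coloring.mk (fun _ => 0) (fun {u v} h => absurd h (by simp))⟩
  rintro k ⟨B, hB, hcol, rfl⟩
  obtain ⟨C⟩ := hcol
  set A : Finset V := univ.filter (fun v => C v = 0) with hA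
  refine le_trans ?_ (h A)
  rw [← SimpleGraph.coe_edgeFinset, Set.ncard_coe_finset]
  refine Finset.card_le_card_of_surjOn (fun p => s(p.1, p.2)) ?_
  intro e he
  rw [Finset.mem_coe, SimpleGraph.mem_edgeFinset] at he
  induction e using Sym2.ind with
  | _ u v =>
    rw [SimpleGraph.mem_edgeSet] at he
    have h1 : C u ≠ C v := C.valid he
    by_cases hu : C u = 0
    · refine ⟨(u, v), ?_, rfl⟩
      rw [Finset.mem_coe, SimpleGraph.interedges, Rel.mem_interedges_iff]
      refine ⟨?_, ?_, hB he⟩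
      · rw [hA, Finset.mem_filter]
        exact ⟨Finset.mem_univ _, hu⟩
      · rw [Finset.mem_compl, hA, Finset.mem_filter]
        rintro ⟨_, h2⟩
        exact h1 (hu.trans h2.symm)
    · refine ⟨(v, u), ?_, Sym2.eq_swap⟩
      rw [Finset.mem_coe, SimpleGraph.interedges, Rel.mem_interedges_iff]
      have hv : C v = 0 := by
        have e1 : ∀ a b : Fin 2, a ≠ b → a ≠ 0 → b = 0 := by decide
        exact e1 _ _ h1 hu
      refine ⟨?_, ?_, hB he.symm⟩
      · rw [hA, Finset.mem_filter]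
        exact ⟨Finset.mem_univ _, hv⟩
      · rw [Finset.mem_compl, hA, Finset.mem_filter]
        rintro ⟨_, h2⟩
        exact hu h2

end

end Pool.Agent.Work.FewC
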