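import Mathlib

set_option autoImplicit false

/-!
MP_4a0cc5_co: maximum cuts in graphs with few cycles of length `2 k`.
-/

namespace Pool.Agent.Work.FewC

open Finset

variable {V : Type*} [Fintype V] [DecidableEq V]

/-- labelled cycles of length `2 k` -/
def cyc (k : ℕ) (G : SimpleGraph V) [DecidableRel G.Adj] : Finset (Fin (2 * k) → V) :=
  univ.filter (fun f => Function.Injective f ∧ ∀ i, G.Adj (f i) (f (finRotate (2 * k) i)))

/-- degree into a set -/
def dg (G : SimpleGraph V) [DecidableRel G.Adj] (X : Finset V) (v : V) : ℕ :=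
  (G.neighborFinset v ∩ X).card

/-- ordered adjacent pairs inside a set (twice the number of edges) -/
def dd (G : SimpleGraph V) [DecidableRel G.Adj] (X : Finset V) : ℕ := ∑ v ∈ X, dg G X v

end Pool.Agent.Work.FewC
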