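import Pool.Agent.Work.MP_4a0cc5_co.Cut

set_option autoImplicit false

/-!
MP_4a0cc5_co: disjoint unions of complete graphs.
-/

namespace Pool.Agent.Work.FewC

open Finset SimpleGraph

lemma labelled_le_of_inj {V W β : Type*} [Fintype V] [Fintype W] [Fintype β] (G : SimpleGraph V)
    (H : SimpleGraph W) (φ : H.Copy G → β) (hφ : Function.Injective φ) :
    G.labelledCopyCount H ≤ Fintype.card β := by
  classical
  unfold labelledCopyCount
  exact Fintype.card_le_of_injective φ hφ

/-- disjoint union of complete graphs -/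
def clq {ι : Type} (n : ι → ℕ) : SimpleGraph (Σ i, Fin (n i)) where
  Adj x y := x ≠ y ∧ x.1 = y.1
  symm := ⟨fun _ _ h => ⟨h.1.symm, h.2.symm⟩⟩
  loopless := ⟨fun _ h => h.1 rfl⟩

section
variable {ι : Type} [Fintype ι] [DecidableEq ι] (n : ι → ℕ)

instance : DecidableRel (clq n).Adj := fun x y => inferInstanceAs (Decidable (x ≠ y ∧ x.1 = y.1))

lemma card_fib (i : ι) : ((univ : Finset (Σ i, Fin (n i))).filter (fun x => x.1 = i)).card = n i := by
  have h1 : (univ : Finset (Σ i, Fin (n i))).filter (fun x => x.1 = i) =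
      (univ : Finset (Fin (n i))).image (fun a => (⟨i, a⟩ : Σ i, Fin (n i))) := by
    ext ⟨j, a⟩
    rw [Finset.mem_filter, Finset.mem_image]
    constructor
    · rintro ⟨_, h⟩
      have h' : j = i := h
      subst h'
      exact ⟨a, Finset.mem_univ _, rfl⟩
    · rintro ⟨b, _, h⟩
      refine ⟨Finset.mem_univ _, ?_⟩
      exact (congrArg Sigma.fst h).symm
  rw [h1, Finset.card_image_of_injective, Finset.card_univ, Fintype.card_fin]
  intro a b h
  exact eq_of_heq (Sigma.mk.inj h).2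

lemma clq_edges : 2 * (clq n).edgeFinset.card = ∑ i, n i * (n i - 1) := by
  rw [← SimpleGraph.sum_degrees_eq_twice_card_edges, Fintype.sum_sigma]
  refine Finset.sum_congr rfl fun i _ => ?_
  have h1 : ∀ a : Fin (n i), (clq n).degree ⟨i, a⟩ = n i - 1 := by
    intro a
    rw [← SimpleGraph.card_neighborFinset_eq_degree]
    have h2 : (clq n).neighborFinset ⟨i, a⟩ =
        ((univ : Finset (Σ i, Fin (n i))).filter (fun x => x.1 = i)).erase ⟨i, a⟩ := by
      ext x
      rw [SimpleGraph.mem_neighborFinset, Finset.mem_erase, Finset.mem_filter]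
      constructor
      · rintro ⟨h3, h4⟩
        exact ⟨h3.symm, Finset.mem_univ _, h4.symm⟩
      · rintro ⟨h3, _, h4⟩
        exact ⟨h3.symm, h4.symm⟩
    rw [h2, Finset.card_erase_of_mem, card_fib]
    rw [Finset.mem_filter]
    exact ⟨Finset.mem_univ _, rfl⟩
  rw [Finset.sum_congr rfl fun a _ => h1 a, Finset.sum_const, Finset.card_univ, Fintype.card_fin,
    smul_eq_mul]

lemma clq_cut (A : Finset (Σ i, Fin (n i))) :
    4 * ((clq n).interedges A Aᶜ).card ≤ ∑ i, n i ^ 2 := by
  have h1 : ((clq n).interedges A Aᶜ).card = ∑ i : ι,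
      (((clq n).interedges A Aᶜ).filter (fun p => p.1.1 = i)).card :=
    Finset.card_eq_sum_card_fiberwise (fun p _ => Finset.mem_coe.2 (Finset.mem_univ _))
  rw [h1, Finset.mul_sum]
  refine Finset.sum_le_sum fun i _ => ?_
  set a := (A.filter (fun x => x.1 = i)).card with ha
  set b := (Aᶜ.filter (fun x => x.1 = i)).card with hb
  have h2 : (((clq n).interedges A Aᶜ).filter (fun p => p.1.1 = i)).card ≤ a * b := by
    rw [ha, hb, ← Finset.card_product]
    refine Finset.card_le_card ?_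
    intro p hp
    rw [Finset.mem_filter, SimpleGraph.interedges, Rel.mem_interedges_iff] at hp
    obtain ⟨⟨h3, h4, h5⟩, h6⟩ := hp
    rw [Finset.mem_product, Finset.mem_filter, Finset.mem_filter]
    exact ⟨⟨h3, h6⟩, h4, h5.2.symm.trans h6⟩
  have h3 : a + b = n i := by
    rw [ha, hb, ← card_fib n i, ← Finset.card_union_of_disjoint]
    · rw [← Finset.filter_union, Finset.union_compl]
    · refine Finset.disjoint_left.2 fun x hx hx' => ?_
      rw [Finset.mem_filter] at hx hx'
      exact (Finset.mem_compl.1 hx'.1) hx.1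
  rw [← h3]
  nlinarith [sq_nonneg ((a:ℤ) - b), sq_nonneg ((a:ℤ) + b)]

lemma clq_cut' : 4 * (maxCut (clq n)) ≤ ∑ i, n i ^ 2 := by
  have h1 : maxCut (clq n) ≤ (∑ i, n i ^ 2) / 4 := by
    refine maxCut_le (clq n) _ fun A => ?_
    have := clq_cut n A
    omega
  omega

lemma copy_const (k : ℕ) (f : (cycleGraph k).Copy (clq n)) (u v : Fin k) : (f u).1 = (f v).1 := by
  obtain ⟨p⟩ := cycleGraph_preconnected u v
  induction p with
  | nil => rfl
  | cons h _ ih => exact (f.toHom.map_adj h).2.trans ih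

lemma clq_copies (k : ℕ) (hk : 0 < k) :
    (clq n).labelledCopyCount (cycleGraph k) ≤ ∑ i, (n i).descFactorial k := by
  classical
  let β : Type := Σ i : ι, (Fin k ↪ {x : (Σ i, Fin (n i)) // x.1 = i})
  have h1 : Fintype.card β = ∑ i, (n i).descFactorial k := by
    rw [Fintype.card_sigma]
    refine Finset.sum_congr rfl fun i _ => ?_
    rw [Fintype.card_embedding_eq, Fintype.card_fin, Fintype.card_subtype, card_fib]
  rw [← h1]
  refine labelled_le_of_inj (clq n) (cycleGraph k)
    (fun f => (⟨(f ⟨0, hk⟩).1, ⟨fun w => ⟨f w, copy_const n k f w ⟨0, hk⟩⟩, fun w w' h =>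
      f.injective (Subtype.mk.inj h)⟩⟩ : β)) ?_
  intro f f' h
  refine DFunLike.ext f f' fun w => ?_
  exact congrArg (fun p : β => (p.2 w).1) h

end

lemma descFactorial_le (n t k : ℕ) (h : n ≤ t) :
    n.descFactorial (k + 2) ≤ n * (n - 1) * t ^ k := by
  induction k with
  | zero =>
    have : n.descFactorial 2 = n * (n - 1) := by
      rw [Nat.descFactorial_succ, Nat.descFactorial_one, mul_comm]
    rw [this, pow_zero, mul_one]
  | succ k ih =>
    rw [show k + 1 + 2 = (k + 2) + 1 by ring, Nat.descFactorial_succ]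
    calc (n - (k + 2)) * n.descFactorial (k + 2) ≤ t * (n * (n - 1) * t ^ k) :=
          Nat.mul_le_mul ((Nat.sub_le _ _).trans h) ih
      _ = n * (n - 1) * t ^ (k + 1) := by ring

/-- sizes of the complete graphs -/
lemma sizes (m t : ℕ) (ht : 2 ≤ t) : ∃ (ι : Type) (_ : Fintype ι) (_ : DecidableEq ι) (n : ι → ℕ),
    ∑ i, n i * (n i - 1) = 2 * m ∧ (∀ i, n i ≤ t) ∧ t * ∑ i, n i ≤ 4 * m + 4 * t ^ 2 := by
  set P := t * (t - 1) with hP
  set k := 2 * m / P with hk
  set R := 2 * m % P with hR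
  set s := Nat.sqrt R with hs
  have hPpos : 0 < P := Nat.mul_pos (by omega) (by omega)
  have h1 : P * k + R = 2 * m := Nat.div_add_mod _ _
  have h2 : R < P := Nat.mod_lt _ hPpos
  have hPeven : 2 ∣ P := by
    rw [hP, mul_comm]
    have := Nat.even_mul_pred_self t
    rw [mul_comm] at this
    exact this.two_dvd
  have hReven : 2 ∣ R := by
    have : 2 ∣ P * k + R := h1 ▸ Dvd.intro _ rfl
    exact (Nat.dvd_add_right (Dvd.dvd.mul_right hPeven k)).1 this
  have hseven : 2 ∣ s * (s - 1) := (Nat.even_mul_pred_self s).two_dvd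
  have h3 : s * s ≤ R := Nat.sqrt_le R
  have h4 : R < (s + 1) * (s + 1) := Nat.lt_succ_sqrt R
  have hss : s * (s - 1) ≤ R := (Nat.mul_le_mul_left s (Nat.sub_le s 1)).trans h3
  have hst : s ≤ t := by
    by_contra hcon
    push Not at hcon
    have : t * t ≤ s * s := Nat.mul_le_mul hcon.le hcon.le
    have h5 : P ≤ t * t := Nat.mul_le_mul_left t (Nat.sub_le t 1)
    omega
  obtain ⟨J, hJ⟩ : ∃ J, R = s * (s - 1) + 2 * J := by
    obtain ⟨a, ha⟩ := hReven
    obtain ⟨b, hb⟩ := hseven
    exact ⟨a - b, by omega⟩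
  have hJ3 : 2 * J ≤ 3 * s := by
    rcases Nat.eq_zero_or_pos s with h0 | h0
    · rw [h0] at h4 hJ ⊢
      omega
    · obtain ⟨s', hs'⟩ : ∃ s', s = s' + 1 := ⟨s - 1, by omega⟩
      rw [hs'] at h4 hJ ⊢
      rw [Nat.add_sub_cancel] at hJ
      nlinarith
  refine ⟨Fin k ⊕ (Unit ⊕ Fin J), inferInstance, inferInstance,
    Sum.elim (fun _ => t) (Sum.elim (fun _ => s) (fun _ => 2)), ?_, ?_, ?_⟩
  · rw [Fintype.sum_sum_type, Fintype.sum_sum_type]
    simp only [Sum.elim_inl, Sum.elim_inr, Finset.sum_const, Finset.card_univ, Fintype.card_fin,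
      smul_eq_mul, Fintype.card_unit, one_mul]
    rw [← hP]
    rw [mul_comm k P]
    omega
  · rintro (i | (i | i))
    · exact le_refl _
    · exact hst
    · exact ht
  · rw [Fintype.sum_sum_type, Fintype.sum_sum_type]
    simp only [Sum.elim_inl, Sum.elim_inr, Finset.sum_const, Finset.card_univ, Fintype.card_fin,
      smul_eq_mul, Fintype.card_unit, one_mul]
    have h5 : t ^ 2 ≤ 2 * P := by
      rw [hP]
      obtain ⟨t', ht'⟩ : ∃ t', t = t' + 2 := ⟨t - 2, by omega⟩
      rw [ht']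
      have : t' + 2 - 1 = t' + 1 := by omega
      rw [this]
      nlinarith
    have h6 : k * t ^ 2 ≤ 4 * m := by
      calc k * t ^ 2 ≤ k * (2 * P) := Nat.mul_le_mul_left k h5
        _ = 2 * (P * k) := by ring
        _ ≤ 4 * m := by omega
    have h7 : s + J * 2 ≤ 4 * t := by omega
    calc t * (k * t + (s + J * 2)) = k * t ^ 2 + t * (s + J * 2) := by ring
      _ ≤ 4 * m + t * (4 * t) := Nat.add_le_add h6 (Nat.mul_le_mul_left t h7)
      _ = 4 * m + 4 * t ^ 2 := by ring

/-- the construction, in terms of `t` -/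
theorem upper_t (r : ℕ) (hr : 2 ≤ r) (m t : ℕ) (ht : 2 ≤ t) :
    ∃ (V : Type) (_ : Fintype V) (G : SimpleGraph V), G.edgeSet.ncard = m ∧
      G.copyCount (cycleGraph (2 * r)) ≤ 2 * m * t ^ (2 * r - 2) ∧
      (t = 2 → G.copyCount (cycleGraph (2 * r)) = 0) ∧
      4 * t * maxCut G ≤ 2 * m * t + 4 * m + 4 * t ^ 2 := by
  obtain ⟨ι, _, _, n, h1, h2, h3⟩ := sizes m t ht
  have hcopy : (clq n).copyCount (cycleGraph (2 * r)) ≤ ∑ i, (n i).descFactorial (2 * r) :=
    (copyCount_le_labelledCopyCount).trans (clq_copies n (2 * r) (by omega))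
  refine ⟨_, inferInstance, clq n, ?_, ?_, ?_, ?_⟩
  · rw [← SimpleGraph.coe_edgeFinset, Set.ncard_coe_finset]
    have := clq_edges n
    omega
  · refine hcopy.trans ?_
    obtain ⟨k, hk⟩ : ∃ k, 2 * r = k + 2 := ⟨2 * r - 2, by omega⟩
    rw [hk, Nat.add_sub_cancel, ← h1, Finset.sum_mul]
    exact Finset.sum_le_sum fun i _ => descFactorial_le (n i) t k (h2 i)
  · intro ht2
    have : ∑ i, (n i).descFactorial (2 * r) = 0 := by
      refine Finset.sum_eq_zero fun i _ => ?_
      refine Nat.descFactorial_of_lt ?_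
      have := h2 i
      omega
    omega
  · have h4 := clq_cut' n
    have h5 : ∑ i, n i ^ 2 = ∑ i, n i * (n i - 1) + ∑ i, n i := by
      rw [← Finset.sum_add_distrib]
      refine Finset.sum_congr rfl fun i _ => ?_
      rcases Nat.eq_zero_or_pos (n i) with h0 | h0
      · rw [h0]
        rfl
      · obtain ⟨a, ha⟩ : ∃ a, n i = a + 1 := ⟨n i - 1, by omega⟩
        rw [ha, Nat.add_sub_cancel]
        ring
    rw [h5, h1] at h4
    calc 4 * t * maxCut (clq n) = t * (4 * maxCut (clq n)) := by ring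
      _ ≤ t * (2 * m + ∑ i, n i) := Nat.mul_le_mul_left t h4
      _ = 2 * m * t + t * ∑ i, n i := by ring
      _ ≤ 2 * m * t + (4 * m + 4 * t ^ 2) := Nat.add_le_add_left h3 _
      _ = _ := by ring

end Pool.Agent.Work.FewC
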