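import Pool.Agent.Work.MP_4a0cc5_co.Lower
import Pool.Agent.Work.MP_4a0cc5_co.Count
import Pool.Agent.Work.MP_4a0cc5_co.Upper

set_option autoImplicit false

/-!
MP_4a0cc5_co: the two bounds, in terms of the numbers of edges and of copies.
-/

namespace Pool.Agent.Work.FewC

open Finset SimpleGraph

/-- the parameter -/
noncomputable def tau (r : ℕ) (m : ℕ) (N : ℝ) : ℝ := (N / m) ^ (((2 * r - 2 : ℕ) : ℝ)⁻¹)

section
variable (r : ℕ) (hr : 2 ≤ r) (m : ℕ) (hm : 1 ≤ m) (N : ℝ) (hN : 0 < N)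
include hr hm hN

lemma tau_pos : 0 < tau r m N := by
  have : (0:ℝ) < m := by exact_mod_cast hm
  unfold tau
  positivity

lemma tau_pow : tau r m N ^ (2 * r - 2) = N / m := by
  have : (0:ℝ) < m := by exact_mod_cast hm
  unfold tau
  exact Real.rpow_inv_natCast_pow (by positivity) (by omega)

lemma tau_eq : (m : ℝ) / tau r m N =
    (m : ℝ) ^ ((2 * r - 1 : ℝ) / (2 * r - 2)) * N ^ (-1 / (2 * r - 2 : ℝ)) := by
  have hm0 : (0:ℝ) < m := by exact_mod_cast hm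
  have hr2 : (2:ℝ) ≤ r := by exact_mod_cast hr
  have h1 : ((2 * r - 2 : ℕ) : ℝ) = 2 * r - 2 := by
    rw [Nat.cast_sub (by omega)]
    push_cast
    ring
  unfold tau
  rw [h1, Real.div_rpow hN.le hm0.le]
  have h2 : (m : ℝ) ^ ((2 * r - 1 : ℝ) / (2 * r - 2)) = m * (m : ℝ) ^ ((2 * r - 2 : ℝ)⁻¹) := by
    have h3 : ((2 * r - 1 : ℝ) / (2 * r - 2)) = 1 + (2 * r - 2 : ℝ)⁻¹ := by
      have h4 : (2 * r - 2 : ℝ) ≠ 0 := by linarith
      rw [show (2 * r - 1 : ℝ) = (2 * r - 2) + 1 by ring, add_div, div_self h4, one_div]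
    rw [h3, Real.rpow_add hm0, Real.rpow_one]
  have h4 : N ^ (-1 / (2 * r - 2 : ℝ)) = (N ^ ((2 * r - 2 : ℝ)⁻¹))⁻¹ := by
    rw [← Real.rpow_neg hN.le]
    congr 1
    rw [neg_div, one_div]
  rw [h2, h4]
  have h5 : 0 < N ^ ((2 * r - 2 : ℝ)⁻¹) := by positivity
  field_simp

lemma tau_low (h : (m : ℝ) ^ ((2 * r : ℝ) / (r + 1)) ≤ N) : (m : ℝ) ≤ tau r m N ^ (2 * r + 2) := by
  have hm0 : (0:ℝ) < m := by exact_mod_cast hm
  have hr2 : (2:ℝ) ≤ r := by exact_mod_cast hr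
  have h1 := tau_pow r hr m hm N hN
  have ht := tau_pos r hr m hm N hN
  have h2 : (m : ℝ) ^ (((r : ℝ) - 1) / (r + 1)) ≤ tau r m N ^ (2 * r - 2) := by
    rw [h1, le_div_iff₀ hm0]
    refine le_trans (le_of_eq ?_) h
    nth_rewrite 2 [← Real.rpow_one (m:ℝ)]
    rw [← Real.rpow_add hm0]
    congr 1
    have : (r:ℝ) + 1 ≠ 0 := by linarith
    field_simp
    ring
  have h3 : ((m : ℝ) ^ (((r : ℝ) - 1) / (r + 1))) ^ (((r:ℝ) + 1) / (r - 1)) ≤
      (tau r m N ^ (2 * r - 2)) ^ (((r:ℝ) + 1) / (r - 1)) := by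
    refine Real.rpow_le_rpow (by positivity) h2 ?_
    apply div_nonneg <;> linarith
  have h4 : ((m : ℝ) ^ (((r : ℝ) - 1) / (r + 1))) ^ (((r:ℝ) + 1) / (r - 1)) = m := by
    rw [← Real.rpow_mul hm0.le]
    have : ((r : ℝ) - 1) / (r + 1) * (((r:ℝ) + 1) / (r - 1)) = 1 := by
      have h5 : (r:ℝ) + 1 ≠ 0 := by linarith
      have h6 : (r:ℝ) - 1 ≠ 0 := by linarith
      field_simp
    rw [this, Real.rpow_one]
  have h5 : (tau r m N ^ (2 * r - 2)) ^ (((r:ℝ) + 1) / (r - 1)) = tau r m N ^ (2 * r + 2) := by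
    rw [← Real.rpow_natCast, ← Real.rpow_natCast, ← Real.rpow_mul ht.le]
    congr 1
    rw [Nat.cast_sub (by omega)]
    push_cast
    have h6 : (r:ℝ) - 1 ≠ 0 := by linarith
    field_simp
  rw [h4, h5] at h3
  exact h3

lemma tau_high (h : N ≤ (m : ℝ) ^ r) : tau r m N ^ 2 ≤ m := by
  have hm0 : (0:ℝ) < m := by exact_mod_cast hm
  have h1 := tau_pow r hr m hm N hN
  have ht := tau_pos r hr m hm N hN
  have h2 : (tau r m N ^ 2) ^ (r - 1) ≤ (m : ℝ) ^ (r - 1) := by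
    rw [← pow_mul, show 2 * (r - 1) = 2 * r - 2 by omega, h1, div_le_iff₀ hm0, ← pow_succ,
      show r - 1 + 1 = r by omega]
    exact h
  exact le_of_pow_le_pow_left₀ (by omega) hm0.le h2

end

/-- lower bound -/
theorem lower (r : ℕ) (hr : 2 ≤ r) : ∃ c : ℝ, 0 < c ∧
    ∀ (V : Type) [Fintype V] (G : SimpleGraph V) (m : ℕ) (N : ℝ), G.edgeSet.ncard = m → 1 ≤ m →
      (m : ℝ) ^ ((2 * r : ℝ) / (r + 1)) ≤ N → (G.copyCount (cycleGraph (2 * r)) : ℝ) ≤ N →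
      (m : ℝ) / 2 + c * ((m : ℝ) ^ ((2 * r - 1 : ℝ) / (2 * r - 2)) * N ^ (-1 / (2 * r - 2 : ℝ))) ≤
        maxCut G := by
  classical
  set K : ℝ := (((2 * r) ^ (2 * r) : ℕ) : ℝ) with hK
  have hK1 : 1 ≤ K := by
    rw [hK]
    exact_mod_cast Nat.one_le_pow _ _ (by omega)
  have hr0 : (0:ℝ) < r := by
    have : 0 < r := by omega
    exact_mod_cast this
  refine ⟨1 / (6720 * r * K), by positivity, ?_⟩
  intro V _ G m N hG hm hN1 hN2
  have hm0 : (0:ℝ) < m := by exact_mod_cast hm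
  have hN : 0 < N := lt_of_lt_of_le (by positivity) hN1
  have hE : G.edgeFinset.card = m := by
    rw [← hG, ← SimpleGraph.coe_edgeFinset, Set.ncard_coe_finset]
  rw [← tau_eq r hr m hm N hN]
  set τ := tau r m N with hτ
  have ht0 : 0 < τ := tau_pos r hr m hm N hN
  have ht1 : τ ^ (2 * r - 2) = N / m := tau_pow r hr m hm N hN
  have ht2 : (m : ℝ) ≤ τ ^ (2 * r + 2) := tau_low r hr m hm N hN hN1
  have ht3 : 1 ≤ τ := by
    by_contra hcon
    push Not at hcon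
    have h1 : τ ^ (2 * r + 2) < 1 := pow_lt_one₀ ht0.le hcon (by omega)
    have h2 : (1:ℝ) ≤ m := by exact_mod_cast hm
    linarith
  have h1 : 1 ≤ K * τ := by nlinarith
  obtain ⟨A, hA⟩ := lower_t G r hr (K * τ) h1 (by
    rw [hE, mul_pow]
    have h2 : 1 ≤ K ^ (2 * r + 2) := one_le_pow₀ hK1
    nlinarith) (by omega) (by
    rw [hE, mul_pow, ht1]
    have h2 : ((cyc r G).card : ℝ) ≤ K * G.copyCount (cycleGraph (2 * r)) := by
      rw [hK]
      exact_mod_cast cyc_le_copyCount G r (by omega)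
    have h3 : K ≤ K ^ (2 * r - 2) := by
      have := pow_le_pow_right₀ hK1 (show 1 ≤ 2 * r - 2 by omega)
      rwa [pow_one] at this
    have h4 : (m : ℝ) * (K ^ (2 * r - 2) * (N / m)) = K ^ (2 * r - 2) * N := by
      field_simp
    rw [h4]
    have h5 : K * (G.copyCount (cycleGraph (2 * r)) : ℝ) ≤ K * N := by gcongr
    have h6 : K * N ≤ K ^ (2 * r - 2) * N := by gcongr
    linarith)
  rw [hE] at hA
  have h2 : 1 / (6720 * r * K) * ((m : ℝ) / τ) = 1 / (6720 * r) * (m / (K * τ)) := by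
    field_simp
  rw [h2]
  refine hA.trans ?_
  exact_mod_cast le_maxCut G A

/-- upper bound -/
theorem upper (r : ℕ) (hr : 2 ≤ r) (m : ℕ) (N : ℝ) (hm : 1 ≤ m)
    (hN1 : (m : ℝ) ^ ((2 * r : ℝ) / (r + 1)) ≤ N) (hN2 : N ≤ (m : ℝ) ^ r) :
    ∃ (V : Type) (_ : Fintype V) (G : SimpleGraph V), G.edgeSet.ncard = m ∧
      (G.copyCount (cycleGraph (2 * r)) : ℝ) ≤ N ∧
      (maxCut G : ℝ) ≤ m / 2 +
        6 * ((m : ℝ) ^ ((2 * r - 1 : ℝ) / (2 * r - 2)) * N ^ (-1 / (2 * r - 2 : ℝ))) := by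
  have hm0 : (0:ℝ) < m := by exact_mod_cast hm
  have hN : 0 < N := lt_of_lt_of_le (by positivity) hN1
  rw [← tau_eq r hr m hm N hN]
  set τ := tau r m N with hτ
  have ht0 : 0 < τ := tau_pos r hr m hm N hN
  have ht1 : τ ^ (2 * r - 2) = N / m := tau_pow r hr m hm N hN
  have ht2 : (m : ℝ) ≤ τ ^ (2 * r + 2) := tau_low r hr m hm N hN hN1
  have ht3 : 1 ≤ τ := by
    by_contra hcon
    push Not at hcon
    have h1 : τ ^ (2 * r + 2) < 1 := pow_lt_one₀ ht0.le hcon (by omega)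
    have h2 : (1:ℝ) ≤ m := by exact_mod_cast hm
    linarith
  have ht4 : τ ^ 2 ≤ m := tau_high r hr m hm N hN hN2
  set t : ℕ := max 2 ⌊τ / 2⌋₊ with ht
  have htle : (⌊τ / 2⌋₊ : ℝ) ≤ τ / 2 := Nat.floor_le (by positivity)
  have htge : τ / 2 < ⌊τ / 2⌋₊ + 1 := Nat.lt_floor_add_one _
  have ht5 : (t : ℝ) ≤ 2 * τ := by
    rw [ht]
    push_cast
    exact max_le (by linarith) (by linarith)
  have ht6 : τ ≤ 4 * t := by
    have h1 : (2:ℝ) ≤ t := by
      rw [ht]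
      push_cast
      exact le_max_left _ _
    have h2 : (⌊τ / 2⌋₊ : ℝ) ≤ t := by
      rw [ht]
      push_cast
      exact le_max_right _ _
    linarith
  obtain ⟨V, _, G, h1, h2, h3, h4⟩ := upper_t r hr m t (le_max_left _ _)
  refine ⟨V, inferInstance, G, h1, ?_, ?_⟩
  · by_cases hc : t = 2
    · rw [h3 hc]
      exact_mod_cast hN.le
    · have h5 : (t : ℝ) ≤ τ / 2 := by
        have h6 : t = ⌊τ / 2⌋₊ := by omega
        rw [h6]
        exact htle
      have h7 : (G.copyCount (cycleGraph (2 * r)) : ℝ) ≤ 2 * m * (t:ℝ) ^ (2 * r - 2) := by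
        exact_mod_cast h2
      refine h7.trans ?_
      have h8 : (t : ℝ) ^ (2 * r - 2) ≤ (τ / 2) ^ (2 * r - 2) := by gcongr
      have h9 : (τ / 2) ^ (2 * r - 2) = (N / m) / 2 ^ (2 * r - 2) := by
        rw [div_pow, ht1]
      have h10 : (2:ℝ) ≤ 2 ^ (2 * r - 2) := by
        have := pow_le_pow_right₀ (show (1:ℝ) ≤ 2 by norm_num) (show 1 ≤ 2 * r - 2 by omega)
        rwa [pow_one] at this
      have h11 : (N / m) / 2 ^ (2 * r - 2) ≤ (N / m) / 2 := by gcongr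
      calc 2 * m * (t:ℝ) ^ (2 * r - 2) ≤ 2 * m * ((N / m) / 2) := by
            refine mul_le_mul_of_nonneg_left ?_ (by positivity)
            rw [h9] at h8
            exact h8.trans h11
        _ = N := by field_simp
  · have h5 : 4 * (t:ℝ) * maxCut G ≤ 2 * m * t + 4 * m + 4 * (t:ℝ) ^ 2 := by exact_mod_cast h4
    have ht7 : (0:ℝ) < t := by linarith
    have h6 : (maxCut G : ℝ) ≤ m / 2 + m / t + t := by
      have h7 : 4 * (t:ℝ) * (m / 2 + m / t + t) = 2 * m * t + 4 * m + 4 * (t:ℝ) ^ 2 := by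
        field_simp
        ring
      have h8 : 4 * (t:ℝ) * maxCut G ≤ 4 * (t:ℝ) * (m / 2 + m / t + t) := by
        rw [h7]
        exact h5
      exact le_of_mul_le_mul_left h8 (by positivity)
    have h7 : (m : ℝ) / t ≤ 4 * (m / τ) := by
      rw [div_le_iff₀ ht7]
      have h8 : 4 * ((m:ℝ) / τ) * t = m * (4 * t / τ) := by
        field_simp
      rw [h8]
      have h9 : 1 ≤ 4 * (t:ℝ) / τ := (one_le_div ht0).2 ht6
      nlinarith
    have h8 : (t : ℝ) ≤ 2 * (m / τ) := by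
      have h9 : τ ≤ m / τ := by
        rw [le_div_iff₀ ht0]
        nlinarith
      linarith
    linarith

end Pool.Agent.Work.FewC
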