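import Pool.Agent.Work.MP_4a0cc5_co.Core
import Pool.Agent.Work.MP_4a0cc5_co.Cut

set_option autoImplicit false

/-!
MP_4a0cc5_co: the surplus of an induced subgraph is at most that of the graph.
-/

namespace Pool.Agent.Work.FewC

open Finset SimpleGraph

section
variable {V : Type*} [Fintype V] [DecidableEq V] (G : SimpleGraph V) [DecidableRel G.Adj]

/-- number of adjacent pairs between two sets -/
noncomputable def ee (A B : Finset V) : ℝ := ∑ a ∈ A, ∑ b ∈ B, (if G.Adj a b then (1:ℝ) else 0)

lemma ee_eq (A B : Finset V) : ((G.interedges A B).card : ℝ) = ee G A B := by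
  unfold ee
  rw [SimpleGraph.interedges, Rel.interedges, Finset.card_filter, Nat.cast_sum, Finset.sum_product]
  refine Finset.sum_congr rfl fun a _ => Finset.sum_congr rfl fun b _ => ?_
  push_cast
  rfl

lemma dd_insert (Y : Finset V) (v : V) (hv : v ∉ Y) :
    (dd G (insert v Y) : ℝ) = dd G Y + 2 * dg G Y v := by
  have h1 := dd_erase G (insert v Y) v (Finset.mem_insert_self v Y)
  rw [Finset.erase_insert hv] at h1
  have h2 : (dg G (insert v Y) v : ℝ) = dg G Y v := by
    rw [dg_eq, dg_eq, Finset.sum_insert hv, if_neg (G.loopless.irrefl v), zero_add]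
  rw [h2] at h1
  linarith

lemma ext_cut (X A0 B0 : Finset V) (h0 : Disjoint A0 B0) (h1 : A0 ∪ B0 = X) (Z : Finset V)
    (hZ : Disjoint Z X) : ∃ A B : Finset V, Disjoint A B ∧ A ∪ B = Z ∪ X ∧
      ee G A0 B0 + ((dd G (Z ∪ X) : ℝ) - dd G X) / 4 ≤ ee G A B := by
  induction Z using Finset.induction_on with
  | empty =>
    refine ⟨A0, B0, h0, ?_, ?_⟩
    · rw [Finset.empty_union, h1]
    · rw [Finset.empty_union]
      linarith
  | insert v Z hv ih =>
    obtain ⟨A, B, hAB, hU, hle⟩ := ih (Finset.disjoint_of_subset_left (Finset.subset_insert v Z) hZ)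
    have hvX : v ∉ X := fun h => (Finset.disjoint_left.1 hZ (Finset.mem_insert_self v Z)) h
    have hvU : v ∉ Z ∪ X := by
      rw [Finset.mem_union]
      rintro (h | h)
      · exact hv h
      · exact hvX h
    have hvA : v ∉ A := fun h => hvU (hU ▸ Finset.mem_union_left _ h)
    have hvB : v ∉ B := fun h => hvU (hU ▸ Finset.mem_union_right _ h)
    have hdd : (dd G (insert v Z ∪ X) : ℝ) = dd G (Z ∪ X) + 2 * dg G (Z ∪ X) v := by
      rw [Finset.insert_union]
      exact dd_insert G _ v hvU
    have hdg : (dg G (Z ∪ X) v : ℝ) = (∑ a ∈ A, (if G.Adj v a then (1:ℝ) else 0)) +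
        ∑ b ∈ B, (if G.Adj v b then (1:ℝ) else 0) := by
      rw [dg_eq, ← hU, Finset.sum_union hAB]
    have e1 : ee G (insert v A) B = ee G A B + ∑ b ∈ B, (if G.Adj v b then (1:ℝ) else 0) := by
      unfold ee
      rw [Finset.sum_insert hvA, add_comm]
    have e2 : ee G A (insert v B) = ee G A B + ∑ a ∈ A, (if G.Adj v a then (1:ℝ) else 0) := by
      unfold ee
      rw [← Finset.sum_add_distrib]
      refine Finset.sum_congr rfl fun a _ => ?_
      rw [Finset.sum_insert hvB, add_comm]
      simp only [G.adj_comm a v]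
    by_cases hc : (∑ a ∈ A, (if G.Adj v a then (1:ℝ) else 0)) ≤
        ∑ b ∈ B, (if G.Adj v b then (1:ℝ) else 0)
    · refine ⟨insert v A, B, ?_, ?_, ?_⟩
      · rw [Finset.disjoint_insert_left]
        exact ⟨hvB, hAB⟩
      · rw [Finset.insert_union, hU, Finset.insert_union]
      · rw [hdd, e1]
        linarith
    · refine ⟨A, insert v B, ?_, ?_, ?_⟩
      · rw [Finset.disjoint_insert_right]
        exact ⟨hvA, hAB⟩
      · rw [Finset.union_insert, hU, Finset.insert_union]
      · rw [hdd, e2]
        push Not at hc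
        linarith

lemma dd_univ : (dd G univ : ℝ) = 2 * (G.edgeFinset.card : ℝ) := by
  have h1 : dd G univ = 2 * G.edgeFinset.card := by
    rw [← G.sum_degrees_eq_twice_card_edges]
    unfold dd dg
    refine Finset.sum_congr rfl fun v _ => ?_
    rw [Finset.inter_univ, SimpleGraph.card_neighborFinset_eq_degree]
  exact_mod_cast h1

lemma exists_maxCut : ∃ A : Finset V, maxCut G ≤ (G.interedges A Aᶜ).card := by
  obtain ⟨A, _, hA⟩ := Finset.exists_max_image (univ : Finset (Finset V))
    (fun A => (G.interedges A Aᶜ).card) ⟨∅, Finset.mem_univ _⟩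
  exact ⟨A, maxCut_le G _ fun B => hA B (Finset.mem_univ _)⟩

end

/-- the surplus of an induced subgraph -/
theorem maxCut_induce {V : Type*} [Fintype V] [DecidableEq V] (G : SimpleGraph V)
    [DecidableRel G.Adj] (X : Finset V) :
    (maxCut (G.induce (X : Set V)) : ℝ) + (2 * (G.edgeFinset.card : ℝ) - dd G X) / 4 ≤ maxCut G := by
  classical
  obtain ⟨A', hA'⟩ := exists_maxCut (G.induce (X : Set V))
  set A0 : Finset V := A'.map (Function.Embedding.subtype _) with hA0
  set B0 : Finset V := A'ᶜ.map (Function.Embedding.subtype _) with hB0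
  have h0 : Disjoint A0 B0 := by
    rw [hA0, hB0, Finset.disjoint_map]
    exact disjoint_compl_right
  have h1 : A0 ∪ B0 = X := by
    rw [hA0, hB0, ← Finset.map_union, Finset.union_compl]
    ext x
    rw [Finset.mem_map]
    constructor
    · rintro ⟨y, _, rfl⟩
      exact y.2
    · intro hx
      exact ⟨⟨x, hx⟩, Finset.mem_univ _, rfl⟩
  have h2 : (((G.induce (X : Set V)).interedges A' A'ᶜ).card : ℝ) = ee G A0 B0 := by
    rw [ee_eq]
    unfold ee
    rw [hA0, hB0, Finset.sum_map]
    refine Finset.sum_congr rfl fun a _ => ?_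
    rw [Finset.sum_map]
    refine Finset.sum_congr rfl fun b _ => ?_
    rfl
  obtain ⟨A, B, hAB, hU, hle⟩ := ext_cut G X A0 B0 h0 h1 Xᶜ disjoint_compl_left
  have h3 : Xᶜ ∪ X = univ := by
    rw [Finset.union_comm, Finset.union_compl]
  rw [h3] at hU hle
  have h4 : B = Aᶜ := by
    ext x
    rw [Finset.mem_compl]
    constructor
    · intro hx hx'
      exact (Finset.disjoint_left.1 hAB hx') hx
    · intro hx
      have : x ∈ A ∪ B := hU ▸ Finset.mem_univ x
      exact (Finset.mem_union.1 this).resolve_left hx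
  rw [dd_univ, h4, ← ee_eq G A, ← h2] at hle
  have h5 : ((G.interedges A Aᶜ).card : ℝ) ≤ maxCut G := by exact_mod_cast le_maxCut G A
  have h6 : (maxCut (G.induce (X : Set V)) : ℝ) ≤
      (((G.induce (X : Set V)).interedges A' A'ᶜ).card : ℝ) := by exact_mod_cast hA'
  linarith

end Pool.Agent.Work.FewC
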