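import Pool.Agent.Work.MP_4a0cc5_co.Defs

set_option autoImplicit false

/-!
MP_4a0cc5_co: a lower bound for the maximum cut of an arbitrary graph in terms of its degrees and
of the numbers of edges in the neighbourhoods.
-/

namespace Pool.Agent.Work.FewC

open Finset

section signs

variable {V : Type*} [Fintype V] [DecidableEq V]

/-- the sign of a bit -/
def sg (ε : V → Bool) (v : V) : ℝ := if ε v then 1 else -1

/-- sum of signs -/
def sX (S : Finset V) (ε : V → Bool) : ℝ := ∑ v ∈ S, sg ε v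

/-- flipping the signs on a set -/
def fl (J : Finset V) (ε : V → Bool) : V → Bool := fun v => if v ∈ J then !(ε v) else ε v

omit [Fintype V] in
lemma fl_fl (J : Finset V) : Function.Involutive (fl J) := by
  intro ε
  funext v
  unfold fl
  by_cases h : v ∈ J
  · simp [h]
  · simp [h]

lemma sum_fl (J : Finset V) (F : (V → Bool) → ℝ) : ∑ ε, F (fl J ε) = ∑ ε, F ε :=
  Equiv.sum_comp (fl_fl J).toPerm F

omit [Fintype V] in
lemma sg_fl_mem {J : Finset V} {v : V} (h : v ∈ J) (ε : V → Bool) : sg (fl J ε) v = - sg ε v := by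
  unfold sg fl
  rw [if_pos h]
  cases ε v <;> simp

omit [Fintype V] in
lemma sg_fl_notMem {J : Finset V} {v : V} (h : v ∉ J) (ε : V → Bool) : sg (fl J ε) v = sg ε v := by
  unfold sg fl
  rw [if_neg h]

omit [Fintype V] [DecidableEq V] in
lemma sg_sq (ε : V → Bool) (v : V) : sg ε v * sg ε v = 1 := by
  unfold sg
  split_ifs <;> norm_num

omit [Fintype V] in
lemma sX_fl_disj {J S : Finset V} (h : Disjoint S J) (ε : V → Bool) : sX S (fl J ε) = sX S ε := by
  unfold sX
  refine Finset.sum_congr rfl fun v hv => ?_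
  exact sg_fl_notMem (Finset.disjoint_left.1 h hv) ε

omit [Fintype V] in
lemma sX_fl_sub {J S : Finset V} (h : S ⊆ J) (ε : V → Bool) : sX S (fl J ε) = - sX S ε := by
  unfold sX
  rw [← Finset.sum_neg_distrib]
  refine Finset.sum_congr rfl fun v hv => ?_
  exact sg_fl_mem (h hv) ε

lemma odd_sum (a : V) (F : (V → Bool) → ℝ) (hF : ∀ ε, F (fl {a} ε) = F ε) :
    ∑ ε : V → Bool, sg ε a * F ε = 0 := by
  have h1 := sum_fl {a} (fun ε => sg ε a * F ε)
  have h2 : ∑ ε : V → Bool, sg (fl {a} ε) a * F (fl {a} ε) = - ∑ ε : V → Bool, sg ε a * F ε := by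
    rw [← Finset.sum_neg_distrib]
    refine Finset.sum_congr rfl fun ε _ => ?_
    rw [sg_fl_mem (Finset.mem_singleton_self a), hF]
    ring
  rw [h2] at h1
  linarith

lemma sum_sg_sg {u v : V} (h : u ≠ v) : ∑ ε : V → Bool, sg ε u * sg ε v = 0 :=
  odd_sum u (fun ε => sg ε v) (fun ε => sg_fl_notMem (by
    rw [Finset.mem_singleton]; exact h.symm) ε)

/-- the number of sign vectors -/
noncomputable def nn (V : Type*) [Fintype V] [DecidableEq V] : ℝ := ∑ _ε : V → Bool, (1 : ℝ)

lemma nn_pos : 0 < nn V := by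
  unfold nn
  rw [Finset.sum_const, nsmul_eq_mul, mul_one]
  have : 0 < (Finset.univ : Finset (V → Bool)).card := Finset.card_pos.2 ⟨fun _ => true, Finset.mem_univ _⟩
  exact_mod_cast this

lemma mom2 (S : Finset V) : ∑ ε : V → Bool, sX S ε ^ 2 = S.card * nn V := by
  induction S using Finset.induction_on with
  | empty => simp [sX]
  | insert a S ha ih =>
    have h1 : ∀ ε : V → Bool, sX (insert a S) ε ^ 2 = 1 + 2 * (sg ε a * sX S ε) + sX S ε ^ 2 := by
      intro ε
      have : sX (insert a S) ε = sg ε a + sX S ε := Finset.sum_insert ha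
      rw [this]
      have := sg_sq ε a
      nlinarith
    rw [Finset.sum_congr rfl fun ε _ => h1 ε, Finset.sum_add_distrib, Finset.sum_add_distrib,
      ← Finset.mul_sum, odd_sum a _ (fun ε => sX_fl_disj (by
        rw [Finset.disjoint_singleton_right]; exact ha) ε), ih, Finset.card_insert_of_notMem ha]
    unfold nn
    push_cast
    ring

lemma mom4 (S : Finset V) : ∑ ε : V → Bool, sX S ε ^ 4 ≤ 3 * (S.card : ℝ) ^ 2 * nn V := by
  induction S using Finset.induction_on with
  | empty => simp [sX]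
  | insert a S ha ih =>
    have h1 : ∀ ε : V → Bool, sX (insert a S) ε ^ 4 =
        1 + 4 * (sg ε a * sX S ε) + 6 * sX S ε ^ 2 + 4 * (sg ε a * sX S ε ^ 3) + sX S ε ^ 4 := by
      intro ε
      have : sX (insert a S) ε = sg ε a + sX S ε := Finset.sum_insert ha
      rw [this]
      have h2 := sg_sq ε a
      have h3 : sg ε a ^ 2 = 1 := by rw [sq]; exact h2
      have h4 : sg ε a ^ 3 = sg ε a := by rw [pow_succ, h3, one_mul]
      have h5 : sg ε a ^ 4 = 1 := by
        have : sg ε a ^ 4 = (sg ε a ^ 2) ^ 2 := by ring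
        rw [this, h3]; norm_num
      have : (sg ε a + sX S ε) ^ 4 = sg ε a ^ 4 + 4 * (sg ε a ^ 3 * sX S ε) +
          6 * (sg ε a ^ 2 * sX S ε ^ 2) + 4 * (sg ε a * sX S ε ^ 3) + sX S ε ^ 4 := by ring
      rw [this, h3, h4, h5]
      ring
    have hinv : ∀ ε : V → Bool, sX S (fl {a} ε) = sX S ε := fun ε => sX_fl_disj (by
        rw [Finset.disjoint_singleton_right]; exact ha) ε
    rw [Finset.sum_congr rfl fun ε _ => h1 ε, Finset.sum_add_distrib, Finset.sum_add_distrib,
      Finset.sum_add_distrib, Finset.sum_add_distrib, ← Finset.mul_sum, ← Finset.mul_sum,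
      ← Finset.mul_sum, odd_sum a _ hinv, odd_sum a (fun ε => sX S ε ^ 3) (fun ε => by rw [hinv]),
      mom2, Finset.card_insert_of_notMem ha]
    have h2 : ∑ _ε : V → Bool, (1:ℝ) = nn V := rfl
    rw [h2]
    have h3 : (0:ℝ) ≤ S.card := Nat.cast_nonneg _
    have h4 := (nn_pos (V := V)).le
    push_cast
    nlinarith [mul_nonneg h3 h4]

/-- truncation to `[-1, 1]` -/
noncomputable def cl (z : ℝ) : ℝ := max (-1) (min z 1)

lemma cl_neg (z : ℝ) : cl (-z) = - cl z := by
  unfold cl
  rcases le_total z 1 with h | h <;> rcases le_total (-1) z with h' | h'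
  · rw [min_eq_left h, max_eq_right h', min_eq_left (by linarith), max_eq_right (by linarith)]
  · have e1 : min (-z) 1 = 1 := min_eq_right (by linarith)
    have e3 : max (-1) (1:ℝ) = 1 := max_eq_right (by norm_num)
    rw [min_eq_left h, max_eq_left h', e1, e3]
    norm_num
  · have e1 : min (-z) 1 = -z := min_eq_left (by linarith)
    have e2 : max (-1) (-z) = -1 := max_eq_left (by linarith)
    have e3 : max (-1) (1:ℝ) = 1 := max_eq_right (by norm_num)
    rw [min_eq_right h, e1, e2, e3]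
  · exact absurd h' (by linarith)

lemma abs_cl (z : ℝ) : |cl z| ≤ 1 := by
  unfold cl
  rw [abs_le]
  exact ⟨le_max_left _ _, max_le (by norm_num) (min_le_right _ _)⟩

lemma cl_lip (x y : ℝ) : |cl x - cl y| ≤ |x - y| := by
  unfold cl
  exact (abs_max_sub_max_le_max _ _ _ _).trans (by
    rw [sub_self, abs_zero, max_eq_right (abs_nonneg _)]
    exact (abs_min_sub_min_le_max _ _ _ _).trans (by
      rw [sub_self, abs_zero, max_eq_left (abs_nonneg _)]))

lemma cl_mul_pos {z : ℝ} (hz : 0 ≤ z) : z ^ 2 - 4 / 27 * z ^ 4 ≤ z * cl z := by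
  unfold cl
  rcases le_total z 1 with h | h
  · rw [min_eq_left h, max_eq_right (by linarith)]
    nlinarith [pow_nonneg hz 4]
  · rw [min_eq_right h, max_eq_right (by norm_num), mul_one]
    have h1 : z - (z ^ 2 - 4 / 27 * z ^ 4) = z * (4 / 27 * ((z - 3 / 2) ^ 2 * (z + 3))) := by ring
    have h2 : 0 ≤ z * (4 / 27 * ((z - 3 / 2) ^ 2 * (z + 3))) := by positivity
    linarith

lemma cl_mul (z : ℝ) : z ^ 2 - 4 / 27 * z ^ 4 ≤ z * cl z := by
  rcases le_total 0 z with h | h
  · exact cl_mul_pos h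
  · have h1 := cl_mul_pos (z := -z) (by linarith)
    rw [cl_neg] at h1
    have h2 : (-z) ^ 2 = z ^ 2 := by ring
    have h3 : (-z) ^ 4 = z ^ 4 := by ring
    rw [h2, h3] at h1
    linarith

/-- the truncated normalised sum -/
noncomputable def yy (S : Finset V) (ε : V → Bool) : ℝ := cl (sX S ε / Real.sqrt S.card)

lemma sum_yy_mul (S : Finset V) :
    5 / 9 * Real.sqrt S.card * nn V ≤ ∑ ε : V → Bool, yy S ε * sX S ε := by
  rcases S.eq_empty_or_nonempty with rfl | hne
  · simp [sX]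
  have hd : (0:ℝ) < S.card := by exact_mod_cast Finset.card_pos.2 hne
  set r := Real.sqrt S.card with hr
  have hr0 : 0 < r := Real.sqrt_pos.2 hd
  have hr2 : r * r = S.card := Real.mul_self_sqrt hd.le
  have h1 : ∀ ε : V → Bool, (1 / r) * sX S ε ^ 2 - (4 / 27) * (1 / r ^ 3) * sX S ε ^ 4 ≤
      yy S ε * sX S ε := by
    intro ε
    have h2 := cl_mul (sX S ε / r)
    have h3 := mul_le_mul_of_nonneg_left h2 hr0.le
    have h4 : r * (sX S ε / r * cl (sX S ε / r)) = yy S ε * sX S ε := by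
      unfold yy
      rw [← hr]
      field_simp
    have h5 : r * ((sX S ε / r) ^ 2 - 4 / 27 * (sX S ε / r) ^ 4) =
        (1 / r) * sX S ε ^ 2 - (4 / 27) * (1 / r ^ 3) * sX S ε ^ 4 := by
      field_simp
    rw [h4, h5] at h3
    exact h3
  have h2 := Finset.sum_le_sum (fun ε (_ : ε ∈ (Finset.univ : Finset (V → Bool))) => h1 ε)
  refine le_trans ?_ h2
  rw [Finset.sum_sub_distrib, ← Finset.mul_sum, ← Finset.mul_sum, mom2]
  have h3 := mom4 S
  have h4 : (4 / 27) * (1 / r ^ 3) * ∑ ε : V → Bool, sX S ε ^ 4 ≤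
      (4 / 27) * (1 / r ^ 3) * (3 * (S.card : ℝ) ^ 2 * nn V) :=
    mul_le_mul_of_nonneg_left h3 (by positivity)
  have h5 : (1 / r) * ((S.card : ℝ) * nn V) = r * nn V := by
    rw [← hr2]; field_simp
  have h6 : (4 / 27) * (1 / r ^ 3) * (3 * (S.card : ℝ) ^ 2 * nn V) = 4 / 9 * (r * nn V) := by
    rw [← hr2]; field_simp; ring
  rw [h6] at h4
  rw [h5]
  linarith

lemma sum_yy_yy (S T : Finset V) (hS : S.Nonempty) (hT : T.Nonempty) :
    ∑ ε : V → Bool, yy S ε * yy T ε ≤
      (S ∩ T).card / (Real.sqrt S.card * Real.sqrt T.card) * nn V := by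
  have hs : (0:ℝ) < S.card := by exact_mod_cast Finset.card_pos.2 hS
  have ht : (0:ℝ) < T.card := by exact_mod_cast Finset.card_pos.2 hT
  set a := Real.sqrt S.card with ha
  set b := Real.sqrt T.card with hb
  have ha0 : 0 < a := Real.sqrt_pos.2 hs
  have hb0 : 0 < b := Real.sqrt_pos.2 ht
  -- decomposition
  have hSd : ∀ ε : V → Bool, sX S ε = sX (S ∩ T) ε + sX (S \ T) ε := by
    intro ε
    unfold sX
    rw [← Finset.sum_union (by
      rw [Finset.disjoint_left]
      intro x hx hx'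
      exact (Finset.mem_sdiff.1 hx').2 (Finset.mem_inter.1 hx).2)]
    congr 1
    ext x
    simp only [Finset.mem_union, Finset.mem_inter, Finset.mem_sdiff]
    tauto
  have hTd : ∀ ε : V → Bool, sX T ε = sX (S ∩ T) ε + sX (T \ S) ε := by
    intro ε
    unfold sX
    rw [← Finset.sum_union (by
      rw [Finset.disjoint_left]
      intro x hx hx'
      exact (Finset.mem_sdiff.1 hx').2 (Finset.mem_inter.1 hx).1)]
    congr 1
    ext x
    simp only [Finset.mem_union, Finset.mem_inter, Finset.mem_sdiff]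
    tauto
  have hdisj1 : Disjoint (S ∩ T) (S \ T) := by
    rw [Finset.disjoint_left]
    intro x hx hx'
    exact (Finset.mem_sdiff.1 hx').2 (Finset.mem_inter.1 hx).2
  have hdisj2 : Disjoint (S ∩ T) (T \ S) := by
    rw [Finset.disjoint_left]
    intro x hx hx'
    exact (Finset.mem_sdiff.1 hx').2 (Finset.mem_inter.1 hx).1
  have hdisj3 : Disjoint T (S \ T) := by
    rw [Finset.disjoint_left]
    intro x hx hx'
    exact (Finset.mem_sdiff.1 hx').2 hx
  have hdisj4 : Disjoint S (T \ S) := by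
    rw [Finset.disjoint_left]
    intro x hx hx'
    exact (Finset.mem_sdiff.1 hx').2 hx
  have e1 : ∀ ε : V → Bool, yy T (fl (S \ T) ε) = yy T ε := by
    intro ε
    unfold yy
    rw [sX_fl_disj hdisj3]
  have e2 : ∀ ε : V → Bool, yy S (fl (T \ S) ε) = yy S ε := by
    intro ε
    unfold yy
    rw [sX_fl_disj hdisj4]
  have e3 : ∀ ε : V → Bool, yy S (fl (S \ T) ε) =
      cl ((sX (S ∩ T) ε - sX (S \ T) ε) / a) := by
    intro ε
    unfold yy
    rw [hSd, sX_fl_disj hdisj1, sX_fl_sub (Finset.Subset.refl _), ← ha, sub_eq_add_neg]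
  have e4 : ∀ ε : V → Bool, yy T (fl (T \ S) ε) =
      cl ((sX (S ∩ T) ε - sX (T \ S) ε) / b) := by
    intro ε
    unfold yy
    rw [hTd, sX_fl_disj hdisj2, sX_fl_sub (Finset.Subset.refl _), ← hb, sub_eq_add_neg]
  have e5 : ∀ ε : V → Bool, yy S (fl (S \ T) (fl (T \ S) ε)) = yy S (fl (S \ T) ε) := by
    intro ε
    rw [e3, e3, sX_fl_disj hdisj2]
    rw [sX_fl_disj (J := T \ S) (S := S \ T) (by
      rw [Finset.disjoint_left]
      intro x hx hx'
      exact (Finset.mem_sdiff.1 hx').2 (Finset.mem_sdiff.1 hx).1)]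
  have h1 : ∑ ε : V → Bool, yy S (fl (S \ T) ε) * yy T ε = ∑ ε : V → Bool, yy S ε * yy T ε := by
    rw [← sum_fl (S \ T) (fun ε => yy S ε * yy T ε)]
    exact Finset.sum_congr rfl fun ε _ => by rw [e1]
  have h2 : ∑ ε : V → Bool, yy S ε * yy T (fl (T \ S) ε) = ∑ ε : V → Bool, yy S ε * yy T ε := by
    rw [← sum_fl (T \ S) (fun ε => yy S ε * yy T ε)]
    exact Finset.sum_congr rfl fun ε _ => by rw [e2]
  have h3 : ∑ ε : V → Bool, yy S (fl (S \ T) ε) * yy T (fl (T \ S) ε) =
      ∑ ε : V → Bool, yy S ε * yy T ε := by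
    rw [← h1, ← sum_fl (T \ S) (fun ε => yy S (fl (S \ T) ε) * yy T ε)]
    exact Finset.sum_congr rfl fun ε _ => by rw [e5]
  have h4 : 4 * ∑ ε : V → Bool, yy S ε * yy T ε =
      ∑ ε : V → Bool, (yy S ε + yy S (fl (S \ T) ε)) * (yy T ε + yy T (fl (T \ S) ε)) := by
    have : ∀ ε : V → Bool, (yy S ε + yy S (fl (S \ T) ε)) * (yy T ε + yy T (fl (T \ S) ε)) =
        yy S ε * yy T ε + yy S (fl (S \ T) ε) * yy T ε + yy S ε * yy T (fl (T \ S) ε) +
          yy S (fl (S \ T) ε) * yy T (fl (T \ S) ε) := fun ε => by ring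
    rw [Finset.sum_congr rfl fun ε _ => this ε, Finset.sum_add_distrib, Finset.sum_add_distrib,
      Finset.sum_add_distrib, h1, h2, h3]
    ring
  have h5 : ∀ ε : V → Bool, |yy S ε + yy S (fl (S \ T) ε)| ≤ 2 * |sX (S ∩ T) ε| / a := by
    intro ε
    rw [e3]
    have h6 : yy S ε = cl ((sX (S ∩ T) ε + sX (S \ T) ε) / a) := by
      unfold yy
      rw [hSd, ← ha]
    have h7 : cl ((sX (S ∩ T) ε - sX (S \ T) ε) / a) =
        - cl ((sX (S \ T) ε - sX (S ∩ T) ε) / a) := by
      rw [← cl_neg]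
      congr 1
      ring
    rw [h6, h7, ← sub_eq_add_neg]
    refine (cl_lip _ _).trans (le_of_eq ?_)
    rw [← sub_div, abs_div, abs_of_pos ha0]
    congr 1
    rw [show sX (S ∩ T) ε + sX (S \ T) ε - (sX (S \ T) ε - sX (S ∩ T) ε) =
      2 * sX (S ∩ T) ε by ring, abs_mul, abs_two]
  have h5' : ∀ ε : V → Bool, |yy T ε + yy T (fl (T \ S) ε)| ≤ 2 * |sX (S ∩ T) ε| / b := by
    intro ε
    rw [e4]
    have h6 : yy T ε = cl ((sX (S ∩ T) ε + sX (T \ S) ε) / b) := by
      unfold yy
      rw [hTd, ← hb]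
    have h7 : cl ((sX (S ∩ T) ε - sX (T \ S) ε) / b) =
        - cl ((sX (T \ S) ε - sX (S ∩ T) ε) / b) := by
      rw [← cl_neg]
      congr 1
      ring
    rw [h6, h7, ← sub_eq_add_neg]
    refine (cl_lip _ _).trans (le_of_eq ?_)
    rw [← sub_div, abs_div, abs_of_pos hb0]
    congr 1
    rw [show sX (S ∩ T) ε + sX (T \ S) ε - (sX (T \ S) ε - sX (S ∩ T) ε) =
      2 * sX (S ∩ T) ε by ring, abs_mul, abs_two]
  have h8 : 4 * ∑ ε : V → Bool, yy S ε * yy T ε ≤
      ∑ ε : V → Bool, 4 / (a * b) * sX (S ∩ T) ε ^ 2 := by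
    rw [h4]
    refine Finset.sum_le_sum fun ε _ => ?_
    refine (le_abs_self _).trans ?_
    rw [abs_mul]
    refine (mul_le_mul (h5 ε) (h5' ε) (abs_nonneg _) (by positivity)).trans (le_of_eq ?_)
    have : sX (S ∩ T) ε ^ 2 = |sX (S ∩ T) ε| * |sX (S ∩ T) ε| := by rw [← sq, sq_abs]
    rw [this]
    field_simp
    ring
  rw [← Finset.mul_sum, mom2] at h8
  have h9 : 4 / (a * b) * ((S ∩ T).card * nn V) = 4 * ((S ∩ T).card / (a * b) * nn V) := by ring
  rw [h9] at h8
  linarith

end signs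

section cut

variable {V : Type*} [Fintype V] [DecidableEq V] (G : SimpleGraph V) [DecidableRel G.Adj]

/-- the quadratic form of the graph -/
noncomputable def QQ (μ : V → ℝ) : ℝ := ∑ u, ∑ v ∈ G.neighborFinset u, μ u * μ v

lemma QQ_update (μ : V → ℝ) (a : V) (x : ℝ) :
    QQ G (Function.update μ a x) = QQ G μ + 2 * (x - μ a) * ∑ v ∈ G.neighborFinset a, μ v := by
  have h1 : QQ G (Function.update μ a x) = (∑ v ∈ G.neighborFinset a, x * μ v) +
      ∑ u ∈ univ.erase a, ∑ v ∈ G.neighborFinset u, μ u * Function.update μ a x v := by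
    unfold QQ
    rw [← Finset.add_sum_erase _ _ (Finset.mem_univ a)]
    congr 1
    · refine Finset.sum_congr rfl fun v hv => ?_
      have hne : v ≠ a := by
        rintro rfl
        exact G.loopless.irrefl v ((SimpleGraph.mem_neighborFinset G v v).1 hv)
      rw [Function.update_self, Function.update_of_ne hne]
    · refine Finset.sum_congr rfl fun u hu => Finset.sum_congr rfl fun v _ => ?_
      rw [Function.update_of_ne (Finset.ne_of_mem_erase hu)]
  have h2 : QQ G μ = (∑ v ∈ G.neighborFinset a, μ a * μ v) +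
      ∑ u ∈ univ.erase a, ∑ v ∈ G.neighborFinset u, μ u * μ v := by
    unfold QQ
    rw [← Finset.add_sum_erase _ _ (Finset.mem_univ a)]
  have h3 : ∀ u ∈ univ.erase a, ∑ v ∈ G.neighborFinset u, μ u * Function.update μ a x v =
      (∑ v ∈ G.neighborFinset u, μ u * μ v) + (if u ∈ G.neighborFinset a then μ u * (x - μ a) else 0) := by
    intro u _
    have h4 : ∀ v, μ u * Function.update μ a x v = μ u * μ v + (if v = a then μ u * (x - μ a) else 0) := by
      intro v
      by_cases hv : v = a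
      · subst hv
        rw [Function.update_self, if_pos rfl]; ring
      · rw [Function.update_of_ne hv, if_neg hv, add_zero]
    rw [Finset.sum_congr rfl fun v _ => h4 v, Finset.sum_add_distrib, Finset.sum_ite_eq']
    congr 1
    have : a ∈ G.neighborFinset u ↔ u ∈ G.neighborFinset a := by
      rw [SimpleGraph.mem_neighborFinset, SimpleGraph.mem_neighborFinset]
      exact G.adj_comm u a
    simp only [this]
  rw [h1, Finset.sum_congr rfl h3, Finset.sum_add_distrib, h2]
  have h5 : ∑ u ∈ univ.erase a, (if u ∈ G.neighborFinset a then μ u * (x - μ a) else 0) =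
      ∑ u ∈ G.neighborFinset a, μ u * (x - μ a) := by
    rw [← Finset.sum_filter]
    refine Finset.sum_congr ?_ fun _ _ => rfl
    ext u
    rw [Finset.mem_filter, Finset.mem_erase]
    constructor
    · exact fun h => h.2
    · intro h
      refine ⟨⟨?_, Finset.mem_univ _⟩, h⟩
      rintro rfl
      exact G.loopless.irrefl u ((SimpleGraph.mem_neighborFinset G u u).1 h)
  rw [h5, ← Finset.sum_mul, ← Finset.mul_sum, ← Finset.mul_sum]
  ring

/-- rounding -/
lemma round (μ : V → ℝ) (hμ : ∀ v, |μ v| ≤ 1) :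
    ∃ σ : V → ℝ, (∀ v, σ v = 1 ∨ σ v = -1) ∧ QQ G σ ≤ QQ G μ := by
  have key : ∀ S : Finset V, ∃ σ : V → ℝ, (∀ v ∈ S, σ v = 1 ∨ σ v = -1) ∧ (∀ v, |σ v| ≤ 1) ∧
      QQ G σ ≤ QQ G μ := by
    intro S
    induction S using Finset.induction_on with
    | empty => exact ⟨μ, by simp, hμ, le_rfl⟩
    | insert a S ha ih =>
      obtain ⟨σ, h1, h2, h3⟩ := ih
      have hx : ∃ x : ℝ, (x = 1 ∨ x = -1) ∧ (x - σ a) * ∑ v ∈ G.neighborFinset a, σ v ≤ 0 := by
        have h4 := abs_le.1 (h2 a)
        rcases le_total 0 (∑ v ∈ G.neighborFinset a, σ v) with h | h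
        · exact ⟨-1, Or.inr rfl, mul_nonpos_of_nonpos_of_nonneg (by linarith) h⟩
        · exact ⟨1, Or.inl rfl, mul_nonpos_of_nonneg_of_nonpos (by linarith) h⟩
      obtain ⟨x, hx1, hx2⟩ := hx
      refine ⟨Function.update σ a x, ?_, ?_, ?_⟩
      · intro v hv
        by_cases hva : v = a
        · subst hva
          rw [Function.update_self]; exact hx1
        · rw [Function.update_of_ne hva]
          exact h1 v (Finset.mem_of_mem_insert_of_ne hv hva)
      · intro v
        by_cases hva : v = a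
        · subst hva
          rw [Function.update_self]
          rcases hx1 with rfl | rfl <;> norm_num
        · rw [Function.update_of_ne hva]
          exact h2 v
      · rw [QQ_update]
        linarith
  obtain ⟨σ, h1, -, h3⟩ := key univ
  exact ⟨σ, fun v => h1 v (Finset.mem_univ v), h3⟩

/-- the number of edges of a cut from the quadratic form -/
lemma cut_eq (σ : V → ℝ) (hσ : ∀ v, σ v = 1 ∨ σ v = -1) :
    ((G.interedges (univ.filter (fun v => σ v = 1)) (univ.filter (fun v => σ v = 1))ᶜ).card : ℝ) =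
      (G.edgeFinset.card : ℝ) / 2 - QQ G σ / 4 := by
  set A := univ.filter (fun v => σ v = 1) with hA
  -- ordered pairs
  have h1 : (∑ u, ∑ v ∈ G.neighborFinset u, (1 - σ u * σ v) / 2) =
      (G.edgeFinset.card : ℝ) - QQ G σ / 2 := by
    have h2 : ∀ u, ∑ v ∈ G.neighborFinset u, (1 - σ u * σ v) / 2 =
        (G.degree u : ℝ) / 2 - (∑ v ∈ G.neighborFinset u, σ u * σ v) / 2 := by
      intro u
      rw [← Finset.sum_div, Finset.sum_sub_distrib, Finset.sum_const, nsmul_eq_mul, mul_one,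
        SimpleGraph.card_neighborFinset_eq_degree]
      ring
    rw [Finset.sum_congr rfl fun u _ => h2 u, Finset.sum_sub_distrib, ← Finset.sum_div,
      ← Finset.sum_div]
    have h3 : (∑ u, (G.degree u : ℝ)) = 2 * G.edgeFinset.card := by
      have := G.sum_degrees_eq_twice_card_edges
      exact_mod_cast this
    rw [h3]
    unfold QQ
    ring
  have h4 : ∀ u v : V, (1 - σ u * σ v) / 2 = (if u ∈ A ∧ v ∉ A then (1:ℝ) else 0) +
      (if v ∈ A ∧ u ∉ A then (1:ℝ) else 0) := by
    intro u v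
    have hu : u ∈ A ↔ σ u = 1 := by rw [hA, Finset.mem_filter]; simp
    have hv : v ∈ A ↔ σ v = 1 := by rw [hA, Finset.mem_filter]; simp
    have hne : ¬ ((-1 : ℝ) = 1) := by norm_num
    simp only [hu, hv]
    rcases hσ u with h | h <;> rcases hσ v with h' | h' <;> rw [h, h'] <;> simp [hne]
  clear_value A
  have h5 : (∑ u, ∑ v ∈ G.neighborFinset u, (if u ∈ A ∧ v ∉ A then (1:ℝ) else 0)) =
      ((G.interedges A Aᶜ).card : ℝ) := by
    have : ((G.interedges A Aᶜ).card : ℝ) = ∑ p ∈ (univ : Finset (V × V)),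
        (if G.Adj p.1 p.2 ∧ (p.1 ∈ A ∧ p.2 ∉ A) then (1:ℝ) else 0) := by
      rw [← Finset.sum_filter, Finset.sum_const, nsmul_eq_mul, mul_one]
      congr 2
      ext p
      rw [SimpleGraph.mem_interedges_iff, Finset.mem_filter, Finset.mem_compl]
      simp only [Finset.mem_univ, true_and]
      constructor
      · rintro ⟨h1, h2, h3⟩
        exact ⟨h3, h1, h2⟩
      · rintro ⟨h1, h2, h3⟩
        exact ⟨h2, h3, h1⟩
    rw [this, ← Finset.univ_product_univ, Finset.sum_product]
    refine Finset.sum_congr rfl fun u _ => ?_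
    rw [← Finset.sum_filter, ← Finset.sum_filter]
    refine Finset.sum_congr ?_ fun _ _ => rfl
    ext v
    simp only [Finset.mem_filter, SimpleGraph.mem_neighborFinset, Finset.mem_univ, true_and]
  have h6 : (∑ u, ∑ v ∈ G.neighborFinset u, (if v ∈ A ∧ u ∉ A then (1:ℝ) else 0)) =
      ((G.interedges A Aᶜ).card : ℝ) := by
    rw [← h5]
    have e1 : ∀ f : V → V → ℝ, (∑ u, ∑ v ∈ G.neighborFinset u, f u v) =
        ∑ u, ∑ v, (if G.Adj u v then f u v else 0) := by
      intro f
      refine Finset.sum_congr rfl fun u _ => ?_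
      rw [← Finset.sum_filter]
      refine Finset.sum_congr ?_ fun _ _ => rfl
      ext v
      simp
    rw [e1, e1, Finset.sum_comm]
    refine Finset.sum_congr rfl fun u _ => Finset.sum_congr rfl fun v _ => ?_
    simp only [G.adj_comm v u]
  have h7 : (∑ u, ∑ v ∈ G.neighborFinset u, (1 - σ u * σ v) / 2) =
      2 * ((G.interedges A Aᶜ).card : ℝ) := by
    rw [Finset.sum_congr rfl fun u _ => Finset.sum_congr rfl fun v _ => h4 u v,
      Finset.sum_congr rfl fun u _ => Finset.sum_add_distrib, Finset.sum_add_distrib, h5, h6]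
    ring
  rw [h7] at h1
  linarith

/-- the local lower bound for the maximum cut -/
theorem local_bound (γ : V → ℝ) (h0 : ∀ v, 0 ≤ γ v) (h1 : ∀ v, γ v ≤ 1) :
    ∃ A : Finset V, (G.edgeFinset.card : ℝ) / 2 + (1 / 16) * ∑ v, (10 / 9 * γ v * Real.sqrt (G.degree v) -
      γ v ^ 2 * dd G (G.neighborFinset v) / G.degree v) ≤ ((G.interedges A Aᶜ).card : ℝ) := by
  classical
  set N := fun v => G.neighborFinset v with hN
  -- the random means
  let μ : (V → Bool) → V → ℝ := fun ε v => (sg ε v - γ v * yy (N v) ε) / 2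
  have hμ : ∀ ε v, |μ ε v| ≤ 1 := by
    intro ε v
    have e1 : |sg ε v| = 1 := by
      unfold sg
      split_ifs <;> norm_num
    have e2 : |γ v * yy (N v) ε| ≤ 1 := by
      rw [abs_mul, abs_of_nonneg (h0 v)]
      have := abs_cl (sX (N v) ε / Real.sqrt (N v).card)
      unfold yy
      nlinarith [h0 v, h1 v, abs_nonneg (cl (sX (N v) ε / Real.sqrt (N v).card))]
    change |(sg ε v - γ v * yy (N v) ε) / 2| ≤ 1
    rw [abs_div, abs_two, div_le_one (by norm_num)]
    refine (abs_sub _ _).trans ?_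
    rw [e1]
    linarith
  -- the sum of the quadratic form
  have hcard : ∀ v, ((N v).card : ℝ) = G.degree v := fun v => by
    rw [hN]
    simp only [SimpleGraph.card_neighborFinset_eq_degree]
  have hsum : ∑ ε : V → Bool, QQ G (μ ε) ≤ nn V * (1 / 4 * ∑ v, (γ v ^ 2 * dd G (N v) / G.degree v -
      10 / 9 * γ v * Real.sqrt (G.degree v))) := by
    have e1 : ∑ ε : V → Bool, QQ G (μ ε) = ∑ u, ∑ v ∈ N u, ∑ ε : V → Bool, μ ε u * μ ε v := by
      unfold QQ
      rw [Finset.sum_comm]
      refine Finset.sum_congr rfl fun u _ => ?_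
      rw [Finset.sum_comm]
    have e2 : ∀ u, ∀ v ∈ N u, ∑ ε : V → Bool, μ ε u * μ ε v =
        1 / 4 * (γ u * γ v * ∑ ε : V → Bool, yy (N u) ε * yy (N v) ε) -
        1 / 4 * (γ u * ∑ ε : V → Bool, yy (N u) ε * sg ε v) -
        1 / 4 * (γ v * ∑ ε : V → Bool, yy (N v) ε * sg ε u) := by
      intro u v hv
      have hne : u ≠ v := by
        rintro rfl
        exact G.loopless.irrefl u ((SimpleGraph.mem_neighborFinset G u u).1 hv)
      have e3 : ∀ ε : V → Bool, μ ε u * μ ε v = 1 / 4 * (sg ε u * sg ε v) +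
          1 / 4 * (γ u * γ v * (yy (N u) ε * yy (N v) ε)) - 1 / 4 * (γ u * (yy (N u) ε * sg ε v)) -
          1 / 4 * (γ v * (yy (N v) ε * sg ε u)) := by
        intro ε
        change (sg ε u - γ u * yy (N u) ε) / 2 * ((sg ε v - γ v * yy (N v) ε) / 2) = _
        ring
      rw [Finset.sum_congr rfl fun ε _ => e3 ε, Finset.sum_sub_distrib, Finset.sum_sub_distrib,
        Finset.sum_add_distrib, ← Finset.mul_sum, ← Finset.mul_sum, ← Finset.mul_sum,
        ← Finset.mul_sum, ← Finset.mul_sum, ← Finset.mul_sum, ← Finset.mul_sum, sum_sg_sg hne]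
      ring
    -- linear terms
    have e4 : ∀ u, ∑ v ∈ N u, (γ u * ∑ ε : V → Bool, yy (N u) ε * sg ε v) =
        γ u * ∑ ε : V → Bool, yy (N u) ε * sX (N u) ε := by
      intro u
      rw [← Finset.mul_sum]
      congr 1
      rw [Finset.sum_comm]
      refine Finset.sum_congr rfl fun ε _ => ?_
      rw [← Finset.mul_sum]
      rfl
    have swap : ∀ f : V → V → ℝ, (∑ u, ∑ v ∈ N u, f u v) = ∑ u, ∑ v ∈ N u, f v u := by
      intro f
      have e5 : ∀ g : V → V → ℝ, (∑ u, ∑ v ∈ N u, g u v) =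
          ∑ u, ∑ v, (if G.Adj u v then g u v else 0) := by
        intro g
        refine Finset.sum_congr rfl fun u _ => ?_
        rw [← Finset.sum_filter]
        refine Finset.sum_congr ?_ fun _ _ => rfl
        ext v
        rw [Finset.mem_filter]
        exact ⟨fun h => ⟨Finset.mem_univ _, (SimpleGraph.mem_neighborFinset G u v).1 h⟩,
          fun h => (SimpleGraph.mem_neighborFinset G u v).2 h.2⟩
      rw [e5, e5, Finset.sum_comm]
      refine Finset.sum_congr rfl fun u _ => Finset.sum_congr rfl fun v _ => ?_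
      simp only [G.adj_comm v u]
    have e6 : (∑ u, ∑ v ∈ N u, (γ v * ∑ ε : V → Bool, yy (N v) ε * sg ε u)) =
        ∑ u, γ u * ∑ ε : V → Bool, yy (N u) ε * sX (N u) ε := by
      rw [swap (fun u v => γ v * ∑ ε : V → Bool, yy (N v) ε * sg ε u)]
      exact Finset.sum_congr rfl fun u _ => e4 u
    -- quadratic terms
    have e7 : ∀ u, ∀ v ∈ N u, γ u * γ v * ∑ ε : V → Bool, yy (N u) ε * yy (N v) ε ≤
        (1 / 2 * (γ u ^ 2 / G.degree u * (N u ∩ N v).card) +
          1 / 2 * (γ v ^ 2 / G.degree v * (N v ∩ N u).card)) * nn V := by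
      intro u v hv
      have hadj : G.Adj u v := (SimpleGraph.mem_neighborFinset G u v).1 hv
      have hu : (N u).Nonempty := ⟨v, hv⟩
      have hv' : (N v).Nonempty := ⟨u, (SimpleGraph.mem_neighborFinset G v u).2 hadj.symm⟩
      have hs : (0:ℝ) < (N u).card := by exact_mod_cast Finset.card_pos.2 hu
      have ht : (0:ℝ) < (N v).card := by exact_mod_cast Finset.card_pos.2 hv'
      have h2 := sum_yy_yy (N u) (N v) hu hv'
      have h3 := mul_le_mul_of_nonneg_left h2 (mul_nonneg (h0 u) (h0 v))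
      refine h3.trans ?_
      rw [← mul_assoc]
      refine mul_le_mul_of_nonneg_right ?_ nn_pos.le
      rw [Finset.inter_comm (N v) (N u), ← hcard, ← hcard]
      set c : ℝ := ((N u ∩ N v).card : ℝ) with hc
      have hc0 : 0 ≤ c := Nat.cast_nonneg _
      set a := Real.sqrt (N u).card with ha
      set b := Real.sqrt (N v).card with hb
      have ha0 : 0 < a := Real.sqrt_pos.2 hs
      have hb0 : 0 < b := Real.sqrt_pos.2 ht
      have ha2 : ((N u).card : ℝ) = a * a := (Real.mul_self_sqrt hs.le).symm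
      have hb2 : ((N v).card : ℝ) = b * b := (Real.mul_self_sqrt ht.le).symm
      rw [ha2, hb2]
      have h4 : 1 / 2 * (γ u ^ 2 / (a * a) * c) + 1 / 2 * (γ v ^ 2 / (b * b) * c) -
          γ u * γ v * (c / (a * b)) = c / 2 * (γ u / a - γ v / b) ^ 2 := by
        field_simp
        ring
      have h5 : 0 ≤ c / 2 * (γ u / a - γ v / b) ^ 2 :=
        mul_nonneg (div_nonneg hc0 (by norm_num)) (sq_nonneg _)
      linarith
    have e8 : (∑ u, ∑ v ∈ N u, γ u * γ v * ∑ ε : V → Bool, yy (N u) ε * yy (N v) ε) ≤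
        (∑ u, γ u ^ 2 * dd G (N u) / G.degree u) * nn V := by
      refine (Finset.sum_le_sum fun u _ => Finset.sum_le_sum fun v hv => e7 u v hv).trans ?_
      rw [Finset.sum_congr rfl fun u _ => (Finset.sum_mul _ _ _).symm, ← Finset.sum_mul]
      refine mul_le_mul_of_nonneg_right (le_of_eq ?_) nn_pos.le
      rw [Finset.sum_congr rfl fun u _ => Finset.sum_add_distrib, Finset.sum_add_distrib,
        swap (fun u v => 1 / 2 * (γ v ^ 2 / G.degree v * (N v ∩ N u).card)), ← Finset.sum_add_distrib]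
      refine Finset.sum_congr rfl fun u _ => ?_
      rw [← Finset.sum_add_distrib]
      have h2 : (dd G (N u) : ℝ) = ∑ v ∈ N u, ((N u ∩ N v).card : ℝ) := by
        unfold dd dg
        push_cast
        refine Finset.sum_congr rfl fun v _ => ?_
        rw [Finset.inter_comm]
      rw [h2, Finset.mul_sum, Finset.sum_div]
      refine Finset.sum_congr rfl fun v _ => ?_
      ring
    rw [e1, Finset.sum_congr rfl fun u _ => Finset.sum_congr rfl fun v hv => e2 u v hv]
    have e9 : (∑ u, ∑ v ∈ N u, (1 / 4 * (γ u * γ v * ∑ ε : V → Bool, yy (N u) ε * yy (N v) ε) -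
        1 / 4 * (γ u * ∑ ε : V → Bool, yy (N u) ε * sg ε v) -
        1 / 4 * (γ v * ∑ ε : V → Bool, yy (N v) ε * sg ε u))) =
        1 / 4 * (∑ u, ∑ v ∈ N u, γ u * γ v * ∑ ε : V → Bool, yy (N u) ε * yy (N v) ε) -
        1 / 2 * ∑ u, γ u * ∑ ε : V → Bool, yy (N u) ε * sX (N u) ε := by
      rw [Finset.sum_congr rfl fun u _ => Finset.sum_sub_distrib _ _,
        Finset.sum_congr rfl fun u _ => by rw [Finset.sum_sub_distrib],
        Finset.sum_sub_distrib, Finset.sum_sub_distrib]
      rw [Finset.sum_congr rfl fun u _ => (Finset.mul_sum _ _ _).symm, ← Finset.mul_sum,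
        Finset.sum_congr rfl fun u _ => (Finset.mul_sum (N u) (fun v => γ u * ∑ ε : V → Bool, yy (N u) ε * sg ε v) (1 / 4)).symm, ← Finset.mul_sum,
        Finset.sum_congr rfl fun u _ => (Finset.mul_sum (N u) (fun v => γ v * ∑ ε : V → Bool, yy (N v) ε * sg ε u) (1 / 4)).symm, ← Finset.mul_sum, e6,
        Finset.sum_congr rfl fun u _ => e4 u]
      ring
    rw [e9]
    have e10 : 5 / 9 * nn V * ∑ u, γ u * Real.sqrt (G.degree u) ≤
        ∑ u, γ u * ∑ ε : V → Bool, yy (N u) ε * sX (N u) ε := by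
      rw [Finset.mul_sum]
      refine Finset.sum_le_sum fun u _ => ?_
      have h2 := sum_yy_mul (N u)
      rw [hcard] at h2
      have h3 := mul_le_mul_of_nonneg_left h2 (h0 u)
      linarith
    have e11 : nn V * (1 / 4 * ∑ v, (γ v ^ 2 * dd G (N v) / G.degree v -
      10 / 9 * γ v * Real.sqrt (G.degree v))) = 1 / 4 * ((∑ u, γ u ^ 2 * dd G (N u) / G.degree u) * nn V) -
      1 / 2 * (5 / 9 * nn V * ∑ u, γ u * Real.sqrt (G.degree u)) := by
      rw [Finset.sum_sub_distrib]
      have : ∑ v, 10 / 9 * γ v * Real.sqrt (G.degree v) = 10 / 9 * ∑ v, γ v * Real.sqrt (G.degree v) := by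
        rw [Finset.mul_sum]
        exact Finset.sum_congr rfl fun v _ => by ring
      rw [this]
      ring
    rw [e11]
    linarith
  -- one good sign vector
  have hex : ∃ ε : V → Bool, QQ G (μ ε) ≤ 1 / 4 * ∑ v, (γ v ^ 2 * dd G (N v) / G.degree v -
      10 / 9 * γ v * Real.sqrt (G.degree v)) := by
    by_contra hcon
    push Not at hcon
    have h2 : ∑ ε : V → Bool, (1 / 4 * ∑ v, (γ v ^ 2 * dd G (N v) / G.degree v -
      10 / 9 * γ v * Real.sqrt (G.degree v))) < ∑ ε : V → Bool, QQ G (μ ε) :=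
      Finset.sum_lt_sum_of_nonempty ⟨fun _ => true, Finset.mem_univ _⟩ fun ε _ => hcon ε
    have h3 : ∑ ε : V → Bool, (1 / 4 * ∑ v, (γ v ^ 2 * dd G (N v) / G.degree v -
      10 / 9 * γ v * Real.sqrt (G.degree v))) = nn V * (1 / 4 * ∑ v, (γ v ^ 2 * dd G (N v) / G.degree v -
      10 / 9 * γ v * Real.sqrt (G.degree v))) := by
      unfold nn
      rw [Finset.sum_mul]
      exact Finset.sum_congr rfl fun _ _ => (one_mul _).symm
    rw [h3] at h2
    linarith
  obtain ⟨ε, hε⟩ := hex
  obtain ⟨σ, hσ1, hσ2⟩ := round G (μ ε) (hμ ε)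
  refine ⟨univ.filter (fun v => σ v = 1), ?_⟩
  rw [cut_eq G σ hσ1]
  have h2 : ∑ v, (10 / 9 * γ v * Real.sqrt (G.degree v) - γ v ^ 2 * dd G (N v) / G.degree v) =
      - ∑ v, (γ v ^ 2 * dd G (N v) / G.degree v - 10 / 9 * γ v * Real.sqrt (G.degree v)) := by
    rw [← Finset.sum_neg_distrib]
    exact Finset.sum_congr rfl fun v _ => by ring
  rw [h2]
  linarith

end cut

end Pool.Agent.Work.FewC
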