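import Pool.Agent.Work.MP_4a0cc5_co.Defs

set_option autoImplicit false

/-!
MP_4a0cc5_co, module (e): supersaturation for even cycles, by traces of powers of the normalised
adjacency matrix.
-/

namespace Pool.Agent.Work.FewC

open Finset Matrix

section walks

variable {V : Type*} [Fintype V] [DecidableEq V]

/-- product of `A 0, ..., A n` -/
def mp {V : Type*} [Fintype V] : (ℕ → Matrix V V ℝ) → ℕ → Matrix V V ℝ
  | A, 0 => A 0
  | A, n + 1 => A 0 * mp (fun i => A (i + 1)) n

omit [DecidableEq V] in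
theorem path_sum (n : ℕ) : ∀ (A : ℕ → Matrix V V ℝ) (u v : V),
    ∑ x : Fin n → V, ∏ i : Fin (n + 1), A i ((Fin.cons u x : Fin (n + 1) → V) i)
      ((Fin.snoc x v : Fin (n + 1) → V) i) = mp A n u v := by
  induction n with
  | zero =>
    intro A u v
    simp [mp, Fin.snoc]
  | succ n ih =>
    intro A u v
    rw [← (Fin.consEquiv fun _ : Fin (n + 1) => V).sum_comp, Fintype.sum_prod_type]
    rw [mp, Matrix.mul_apply]
    refine Finset.sum_congr rfl fun a _ => ?_
    rw [← ih (fun i => A (i + 1)) a v, Finset.mul_sum]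
    refine Finset.sum_congr rfl fun x _ => ?_
    rw [Fin.prod_univ_succ]
    have e : (Fin.snoc (Fin.cons a x : Fin (n + 1) → V) v : Fin (n + 2) → V) =
        Fin.cons a (Fin.snoc x v : Fin (n + 1) → V) := (Fin.cons_snoc_eq_snoc_cons a x v).symm
    change A 0 u ((Fin.snoc (Fin.cons a x : Fin (n + 1) → V) v : Fin (n + 2) → V) 0) *
      ∏ i : Fin (n + 1), A (i.succ : Fin (n + 2))
        ((Fin.cons u (Fin.cons a x : Fin (n + 1) → V) : Fin (n + 2) → V) i.succ)
        ((Fin.snoc (Fin.cons a x : Fin (n + 1) → V) v : Fin (n + 2) → V) i.succ) = _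
    rw [e]
    simp only [Fin.cons_zero, Fin.cons_succ, Fin.val_succ]

omit [DecidableEq V] in
theorem closed_sum (n : ℕ) (A : ℕ → Matrix V V ℝ) :
    ∑ f : Fin (n + 1) → V, ∏ i : Fin (n + 1), A i (f i) (f (finRotate (n + 1) i)) =
      (mp A n).trace := by
  rw [← (Fin.consEquiv fun _ : Fin (n + 1) => V).sum_comp, Fintype.sum_prod_type, Matrix.trace]
  refine Finset.sum_congr rfl fun u _ => ?_
  rw [Matrix.diag_apply, ← path_sum]
  refine Finset.sum_congr rfl fun x _ => Finset.prod_congr rfl fun i _ => ?_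
  have e := congrFun (Fin.snoc_eq_cons_rotate x u) i
  rw [e]
  rfl

theorem mp_const (M : Matrix V V ℝ) (n : ℕ) : mp (fun _ => M) n = M ^ (n + 1) := by
  induction n with
  | zero => simp [mp]
  | succ n ih => rw [mp, ih, pow_succ' M (n + 1)]

theorem mp_mark (M N : Matrix V V ℝ) (l : ℕ) : ∀ n, l ≤ n →
    mp (fun p => if p = l then N else M) n = M ^ l * N * M ^ (n - l) := by
  induction l with
  | zero =>
    intro n _
    cases n with
    | zero => simp [mp]
    | succ n =>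
      rw [mp]
      have e : (fun i => if i + 1 = 0 then N else M) = fun _ => M := by
        funext i
        rw [if_neg (by omega)]
      rw [e, mp_const]
      simp
  | succ l ih =>
    intro n hn
    cases n with
    | zero => omega
    | succ n =>
      rw [mp]
      have e : (fun i => if i + 1 = l + 1 then N else M) = fun i => if i = l then N else M := by
        funext i
        simp
      rw [e, ih n (by omega), if_neg (by omega), pow_succ' M l, show n + 1 - (l + 1) = n - l by omega]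
      simp only [Matrix.mul_assoc]

/-- keep only the row `a` -/
def row (a : V) (M : Matrix V V ℝ) : Matrix V V ℝ := fun x y => if x = a then M x y else 0

theorem row_mul (a : V) (M N : Matrix V V ℝ) : row a M * N = row a (M * N) := by
  ext x y
  simp only [row, Matrix.mul_apply]
  split_ifs with h
  · rfl
  · simp

theorem mp_two (M : Matrix V V ℝ) (a : V) (l n : ℕ) (hl : 1 ≤ l) (hn : l ≤ n) :
    (mp (fun p => if p = 0 ∨ p = l then row a M else M) n).trace =
      (M ^ l) a a * (M ^ (n + 1 - l)) a a := by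
  obtain ⟨l, rfl⟩ : ∃ l', l = l' + 1 := ⟨l - 1, by omega⟩
  obtain ⟨n, rfl⟩ : ∃ n', n = n' + 1 := ⟨n - 1, by omega⟩
  rw [mp]
  have e : (fun i => if i + 1 = 0 ∨ i + 1 = l + 1 then row a M else M) =
      fun i => if i = l then row a M else M := by
    funext i
    simp
  rw [e, mp_mark _ _ l n (by omega), if_pos (Or.inl rfl)]
  have e1 : row a M * (M ^ l * row a M * M ^ (n - l)) =
      row a (M ^ (l + 1)) * row a (M ^ (n + 1 - l)) := by
    rw [show n + 1 - l = (n - l) + 1 by omega, pow_succ' M l, pow_succ' M (n - l), ← row_mul,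
      ← row_mul]
    simp only [Matrix.mul_assoc]
  rw [e1, show n + 1 + 1 - (l + 1) = n + 1 - l by omega, Matrix.trace]
  simp only [Matrix.diag_apply, Matrix.mul_apply, row]
  rw [Finset.sum_eq_single a]
  · rw [Finset.sum_eq_single a]
    · simp
    · intro b _ hb
      simp [hb]
    · simp
  · intro b _ hb
    simp [hb]
  · simp

/-- weight of a closed walk -/
def cw (M : Matrix V V ℝ) {m : ℕ} (f : Fin m → V) : ℝ := ∏ i, M (f i) (f (finRotate m i))

theorem sum_cw (M : Matrix V V ℝ) (n : ℕ) : ∑ f : Fin (n + 1) → V, cw M f = (M ^ (n + 1)).trace := by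
  rw [← mp_const, ← closed_sum]
  rfl

theorem sum_cw_zero (M : Matrix V V ℝ) (n : ℕ) (l : Fin (n + 1)) (hl : l ≠ 0) :
    ∑ f : Fin (n + 1) → V, (if f 0 = f l then cw M f else 0) =
      ∑ a, (M ^ (l : ℕ)) a a * (M ^ (n + 1 - l)) a a := by
  have hl1 : 1 ≤ (l : ℕ) := by
    rcases Nat.eq_zero_or_pos (l : ℕ) with h | h
    · exact absurd (Fin.ext h) hl
    · exact h
  have key : ∀ a : V, ∑ f : Fin (n + 1) → V, (if f 0 = a ∧ f l = a then cw M f else 0) =
      (M ^ (l : ℕ)) a a * (M ^ (n + 1 - l)) a a := by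
    intro a
    rw [← mp_two M a l n hl1 (by omega), ← closed_sum]
    refine Finset.sum_congr rfl fun f _ => ?_
    split_ifs with h
    · unfold cw
      refine Finset.prod_congr rfl fun i _ => ?_
      split_ifs with h1
      · have h2 : f i = a := by
          rcases h1 with h1 | h1
          · rw [show i = 0 from Fin.ext h1]; exact h.1
          · rw [show i = l from Fin.ext h1]; exact h.2
        simp [row, h2]
      · rfl
    · symm
      by_cases h0 : f 0 = a
      · have h1 : f l ≠ a := fun h1 => h ⟨h0, h1⟩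
        refine Finset.prod_eq_zero (Finset.mem_univ l) ?_
        simp [row, h1]
      · refine Finset.prod_eq_zero (Finset.mem_univ 0) ?_
        simp [row, h0]
  rw [← Finset.sum_congr rfl fun a _ => key a, Finset.sum_comm]
  refine Finset.sum_congr rfl fun f _ => ?_
  split_ifs with h
  · rw [Finset.sum_eq_single (f 0)]
    · simp [h]
    · intro b _ hb
      rw [if_neg]
      rintro ⟨h1, -⟩
      exact hb h1.symm
    · simp
  · symm
    refine Finset.sum_eq_zero fun b _ => ?_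
    rw [if_neg]
    rintro ⟨h1, h2⟩
    exact h (h1.trans h2.symm)

theorem sum_cw_pair (M : Matrix V V ℝ) (n : ℕ) (i l : Fin (n + 1)) :
    ∑ f : Fin (n + 1) → V, (if f i = f (l + i) then cw M f else 0) =
      ∑ f : Fin (n + 1) → V, (if f 0 = f l then cw M f else 0) := by
  let e : (Fin (n + 1) → V) ≃ (Fin (n + 1) → V) := (Equiv.addRight i).arrowCongr (Equiv.refl V)
  rw [← e.sum_comp]
  refine Finset.sum_congr rfl fun f => fun _ => ?_
  have he : ∀ p, e f (p + i) = f p := by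
    intro p
    simp [e, Equiv.arrowCongr]
  have h0 : e f i = f 0 := by
    have := he 0
    rwa [zero_add] at this
  have hw : cw M (e f) = cw M f := by
    unfold cw
    rw [← Equiv.prod_comp (Equiv.addRight i) (fun q => M (e f q) (e f (finRotate (n + 1) q)))]
    refine Finset.prod_congr rfl fun p _ => ?_
    have h1 : finRotate (n + 1) ((Equiv.addRight i) p) = finRotate (n + 1) p + i := by
      rw [finRotate_apply, finRotate_apply, Equiv.coe_addRight]
      exact add_right_comm _ _ _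
    change M (e f ((Equiv.addRight i) p)) (e f (finRotate (n + 1) ((Equiv.addRight i) p))) = _
    rw [h1, Equiv.coe_addRight, he, he]
  rw [h0, he, hw]

end walks

section spectral

variable {V : Type*} [Fintype V] [DecidableEq V]

theorem spec (M : Matrix V V ℝ) (hM : M.IsSymm) : ∃ (U : V → V → ℝ) (lam : V → ℝ),
    ∀ (n : ℕ) (a : V), (M ^ n) a a = ∑ s, U a s ^ 2 * lam s ^ n := by
  have hH : M.IsHermitian := by
    rw [Matrix.IsHermitian, Matrix.conjTranspose_eq_transpose_of_trivial]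
    exact hM
  refine ⟨fun a s => (hH.eigenvectorUnitary : Matrix V V ℝ) a s, hH.eigenvalues, fun n a => ?_⟩
  have h1 : M ^ n = (hH.eigenvectorUnitary : Matrix V V ℝ) * diagonal (fun s => hH.eigenvalues s ^ n) *
      star (hH.eigenvectorUnitary : Matrix V V ℝ) := by
    conv_lhs => rw [hH.spectral_theorem]
    rw [← map_pow, Matrix.diagonal_pow]
    rw [Unitary.conjStarAlgAut_apply]
    rfl
  rw [h1, Matrix.mul_apply]
  refine Finset.sum_congr rfl fun s _ => ?_
  rw [Matrix.mul_diagonal, Matrix.star_apply, star_trivial]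
  ring

/-- symmetrised AM-GM -/
theorem muirhead {x y : ℝ} (hx : 0 ≤ x) (hy : 0 ≤ y) {k l : ℕ} (hl : 2 ≤ l) (hl' : l + 2 ≤ 2 * k) :
    x ^ l * y ^ (2 * k - l) + x ^ (2 * k - l) * y ^ l ≤
      x ^ 2 * y ^ (2 * k - 2) + x ^ (2 * k - 2) * y ^ 2 := by
  obtain ⟨p, rfl⟩ : ∃ p, l = p + 2 := ⟨l - 2, by omega⟩
  obtain ⟨q, hq⟩ : ∃ q, 2 * k - (p + 2) = q + 2 := ⟨2 * k - (p + 2) - 2, by omega⟩
  have hk : 2 * k - 2 = p + q + 2 := by omega
  rw [hq, hk]
  have h : 0 ≤ (x ^ p - y ^ p) * (x ^ q - y ^ q) := by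
    rcases le_total x y with h | h
    · exact mul_nonneg_of_nonpos_of_nonpos (sub_nonpos.2 (pow_le_pow_left₀ hx h p))
        (sub_nonpos.2 (pow_le_pow_left₀ hx h q))
    · exact mul_nonneg (sub_nonneg.2 (pow_le_pow_left₀ hy h p))
        (sub_nonneg.2 (pow_le_pow_left₀ hy h q))
  have h2 : 0 ≤ x ^ 2 * y ^ 2 * ((x ^ p - y ^ p) * (x ^ q - y ^ q)) := by positivity
  have e : x ^ 2 * y ^ (p + q + 2) + x ^ (p + q + 2) * y ^ 2 -
      (x ^ (p + 2) * y ^ (q + 2) + x ^ (q + 2) * y ^ (p + 2)) =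
      x ^ 2 * y ^ 2 * ((x ^ p - y ^ p) * (x ^ q - y ^ q)) := by ring
  linarith

/-- interpolation between the second and the `2k`-th power -/
theorem interp (x y : ℝ) (hy : 0 < y) {k : ℕ} (hk : 2 ≤ k) :
    x ^ (2 * k - 2) ≤ y * x ^ (2 * k) + (y⁻¹) ^ (k - 2) * x ^ 2 := by
  obtain ⟨p, rfl⟩ : ∃ p, k = p + 2 := ⟨k - 2, by omega⟩
  have hs : 0 ≤ x ^ 2 := sq_nonneg x
  set s := x ^ 2 with hsdef
  have e1 : x ^ (2 * (p + 2) - 2) = s ^ (p + 1) := by
    rw [hsdef, ← pow_mul]; congr 1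
  have e2 : x ^ (2 * (p + 2)) = s ^ (p + 2) := by
    rw [hsdef, ← pow_mul]
  rw [e1, e2, show p + 2 - 2 = p by omega]
  rcases le_total 1 (y * s) with h | h
  · have h1 : s ^ (p + 1) ≤ y * s ^ (p + 2) := by
      have : s ^ (p + 1) * 1 ≤ s ^ (p + 1) * (y * s) :=
        mul_le_mul_of_nonneg_left h (by positivity)
      calc s ^ (p + 1) = s ^ (p + 1) * 1 := by ring
        _ ≤ s ^ (p + 1) * (y * s) := this
        _ = y * s ^ (p + 2) := by ring
    have h2 : 0 ≤ y⁻¹ ^ p * s := by positivity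
    linarith
  · have h3 : s ≤ y⁻¹ := by
      rw [← one_div, le_div_iff₀ hy, mul_comm]
      exact h
    have h4 : s ^ p ≤ y⁻¹ ^ p := pow_le_pow_left₀ hs h3 p
    have h5 : s ^ (p + 1) ≤ y⁻¹ ^ p * s := by
      rw [pow_succ]
      exact mul_le_mul_of_nonneg_right h4 hs
    have h6 : 0 ≤ y * s ^ (p + 2) := by positivity
    linarith

theorem diag_bound (M : Matrix V V ℝ) (hM : M.IsSymm) (h0 : ∀ a, M a a = 0) {k : ℕ} (hk : 2 ≤ k)
    {l : ℕ} (hl : 1 ≤ l) (hl' : l + 1 ≤ 2 * k) (a : V) :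
    (M ^ l) a a * (M ^ (2 * k - l)) a a ≤ (M ^ 2) a a * (M ^ (2 * k - 2)) a a := by
  obtain ⟨U, lam, hs⟩ := spec M hM
  have hpos : ∀ n, 0 ≤ (M ^ (2 * n)) a a := by
    intro n
    rw [hs]
    refine Finset.sum_nonneg fun s _ => mul_nonneg (sq_nonneg _) ?_
    rw [pow_mul]
    positivity
  have hB : 0 ≤ (M ^ 2) a a * (M ^ (2 * k - 2)) a a := by
    have h1 := hpos 1
    have h2 := hpos (k - 1)
    rw [show 2 * (k - 1) = 2 * k - 2 by omega] at h2
    exact mul_nonneg h1 h2
  rcases Nat.lt_or_ge l 2 with h | h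
  · have : l = 1 := by omega
    subst this
    rw [pow_one, h0, zero_mul]
    exact hB
  rcases Nat.lt_or_ge (2 * k) (l + 2) with h' | h'
  · have : 2 * k - l = 1 := by omega
    rw [this, pow_one, h0, mul_zero]
    exact hB
  have ev : ∀ x : ℝ, |x| ^ (2 * k - 2) = x ^ (2 * k - 2) := by
    intro x
    have : Even (2 * k - 2) := ⟨k - 1, by omega⟩
    exact this.pow_abs x
  have ev2 : ∀ x : ℝ, |x| ^ 2 = x ^ 2 := fun x => sq_abs x
  have hT : (M ^ l) a a * (M ^ (2 * k - l)) a a ≤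
      ∑ s, ∑ t, U a s ^ 2 * U a t ^ 2 * (|lam s| ^ l * |lam t| ^ (2 * k - l)) := by
    rw [hs, hs, Finset.sum_mul_sum]
    refine Finset.sum_le_sum fun s _ => Finset.sum_le_sum fun t _ => ?_
    have h1 : lam s ^ l * lam t ^ (2 * k - l) ≤ |lam s| ^ l * |lam t| ^ (2 * k - l) := by
      rw [← abs_pow, ← abs_pow, ← abs_mul]
      exact le_abs_self _
    calc U a s ^ 2 * lam s ^ l * (U a t ^ 2 * lam t ^ (2 * k - l)) =
        U a s ^ 2 * U a t ^ 2 * (lam s ^ l * lam t ^ (2 * k - l)) := by ring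
      _ ≤ _ := mul_le_mul_of_nonneg_left h1 (by positivity)
  have hT' : ∑ s, ∑ t, U a s ^ 2 * U a t ^ 2 * (|lam s| ^ l * |lam t| ^ (2 * k - l)) =
      ∑ s, ∑ t, U a s ^ 2 * U a t ^ 2 * (|lam s| ^ (2 * k - l) * |lam t| ^ l) := by
    rw [Finset.sum_comm]
    refine Finset.sum_congr rfl fun s _ => Finset.sum_congr rfl fun t _ => ?_
    ring
  have hE : ∑ s, ∑ t, U a s ^ 2 * U a t ^ 2 * (|lam s| ^ 2 * |lam t| ^ (2 * k - 2)) =
      (M ^ 2) a a * (M ^ (2 * k - 2)) a a := by
    rw [hs, hs, Finset.sum_mul_sum]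
    refine Finset.sum_congr rfl fun s _ => Finset.sum_congr rfl fun t _ => ?_
    rw [ev, ev2]
    ring
  have hE' : ∑ s, ∑ t, U a s ^ 2 * U a t ^ 2 * (|lam s| ^ (2 * k - 2) * |lam t| ^ 2) =
      (M ^ 2) a a * (M ^ (2 * k - 2)) a a := by
    rw [← hE, Finset.sum_comm]
    refine Finset.sum_congr rfl fun s _ => Finset.sum_congr rfl fun t _ => ?_
    ring
  have hM2 : ∑ s, ∑ t, U a s ^ 2 * U a t ^ 2 * (|lam s| ^ l * |lam t| ^ (2 * k - l)) +
      ∑ s, ∑ t, U a s ^ 2 * U a t ^ 2 * (|lam s| ^ (2 * k - l) * |lam t| ^ l) ≤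
      ∑ s, ∑ t, U a s ^ 2 * U a t ^ 2 * (|lam s| ^ 2 * |lam t| ^ (2 * k - 2)) +
      ∑ s, ∑ t, U a s ^ 2 * U a t ^ 2 * (|lam s| ^ (2 * k - 2) * |lam t| ^ 2) := by
    rw [← Finset.sum_add_distrib, ← Finset.sum_add_distrib]
    refine Finset.sum_le_sum fun s _ => ?_
    rw [← Finset.sum_add_distrib, ← Finset.sum_add_distrib]
    refine Finset.sum_le_sum fun t _ => ?_
    rw [← mul_add, ← mul_add]
    exact mul_le_mul_of_nonneg_left (muirhead (abs_nonneg _) (abs_nonneg _) h h') (by positivity)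
  rw [← hT', hE, hE'] at hM2
  linarith

theorem diag_interp (M : Matrix V V ℝ) (hM : M.IsSymm) {k : ℕ} (hk : 2 ≤ k) (y : ℝ) (hy : 0 < y)
    (a : V) : (M ^ (2 * k - 2)) a a ≤ y * (M ^ (2 * k)) a a + (y⁻¹) ^ (k - 2) * (M ^ 2) a a := by
  obtain ⟨U, lam, hs⟩ := spec M hM
  rw [hs, hs, hs, Finset.mul_sum, Finset.mul_sum, ← Finset.sum_add_distrib]
  refine Finset.sum_le_sum fun s _ => ?_
  calc U a s ^ 2 * lam s ^ (2 * k - 2) ≤
      U a s ^ 2 * (y * lam s ^ (2 * k) + (y⁻¹) ^ (k - 2) * lam s ^ 2) :=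
        mul_le_mul_of_nonneg_left (interp _ _ hy hk) (sq_nonneg _)
    _ = _ := by ring

theorem diag_pos (M : Matrix V V ℝ) (hM : M.IsSymm) (n : ℕ) (a : V) : 0 ≤ (M ^ (2 * n)) a a := by
  obtain ⟨U, lam, hs⟩ := spec M hM
  rw [hs]
  refine Finset.sum_nonneg fun s _ => mul_nonneg (sq_nonneg _) ?_
  rw [pow_mul]
  positivity

end spectral

section main

variable {V : Type*} [Fintype V] [DecidableEq V]

/-- normalised adjacency matrix of `G[X]` -/
noncomputable def nm (G : SimpleGraph V) [DecidableRel G.Adj] (X : Finset V) : Matrix V V ℝ :=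
  fun u v => if u ∈ X ∧ v ∈ X ∧ G.Adj u v then (Real.sqrt (dg G X u * dg G X v))⁻¹ else 0

variable (G : SimpleGraph V) [DecidableRel G.Adj] (X : Finset V)

theorem nm_symm : (nm G X).IsSymm := by
  ext u v
  simp only [Matrix.transpose_apply, nm]
  by_cases h : u ∈ X ∧ v ∈ X ∧ G.Adj u v
  · rw [if_pos h, if_pos ⟨h.2.1, h.1, h.2.2.symm⟩, mul_comm]
  · rw [if_neg h, if_neg fun h' => h ⟨h'.2.1, h'.1, h'.2.2.symm⟩]

theorem nm_nonneg (u v : V) : 0 ≤ nm G X u v := by
  unfold nm
  split_ifs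
  · positivity
  · exact le_rfl

theorem nm_diag (a : V) : nm G X a a = 0 := by
  unfold nm
  rw [if_neg]
  rintro ⟨-, -, h⟩
  exact G.loopless.irrefl a h

theorem nm_le {D : ℝ} (hD : 0 < D) (hdeg : ∀ v ∈ X, D ≤ (dg G X v : ℝ)) (u v : V) :
    nm G X u v ≤ D⁻¹ := by
  unfold nm
  split_ifs with h
  · refine inv_anti₀ hD ?_
    rw [show D = Real.sqrt (D * D) from (Real.sqrt_mul_self hD.le).symm]
    exact Real.sqrt_le_sqrt (mul_le_mul (hdeg u h.1) (hdeg v h.2.1) hD.le (by positivity))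
  · positivity

theorem nm_sq (a : V) : ((nm G X) ^ 2) a a =
    ∑ v, if a ∈ X ∧ v ∈ X ∧ G.Adj a v then ((dg G X a : ℝ) * dg G X v)⁻¹ else 0 := by
  rw [pow_two, Matrix.mul_apply]
  refine Finset.sum_congr rfl fun v _ => ?_
  have e : nm G X v a = nm G X a v := congrFun (congrFun (nm_symm G X) a) v
  rw [e]
  unfold nm
  split_ifs
  · rw [← mul_inv, Real.mul_self_sqrt (by positivity)]
  · rw [mul_zero]

theorem nm_sq_le {D : ℝ} (hD : 0 < D) (hdeg : ∀ v ∈ X, D ≤ (dg G X v : ℝ)) (a : V) :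
    ((nm G X) ^ 2) a a ≤ if a ∈ X then D⁻¹ else 0 := by
  rw [nm_sq]
  split_ifs with ha
  · have hda : 0 < (dg G X a : ℝ) := hD.trans_le (hdeg a ha)
    calc (∑ v, if a ∈ X ∧ v ∈ X ∧ G.Adj a v then ((dg G X a : ℝ) * dg G X v)⁻¹ else 0) ≤
        ∑ v, if v ∈ G.neighborFinset a ∩ X then (dg G X a : ℝ)⁻¹ * D⁻¹ else 0 := by
          refine Finset.sum_le_sum fun v _ => ?_
          by_cases h : v ∈ X ∧ G.Adj a v
          · rw [if_pos ⟨ha, h⟩, if_pos (by simp [h.1, h.2]), mul_inv]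
            exact mul_le_mul_of_nonneg_left (inv_anti₀ hD (hdeg v h.1)) (by positivity)
          · rw [if_neg (fun h' => h h'.2), if_neg]
            intro h'
            simp only [Finset.mem_inter, SimpleGraph.mem_neighborFinset] at h'
            exact h ⟨h'.2, h'.1⟩
      _ = (dg G X a : ℝ) * ((dg G X a : ℝ)⁻¹ * D⁻¹) := by
          rw [Finset.sum_ite_mem, Finset.univ_inter, Finset.sum_const, nsmul_eq_mul]
          rfl
      _ = D⁻¹ := by
          rw [← mul_assoc, mul_inv_cancel₀ hda.ne', one_mul]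
  · refine le_of_eq (Finset.sum_eq_zero fun v _ => ?_)
    rw [if_neg fun h => ha h.1]

theorem nm_trace_sq {D : ℝ} (hD : 0 < D) (hdeg : ∀ v ∈ X, D ≤ (dg G X v : ℝ)) :
    ∑ a, ((nm G X) ^ 2) a a ≤ (X.card : ℝ) * D⁻¹ := by
  calc ∑ a, ((nm G X) ^ 2) a a ≤ ∑ a, (if a ∈ X then D⁻¹ else 0) :=
        Finset.sum_le_sum fun a _ => nm_sq_le G X hD hdeg a
    _ = _ := by rw [Finset.sum_ite_mem, Finset.univ_inter, Finset.sum_const, nsmul_eq_mul]

theorem nm_trace_one {D : ℝ} (hD : 0 < D) (hX : X.Nonempty)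
    (hdeg : ∀ v ∈ X, D ≤ (dg G X v : ℝ)) (k : ℕ) : 1 ≤ ((nm G X) ^ (2 * k)).trace := by
  set w : V → ℝ := fun u => if u ∈ X then Real.sqrt (dg G X u) else 0 with hw
  have h1 : (nm G X) *ᵥ w = w := by
    funext u
    rw [Matrix.mulVec, dotProduct]
    by_cases hu : u ∈ X
    · have hdu : 0 < (dg G X u : ℝ) := hD.trans_le (hdeg u hu)
      calc ∑ v, nm G X u v * w v = ∑ v, if v ∈ G.neighborFinset u ∩ X then
          (Real.sqrt (dg G X u))⁻¹ else 0 := by
            refine Finset.sum_congr rfl fun v _ => ?_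
            by_cases h : v ∈ X ∧ G.Adj u v
            · have hdv : 0 < (dg G X v : ℝ) := hD.trans_le (hdeg v h.1)
              have hsv : Real.sqrt (dg G X v) ≠ 0 := (Real.sqrt_pos.2 hdv).ne'
              rw [if_pos (by simp [h.1, h.2])]
              simp only [nm, hw]
              rw [if_pos ⟨hu, h⟩, if_pos h.1, Real.sqrt_mul hdu.le, mul_inv, mul_assoc,
                inv_mul_cancel₀ hsv, mul_one]
            · rw [if_neg]
              · simp only [nm]
                rw [if_neg fun h' => h h'.2, zero_mul]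
              · intro h'
                simp only [Finset.mem_inter, SimpleGraph.mem_neighborFinset] at h'
                exact h ⟨h'.2, h'.1⟩
        _ = (dg G X u : ℝ) * (Real.sqrt (dg G X u))⁻¹ := by
            rw [Finset.sum_ite_mem, Finset.univ_inter, Finset.sum_const, nsmul_eq_mul]
            rfl
        _ = w u := by
            simp only [hw]
            rw [if_pos hu, ← div_eq_mul_inv, Real.div_sqrt]
    · simp only [nm, hw]
      rw [if_neg hu]
      refine Finset.sum_eq_zero fun v _ => ?_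
      rw [if_neg fun h => hu h.1, zero_mul]
  have h2 : ∀ n, ((nm G X) ^ n) *ᵥ w = w := by
    intro n
    induction n with
    | zero => simp
    | succ n ih => rw [pow_succ, ← Matrix.mulVec_mulVec, h1, ih]
  have hpos : 0 < ∑ u, w u ^ 2 := by
    obtain ⟨x, hx⟩ := hX
    refine Finset.sum_pos' (fun u _ => sq_nonneg _) ⟨x, Finset.mem_univ x, ?_⟩
    simp only [hw]
    rw [if_pos hx]
    have := hD.trans_le (hdeg x hx)
    positivity
  have h3 : ∑ u, w u ^ 2 ≤ (∑ u, ∑ v, ((nm G X) ^ k) u v ^ 2) * ∑ u, w u ^ 2 := by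
    rw [Finset.sum_mul]
    refine Finset.sum_le_sum fun u _ => ?_
    have h4 : w u = ∑ v, ((nm G X) ^ k) u v * w v := by
      conv_lhs => rw [← h2 k]
      rfl
    rw [h4]
    exact Finset.sum_mul_sq_le_sq_mul_sq _ _ _
  have h5 : (∑ u, ∑ v, ((nm G X) ^ k) u v ^ 2) = ((nm G X) ^ (2 * k)).trace := by
    rw [two_mul, pow_add, Matrix.trace]
    refine Finset.sum_congr rfl fun u _ => ?_
    rw [Matrix.diag_apply, Matrix.mul_apply]
    refine Finset.sum_congr rfl fun v _ => ?_
    have e : ((nm G X) ^ k) v u = ((nm G X) ^ k) u v := by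
      have := congrFun (congrFun ((nm_symm G X).pow k) u) v
      exact this
    rw [e, pow_two]
  rw [h5] at h3
  by_contra h
  rw [not_le] at h
  have := mul_lt_mul_of_pos_right h hpos
  linarith

theorem cw_nonneg {m : ℕ} (f : Fin m → V) : 0 ≤ cw (nm G X) f :=
  Finset.prod_nonneg fun _ _ => nm_nonneg G X _ _

/-- total weight of the closed walks which are not injective -/
theorem degenerate_le (n : ℕ) {k : ℕ} (hk : 2 ≤ k) (hn : n + 1 = 2 * k) {D : ℝ} (hD : 0 < D)
    (hdeg : ∀ v ∈ X, D ≤ (dg G X v : ℝ)) :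
    ∑ f : Fin (n + 1) → V, (if Function.Injective f then 0 else cw (nm G X) f) ≤
      ((n : ℝ) + 1) ^ 2 * (D⁻¹ * ∑ a, ((nm G X) ^ (2 * k - 2)) a a) := by
  have hS := nm_symm G X
  have hdiag : ∀ l : Fin (n + 1), l ≠ 0 →
      ∑ f : Fin (n + 1) → V, (if f 0 = f l then cw (nm G X) f else 0) ≤
        D⁻¹ * ∑ a, ((nm G X) ^ (2 * k - 2)) a a := by
    intro l hl
    rw [sum_cw_zero _ n l hl, Finset.mul_sum]
    refine Finset.sum_le_sum fun a _ => ?_
    have hl1 : 1 ≤ (l : ℕ) := by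
      rcases Nat.eq_zero_or_pos (l : ℕ) with h | h
      · exact absurd (Fin.ext h) hl
      · exact h
    have h1 := diag_bound (nm G X) hS (nm_diag G X) hk hl1 (by omega) a
    have e : n + 1 - (l : ℕ) = 2 * k - l := by omega
    rw [e]
    refine h1.trans (mul_le_mul_of_nonneg_right ?_ ?_)
    · refine (nm_sq_le G X hD hdeg a).trans ?_
      split_ifs
      · exact le_rfl
      · positivity
    · have := diag_pos (nm G X) hS (k - 1) a
      rwa [show 2 * (k - 1) = 2 * k - 2 by omega] at this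
  have hB : 0 ≤ D⁻¹ * ∑ a, ((nm G X) ^ (2 * k - 2)) a a := by
    refine mul_nonneg (by positivity) (Finset.sum_nonneg fun a _ => ?_)
    have := diag_pos (nm G X) hS (k - 1) a
    rwa [show 2 * (k - 1) = 2 * k - 2 by omega] at this
  calc ∑ f : Fin (n + 1) → V, (if Function.Injective f then 0 else cw (nm G X) f) ≤
      ∑ f : Fin (n + 1) → V, ∑ i : Fin (n + 1), ∑ l : Fin (n + 1),
        (if l = 0 then 0 else if f i = f (l + i) then cw (nm G X) f else 0) := by
        refine Finset.sum_le_sum fun f _ => ?_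
        have hnn : ∀ i l : Fin (n + 1), 0 ≤
            (if l = 0 then 0 else if f i = f (l + i) then cw (nm G X) f else 0) := by
          intro i l
          split_ifs
          · exact le_rfl
          · exact cw_nonneg G X f
          · exact le_rfl
        split_ifs with hf
        · exact Finset.sum_nonneg fun i _ => Finset.sum_nonneg fun l _ => hnn i l
        · rw [Function.Injective] at hf
          push Not at hf
          obtain ⟨i, j, hij, hne⟩ := hf
          have h1 : (if j - i = 0 then 0 else if f i = f (j - i + i) then cw (nm G X) f else 0) =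
              cw (nm G X) f := by
            rw [if_neg (sub_ne_zero.2 hne.symm), sub_add_cancel, if_pos hij]
          refine h1.symm.le.trans ?_
          refine le_trans ?_ (Finset.single_le_sum (f := fun i => ∑ l : Fin (n + 1),
            (if l = 0 then 0 else if f i = f (l + i) then cw (nm G X) f else 0))
            (fun i _ => Finset.sum_nonneg fun l _ => hnn i l) (Finset.mem_univ i))
          exact Finset.single_le_sum (f := fun l =>
            (if l = 0 then 0 else if f i = f (l + i) then cw (nm G X) f else 0))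
            (fun l _ => hnn i l) (Finset.mem_univ (j - i))
    _ = ∑ i : Fin (n + 1), ∑ l : Fin (n + 1), ∑ f : Fin (n + 1) → V,
        (if l = 0 then 0 else if f i = f (l + i) then cw (nm G X) f else 0) := by
        rw [Finset.sum_comm]
        refine Finset.sum_congr rfl fun i _ => ?_
        rw [Finset.sum_comm]
    _ ≤ ∑ _i : Fin (n + 1), ∑ _l : Fin (n + 1), D⁻¹ * ∑ a, ((nm G X) ^ (2 * k - 2)) a a := by
        refine Finset.sum_le_sum fun i _ => Finset.sum_le_sum fun l _ => ?_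
        by_cases hl : l = 0
        · simp only [hl, if_true, Finset.sum_const_zero]
          exact hB
        · simp only [hl, if_false]
          rw [sum_cw_pair]
          exact hdiag l hl
    _ = _ := by
        simp only [Finset.sum_const, Finset.card_univ, Fintype.card_fin, nsmul_eq_mul]
        push_cast
        ring

theorem supersat_aux (m : ℕ) {k : ℕ} (hk : 2 ≤ k) (hm : m = 2 * k)
    (hX : X.Nonempty) (D : ℝ) (hD : 0 < D) (hdeg : ∀ v ∈ X, D ≤ (dg G X v : ℝ))
    (hbig : (16 * (k : ℝ) ^ 2 * (8 * (k : ℝ) ^ 2) ^ (k - 2)) * (X.card : ℝ) ≤ D ^ k) :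
    D ^ m / 4 ≤ ((univ.filter (fun f : Fin m → V =>
      Function.Injective f ∧ ∀ i, G.Adj (f i) (f (finRotate m i)))).card : ℝ) := by
  obtain ⟨n, rfl⟩ : ∃ n, m = n + 1 := ⟨m - 1, by omega⟩
  have hS := nm_symm G X
  have hk0 : (0 : ℝ) < k := by
    have : 0 < k := by omega
    exact_mod_cast this
  have hn1 : (n : ℝ) + 1 = 2 * k := by exact_mod_cast hm
  set Z : ℝ := ((nm G X) ^ (2 * k)).trace with hZ
  have hZ1 : 1 ≤ Z := nm_trace_one G X hD hX hdeg k
  have hdeg' := degenerate_le G X n hk hm hD hdeg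
  set y : ℝ := D / (8 * (k : ℝ) ^ 2) with hy
  have hy0 : 0 < y := by positivity
  have h1 : ∑ a, ((nm G X) ^ (2 * k - 2)) a a ≤ y * Z + y⁻¹ ^ (k - 2) * ((X.card : ℝ) * D⁻¹) := by
    calc ∑ a, ((nm G X) ^ (2 * k - 2)) a a ≤
        ∑ a, (y * ((nm G X) ^ (2 * k)) a a + y⁻¹ ^ (k - 2) * ((nm G X) ^ 2) a a) :=
          Finset.sum_le_sum fun a _ => diag_interp (nm G X) hS hk y hy0 a
      _ = y * Z + y⁻¹ ^ (k - 2) * ∑ a, ((nm G X) ^ 2) a a := by
          rw [Finset.sum_add_distrib, ← Finset.mul_sum, ← Finset.mul_sum]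
          rfl
      _ ≤ _ := by
          have := nm_trace_sq G X hD hdeg
          have h2 : 0 ≤ y⁻¹ ^ (k - 2) := by positivity
          nlinarith [mul_le_mul_of_nonneg_left this h2]
  have h2 : ((n : ℝ) + 1) ^ 2 * (D⁻¹ * ∑ a, ((nm G X) ^ (2 * k - 2)) a a) ≤ Z / 2 + 1 / 4 := by
    rw [hn1]
    have h3 : (2 * (k : ℝ)) ^ 2 * (D⁻¹ * ∑ a, ((nm G X) ^ (2 * k - 2)) a a) ≤
        (2 * (k : ℝ)) ^ 2 * (D⁻¹ * (y * Z + y⁻¹ ^ (k - 2) * ((X.card : ℝ) * D⁻¹))) :=
      mul_le_mul_of_nonneg_left (mul_le_mul_of_nonneg_left h1 (by positivity)) (by positivity)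
    refine h3.trans ?_
    have e1 : (2 * (k : ℝ)) ^ 2 * (D⁻¹ * (y * Z)) = Z / 2 := by
      rw [hy]
      field_simp
      ring
    have e2 : (2 * (k : ℝ)) ^ 2 * (D⁻¹ * (y⁻¹ ^ (k - 2) * ((X.card : ℝ) * D⁻¹))) =
        (16 * (k : ℝ) ^ 2 * (8 * (k : ℝ) ^ 2) ^ (k - 2)) * (X.card : ℝ) / D ^ k / 4 := by
      obtain ⟨p, rfl⟩ : ∃ p, k = p + 2 := ⟨k - 2, by omega⟩
      rw [show p + 2 - 2 = p by omega, hy, inv_div, div_pow, pow_add D p 2]
      field_simp
      ring
    have e3 : (16 * (k : ℝ) ^ 2 * (8 * (k : ℝ) ^ 2) ^ (k - 2)) * (X.card : ℝ) / D ^ k ≤ 1 :=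
      div_le_one_of_le₀ hbig (by positivity)
    calc (2 * (k : ℝ)) ^ 2 * (D⁻¹ * (y * Z + y⁻¹ ^ (k - 2) * ((X.card : ℝ) * D⁻¹))) =
        (2 * (k : ℝ)) ^ 2 * (D⁻¹ * (y * Z)) +
          (2 * (k : ℝ)) ^ 2 * (D⁻¹ * (y⁻¹ ^ (k - 2) * ((X.card : ℝ) * D⁻¹))) := by ring
      _ ≤ Z / 2 + 1 / 4 := by
          rw [e1, e2]
          linarith
  have hsum : ∑ f : Fin (n + 1) → V, (if Function.Injective f then cw (nm G X) f else 0) +
      ∑ f : Fin (n + 1) → V, (if Function.Injective f then 0 else cw (nm G X) f) = Z := by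
    rw [← Finset.sum_add_distrib, hZ, ← hm, ← sum_cw]
    refine Finset.sum_congr rfl fun f _ => ?_
    split_ifs <;> ring
  have hinj : 1 / 4 ≤ ∑ f : Fin (n + 1) → V, (if Function.Injective f then cw (nm G X) f else 0) := by
    linarith
  have hcw : ∀ f : Fin (n + 1) → V, cw (nm G X) f ≤
      if ∀ i, G.Adj (f i) (f (finRotate (n + 1) i)) then D⁻¹ ^ (n + 1) else 0 := by
    intro f
    split_ifs with h
    · calc cw (nm G X) f ≤ ∏ _i : Fin (n + 1), D⁻¹ :=
            Finset.prod_le_prod (fun i _ => nm_nonneg G X _ _) (fun i _ => nm_le G X hD hdeg _ _)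
        _ = _ := by simp
    · push Not at h
      obtain ⟨i, hi⟩ := h
      refine le_of_eq (Finset.prod_eq_zero (Finset.mem_univ i) ?_)
      simp only [nm]
      rw [if_neg fun h' => hi h'.2.2]
  have hle : ∑ f : Fin (n + 1) → V, (if Function.Injective f then cw (nm G X) f else 0) ≤
      ((univ.filter (fun f : Fin (n + 1) → V =>
        Function.Injective f ∧ ∀ i, G.Adj (f i) (f (finRotate (n + 1) i)))).card : ℝ) *
        D⁻¹ ^ (n + 1) := by
    rw [← nsmul_eq_mul, ← Finset.sum_const, Finset.sum_filter]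
    refine Finset.sum_le_sum fun f _ => ?_
    by_cases hf : Function.Injective f
    · rw [if_pos hf]
      refine (hcw f).trans (le_of_eq ?_)
      by_cases h : ∀ i, G.Adj (f i) (f (finRotate (n + 1) i))
      · rw [if_pos h, if_pos ⟨hf, h⟩]
      · rw [if_neg h, if_neg fun h' => h h'.2]
    · rw [if_neg hf]
      split_ifs
      · positivity
      · exact le_rfl
  have hfin := hinj.trans hle
  rw [inv_pow, ← div_eq_mul_inv, le_div_iff₀ (by positivity)] at hfin
  linarith

/-- **Supersaturation for even cycles**: if `G[X]` has minimum degree at least `D` and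
`D ^ k ≥ C_k |X|`, then there are at least `D ^ (2 k) / 4` labelled cycles of length `2 k`. -/
theorem supersat (k : ℕ) (hk : 2 ≤ k) (X : Finset V) (hX : X.Nonempty) (D : ℝ) (hD : 0 < D)
    (hdeg : ∀ v ∈ X, D ≤ (dg G X v : ℝ))
    (hbig : (16 * (k : ℝ) ^ 2 * (8 * (k : ℝ) ^ 2) ^ (k - 2)) * (X.card : ℝ) ≤ D ^ k) :
    D ^ (2 * k) / 4 ≤ ((cyc k G).card : ℝ) :=
  supersat_aux G X (2 * k) hk rfl hX D hD hdeg hbig

end main

end Pool.Agent.Work.FewC
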