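import Pool.Agent.Work.MP_4a0cc5_co.Core
import Pool.Agent.Work.MP_4a0cc5_co.Local
import Pool.Agent.Work.MP_4a0cc5_co.Trace

set_option autoImplicit false

/-!
MP_4a0cc5_co: the lower bound for the maximum cut, in terms of labelled cycles and of the
parameter `t`.
-/

namespace Pool.Agent.Work.FewC

open Finset

variable {V : Type*} [Fintype V] [DecidableEq V] (G : SimpleGraph V) [DecidableRel G.Adj]

lemma dg_le_degree (X : Finset V) (v : V) : dg G X v ≤ G.degree v := by
  unfold dg
  rw [← SimpleGraph.card_neighborFinset_eq_degree]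
  exact Finset.card_le_card Finset.inter_subset_left

lemma sum_degree_cast : ∑ v, (G.degree v : ℝ) = 2 * (G.edgeFinset.card : ℝ) := by
  have := G.sum_degrees_eq_twice_card_edges
  exact_mod_cast this

/-- vertices outside `H` meet all edges not inside `H` -/
lemma dd_high (H : Finset V) :
    2 * (G.edgeFinset.card : ℝ) - 2 * ∑ v ∈ Hᶜ, (G.degree v : ℝ) ≤ dd G H := by
  classical
  have h1 : ∑ v, (G.degree v : ℝ) = ∑ v ∈ H, (G.degree v : ℝ) + ∑ v ∈ Hᶜ, (G.degree v : ℝ) := by
    rw [Finset.sum_add_sum_compl]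
  have h2 : ∀ v, (G.degree v : ℝ) = dg G H v + dg G Hᶜ v := by
    intro v
    have : G.degree v = dg G H v + dg G Hᶜ v := by
      unfold dg
      rw [← SimpleGraph.card_neighborFinset_eq_degree, ← Finset.card_union_of_disjoint]
      · rw [← Finset.inter_union_distrib_left, Finset.union_compl, Finset.inter_univ]
      · refine Finset.disjoint_left.2 fun x hx hx' => ?_
        rw [Finset.mem_inter] at hx hx'
        exact (Finset.mem_compl.1 hx'.2) hx.2
    exact_mod_cast this
  have h3 : ∑ v ∈ H, (G.degree v : ℝ) = dd G H + ∑ v ∈ H, (dg G Hᶜ v : ℝ) := by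
    rw [Finset.sum_congr rfl fun v _ => h2 v, Finset.sum_add_distrib]
    unfold dd
    push_cast
    rfl
  have h4 : ∑ v ∈ H, (dg G Hᶜ v : ℝ) = ∑ u ∈ Hᶜ, (dg G H u : ℝ) := by
    simp only [dg_eq]
    rw [Finset.sum_comm]
    refine Finset.sum_congr rfl fun u _ => Finset.sum_congr rfl fun v _ => ?_
    simp only [G.adj_comm u v]
  have h5 : ∑ u ∈ Hᶜ, (dg G H u : ℝ) ≤ ∑ v ∈ Hᶜ, (G.degree v : ℝ) :=
    Finset.sum_le_sum fun u _ => by exact_mod_cast dg_le_degree G H u
  have h6 := sum_degree_cast G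
  linarith

/-- case one: many edges at vertices of moderate degree with sparse neighbourhoods -/
lemma case_sparse (T : ℝ) (hT : 0 < T) (B : Finset V) (hB1 : ∀ v ∈ B, (G.degree v : ℝ) ≤ T ^ 2)
    (hB2 : ∀ v ∈ B, (dd G (G.neighborFinset v) : ℝ) ≤ 2 * T * G.degree v) :
    ∃ A : Finset V, (G.edgeFinset.card : ℝ) / 2 + (1 / 105) * ((∑ v ∈ B, (G.degree v : ℝ)) / T) ≤
      ((G.interedges A Aᶜ).card : ℝ) := by
  classical
  obtain ⟨A, hA⟩ := local_bound G
    (fun v => if v ∈ B then (1 / 4) * (Real.sqrt (G.degree v) / T) else 0)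
    (fun v => by
      split_ifs
      · positivity
      · exact le_refl _)
    (fun v => by
      split_ifs with hv
      · have h1 : Real.sqrt (G.degree v) ≤ T := Real.sqrt_le_iff.2 ⟨hT.le, hB1 v hv⟩
        have h2 : Real.sqrt (G.degree v) / T ≤ 1 := (div_le_one hT).2 h1
        linarith
      · exact zero_le_one)
  refine ⟨A, le_trans ?_ hA⟩
  have h1 : (1 / 105) * ((∑ v ∈ B, (G.degree v : ℝ)) / T) ≤
      (1 / 16) * ∑ v, (10 / 9 * (if v ∈ B then (1 / 4) * (Real.sqrt (G.degree v) / T) else 0) *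
        Real.sqrt (G.degree v) -
      (if v ∈ B then (1 / 4) * (Real.sqrt (G.degree v) / T) else 0) ^ 2 *
        dd G (G.neighborFinset v) / G.degree v) := by
    rw [Finset.sum_div, Finset.mul_sum, Finset.mul_sum, ← Finset.sum_subset (Finset.subset_univ B)]
    · refine Finset.sum_le_sum fun v hv => ?_
      rw [if_pos hv]
      have hd0 : (0:ℝ) ≤ G.degree v := Nat.cast_nonneg _
      have hs : Real.sqrt (G.degree v) * Real.sqrt (G.degree v) = G.degree v :=
        Real.mul_self_sqrt hd0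
      rcases eq_or_lt_of_le hd0 with h0 | h0
      · rw [← h0]
        simp
      · have h2 : (1 / 4 * (Real.sqrt (G.degree v) / T)) ^ 2 * dd G (G.neighborFinset v) / G.degree v =
            (1 / 16) * (dd G (G.neighborFinset v) : ℝ) / T ^ 2 := by
          have : (1 / 4 * (Real.sqrt (G.degree v) / T)) ^ 2 = (1 / 16) * (G.degree v : ℝ) / T ^ 2 := by
            rw [show (1 / 4 * (Real.sqrt (G.degree v) / T)) ^ 2 =
              (1 / 16) * (Real.sqrt (G.degree v) * Real.sqrt (G.degree v)) / T ^ 2 by ring, hs]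
          rw [this]
          field_simp
        have h3 : 10 / 9 * (1 / 4 * (Real.sqrt (G.degree v) / T)) * Real.sqrt (G.degree v) =
            (5 / 18) * ((G.degree v : ℝ) / T) := by
          rw [show 10 / 9 * (1 / 4 * (Real.sqrt (G.degree v) / T)) * Real.sqrt (G.degree v) =
            (5 / 18) * ((Real.sqrt (G.degree v) * Real.sqrt (G.degree v)) / T) by ring, hs]
        rw [h2, h3]
        have h4 : (1 / 16) * (dd G (G.neighborFinset v) : ℝ) / T ^ 2 ≤ (1 / 8) * ((G.degree v : ℝ) / T) := by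
          rw [div_le_iff₀ (by positivity)]
          have h5 := hB2 v hv
          have h6 : (1 / 8) * ((G.degree v : ℝ) / T) * T ^ 2 = (1 / 8) * (G.degree v * T) := by
            field_simp
          rw [h6]
          linarith
        have h7 : 0 ≤ (G.degree v : ℝ) / T := by positivity
        linarith
    · intro v _ hv
      rw [if_neg hv]
      simp
  linarith

/-- case two: many edges at vertices with dense neighbourhoods -/
lemma case_dense (s : ℕ) (hs : 1 ≤ s) (T : ℝ) (hT : 8 * (s : ℝ) ≤ T) (B : Finset V)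
    (hB2 : ∀ v ∈ B, 2 * T * G.degree v ≤ (dd G (G.neighborFinset v) : ℝ)) :
    4 * (∑ v ∈ B, (G.degree v : ℝ)) * (T / 4) ^ (2 * s) ≤ ((cyc (s + 1) G).card : ℝ) := by
  classical
  have hs1 : (1:ℝ) ≤ s := by exact_mod_cast hs
  have hT0 : 0 < T := by linarith
  have hex : ∀ v, ∃ X ⊆ G.neighborFinset v, (∀ u ∈ X, T / 2 ≤ dg G X u) ∧
      (dd G (G.neighborFinset v) : ℝ) - 2 * (T / 2) * (G.neighborFinset v).card ≤
        dd G X - 2 * (T / 2) * X.card := fun v => core G (G.neighborFinset v) (T / 2)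
  choose X hX1 hX2 hX3 using hex
  refine le_trans ?_ (cyc_of_nbhd G s B X fun v _ => hX1 v)
  rw [Finset.mul_sum, Finset.sum_mul]
  refine Finset.sum_le_sum fun v hv => ?_
  obtain ⟨l, rfl⟩ : ∃ l, s = l + 1 := ⟨s - 1, by omega⟩
  have h1 := pth_count G (X v) (T / 2) (hX2 v) (2 * l + 1) (by
    push_cast at hT ⊢
    linarith)
  have h2 : (2 * l + 1) + 1 = 2 * (l + 1) := by ring
  have h3 : T * G.degree v ≤ dd G (X v) := by
    have h4 := hX3 v
    rw [SimpleGraph.card_neighborFinset_eq_degree] at h4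
    have h5 := hB2 v hv
    have h6 : 0 ≤ (X v).card * T := by positivity
    nlinarith
  have h7 : 4 * (G.degree v : ℝ) * (T / 4) ^ (2 * (l + 1)) ≤ (dd G (X v) : ℝ) * (T / 2 / 2) ^ (2 * l + 1) := by
    have h8 : T / 2 / 2 = T / 4 := by ring
    rw [h8, show 2 * (l + 1) = (2 * l + 1) + 1 by ring, pow_succ]
    have h9 : 0 ≤ (T / 4) ^ (2 * l + 1) := by positivity
    calc 4 * (G.degree v : ℝ) * ((T / 4) ^ (2 * l + 1) * (T / 4)) =
        (T * G.degree v) * (T / 4) ^ (2 * l + 1) := by ring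
      _ ≤ _ := mul_le_mul_of_nonneg_right h3 h9
  refine h7.trans (h1.trans ?_)
  rw [show (2 * l + 1) + 1 = 2 * (l + 1) by ring]

/-- the lower bound, in terms of labelled cycles -/
theorem lower_t (r : ℕ) (hr : 2 ≤ r) (t : ℝ) (ht : 1 ≤ t)
    (hm : (G.edgeFinset.card : ℝ) ≤ t ^ (2 * r + 2)) (hm0 : 0 < G.edgeFinset.card)
    (hN : ((cyc r G).card : ℝ) ≤ G.edgeFinset.card * t ^ (2 * r - 2)) :
    ∃ A : Finset V, (G.edgeFinset.card : ℝ) / 2 + (1 / (6720 * r)) * (G.edgeFinset.card / t) ≤
      ((G.interedges A Aᶜ).card : ℝ) := by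
  classical
  obtain ⟨s, rfl⟩ : ∃ s, r = s + 1 := ⟨r - 1, by omega⟩
  have hs : 1 ≤ s := by omega
  set m : ℝ := (G.edgeFinset.card : ℝ) with hmdef
  have hm0' : 0 < m := by
    rw [hmdef]
    exact_mod_cast hm0
  have ht0 : 0 < t := by linarith
  have hs1 : (1:ℝ) ≤ s := by exact_mod_cast hs
  set T : ℝ := 16 * ((s + 1 : ℕ) : ℝ) * t with hTdef
  have hTt : 16 * ((s:ℝ) + 1) ≤ T := by
    rw [hTdef]
    push_cast
    nlinarith
  have hT0 : 0 < T := by linarith
  set H : Finset V := univ.filter (fun v => T ^ 2 < (G.degree v : ℝ)) with hHdef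
  set B1 : Finset V := Hᶜ.filter (fun v => 2 * T * G.degree v ≤ (dd G (G.neighborFinset v) : ℝ)) with hB1def
  set B0 : Finset V := Hᶜ.filter (fun v => ¬ (2 * T * G.degree v ≤ (dd G (G.neighborFinset v) : ℝ)))
    with hB0def
  have hsplit : ∑ v ∈ Hᶜ, (G.degree v : ℝ) = ∑ v ∈ B1, (G.degree v : ℝ) + ∑ v ∈ B0, (G.degree v : ℝ) := by
    rw [hB1def, hB0def, Finset.sum_filter_add_sum_filter_not]
  by_cases hc0 : m / 4 ≤ ∑ v ∈ B0, (G.degree v : ℝ)
  · obtain ⟨A, hA⟩ := case_sparse G T hT0 B0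
      (fun v hv => by
        rw [hB0def, Finset.mem_filter, Finset.mem_compl, hHdef, Finset.mem_filter] at hv
        have := hv.1
        simp only [Finset.mem_univ, true_and, not_lt] at this
        exact this)
      (fun v hv => by
        rw [hB0def, Finset.mem_filter] at hv
        exact (not_le.1 hv.2).le)
    refine ⟨A, le_trans ?_ hA⟩
    have h1 : 1 / (6720 * ((s + 1 : ℕ) : ℝ)) * (m / t) = (1 / 105) * ((m / 4) / T) := by
      rw [hTdef]
      push_cast
      field_simp
      norm_num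
    have h2 : (m / 4) / T ≤ (∑ v ∈ B0, (G.degree v : ℝ)) / T := by gcongr
    rw [h1]
    linarith
  · exfalso
    push Not at hc0
    by_cases hc1 : m / 4 ≤ ∑ v ∈ B1, (G.degree v : ℝ)
    · have h1 := case_dense G s hs T (by linarith) B1 (fun v hv => by
        rw [hB1def, Finset.mem_filter] at hv
        exact hv.2)
      have h2 : m * t ^ (2 * s) < 4 * (∑ v ∈ B1, (G.degree v : ℝ)) * (T / 4) ^ (2 * s) := by
        have h3 : t ^ (2 * s) < (T / 4) ^ (2 * s) := by
          refine pow_lt_pow_left₀ ?_ ht0.le (by omega)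
          rw [hTdef]
          push_cast
          nlinarith
        have h4 : 0 ≤ t ^ (2 * s) := by positivity
        nlinarith
      have h5 : 2 * (s + 1) - 2 = 2 * s := by omega
      rw [h5] at hN
      linarith
    · push Not at hc1
      -- dense part
      have h1 := dd_high G H
      have h2 : m ≤ dd G H := by
        rw [← hmdef, hsplit] at h1
        linarith
      have h3 : (H.card : ℝ) * T ^ 2 ≤ 2 * m := by
        rw [hmdef, ← sum_degree_cast G]
        have h4 : (H.card : ℝ) * T ^ 2 ≤ ∑ v ∈ H, (G.degree v : ℝ) := by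
          rw [← nsmul_eq_mul, ← Finset.sum_const]
          refine Finset.sum_le_sum fun v hv => ?_
          rw [hHdef, Finset.mem_filter] at hv
          exact hv.2.le
        exact h4.trans (Finset.sum_le_univ_sum_of_nonneg fun v => Nat.cast_nonneg _)
      obtain ⟨X, hX1, hX2, hX3⟩ := core G H (T ^ 2 / 8)
      have h4 : m / 2 ≤ (dd G X : ℝ) - 2 * (T ^ 2 / 8) * X.card := by
        refine le_trans ?_ hX3
        nlinarith
      have hXne : X.Nonempty := by
        rw [Finset.nonempty_iff_ne_empty]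
        rintro rfl
        have : (dd G (∅ : Finset V) : ℝ) = 0 := by
          unfold dd
          simp
        rw [this] at h4
        simp at h4
        linarith
      have hXH : (X.card : ℝ) ≤ H.card := by exact_mod_cast Finset.card_le_card hX1
      have h5 : (X.card : ℝ) * T ^ 2 ≤ 2 * t ^ (2 * (s + 1) + 2) := by
        have : (X.card : ℝ) * T ^ 2 ≤ H.card * T ^ 2 := by gcongr
        linarith
      set q : ℝ := ((s + 1 : ℕ) : ℝ) with hq
      have hq2 : 2 ≤ q := by
        rw [hq]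
        push_cast
        linarith
      have h6 : T ^ 2 = 256 * q ^ 2 * t ^ 2 := by
        rw [hTdef]
        ring
      have h7 : (X.card : ℝ) ≤ t ^ (2 * (s + 1)) := by
        have e1 : 2 * t ^ (2 * (s + 1) + 2) = (2 * t ^ (2 * (s + 1))) * t ^ 2 := by ring
        rw [h6, e1, show (X.card : ℝ) * (256 * q ^ 2 * t ^ 2) = (X.card * (256 * q ^ 2)) * t ^ 2 by ring] at h5
        have h8 := le_of_mul_le_mul_right h5 (by positivity)
        have h9 : (0:ℝ) ≤ X.card := Nat.cast_nonneg _
        nlinarith [mul_nonneg h9 (sub_nonneg.2 (show (2:ℝ) ≤ 256 * q ^ 2 by nlinarith))]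
      have h8 := supersat G (s + 1) hr X hXne (T ^ 2 / 8) (by positivity) hX2 (by
        rw [← hq, h6]
        have e0 : s + 1 - 2 = s - 1 := by omega
        rw [e0]
        have e1 : (256 * q ^ 2 * t ^ 2 / 8) ^ (s + 1) = (32 * q ^ 2) ^ (s + 1) * t ^ (2 * (s + 1)) := by
          rw [show 256 * q ^ 2 * t ^ 2 / 8 = (32 * q ^ 2) * t ^ 2 by ring, mul_pow, ← pow_mul]
        rw [e1]
        have e2 : 16 * q ^ 2 * (8 * q ^ 2) ^ (s - 1) ≤ (32 * q ^ 2) ^ (s + 1) := by
          obtain ⟨l, rfl⟩ : ∃ l, s = l + 1 := ⟨s - 1, by omega⟩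
          rw [Nat.add_sub_cancel, show l + 1 + 1 = l + 2 by ring, pow_add]
          have e3 : (8 * q ^ 2) ^ l ≤ (32 * q ^ 2) ^ l := by
            gcongr
            norm_num
          have e4 : 16 * q ^ 2 ≤ (32 * q ^ 2) ^ 2 := by
            have e5 : (1:ℝ) ≤ 32 * q ^ 2 := by nlinarith
            have e6 : 32 * q ^ 2 ≤ (32 * q ^ 2) ^ 2 := by nlinarith
            nlinarith
          rw [mul_comm]
          exact mul_le_mul e3 e4 (by positivity) (by positivity)
        exact mul_le_mul e2 h7 (Nat.cast_nonneg _) (by positivity))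
      have h9 : m * t ^ (2 * s) < (T ^ 2 / 8) ^ (2 * (s + 1)) / 4 := by
        have e1 : (T ^ 2 / 8) ^ (2 * (s + 1)) = (32 * q ^ 2) ^ (2 * (s + 1)) * (t ^ (2 * (s + 1) + 2) * t ^ (2 * s)) := by
          rw [h6, show 256 * q ^ 2 * t ^ 2 / 8 = (32 * q ^ 2) * t ^ 2 by ring, mul_pow, ← pow_mul]
          ring
        rw [e1]
        have e2 : m * t ^ (2 * s) ≤ t ^ (2 * (s + 1) + 2) * t ^ (2 * s) := by gcongr
        have e3 : 0 < t ^ (2 * (s + 1) + 2) * t ^ (2 * s) := by positivity
        have e4 : (4:ℝ) < (32 * q ^ 2) ^ (2 * (s + 1)) := by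
          have e5 : (32 * q ^ 2) ^ 1 ≤ (32 * q ^ 2) ^ (2 * (s + 1)) :=
            pow_le_pow_right₀ (by nlinarith) (by omega)
          nlinarith
        nlinarith
      have h10 : 2 * (s + 1) - 2 = 2 * s := by omega
      rw [h10] at hN
      linarith

end Pool.Agent.Work.FewC
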