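import Pool.Agent.Work.MP_4a0cc5_co.Final
import Pool.Agent.Work.MP_4a0cc5_co.Induce

set_option autoImplicit false

/-!
MP_4a0cc5_co: graphs without `C_2r` and small surplus contain nearly regular ones of the density
of the Turan problem.
-/

namespace Pool.Agent.Work.FewC

open Finset SimpleGraph

section
variable {V : Type*} [Fintype V] [DecidableEq V] (G : SimpleGraph V) [DecidableRel G.Adj]

lemma cyc_empty (r : ℕ) (hr : 1 ≤ r) (hG : (cycleGraph (2 * r)).Free G) : (cyc r G).card = 0 := by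
  have h1 := cyc_le_copyCount G r hr
  rw [copyCount_eq_zero.2 hG, mul_zero] at h1
  omega

/-- neighbourhoods in a graph without `C_2r` are sparse -/
lemma nbhd_sparse (s : ℕ) (hs : 1 ≤ s) (h0 : (cyc (s + 1) G).card = 0) (v : V) :
    (dd G (G.neighborFinset v) : ℝ) ≤ 8 * s * G.degree v := by
  by_contra hcon
  push Not at hcon
  have hs1 : (1:ℝ) ≤ s := by exact_mod_cast hs
  obtain ⟨X, hX1, hX2, hX3⟩ := core G (G.neighborFinset v) (4 * s)
  rw [SimpleGraph.card_neighborFinset_eq_degree] at hX3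
  have h1 : 0 < (dd G X : ℝ) := by
    have : 0 ≤ 2 * (4 * (s:ℝ)) * X.card := by positivity
    linarith
  obtain ⟨l, hl⟩ : ∃ l, 2 * s = l + 1 := ⟨2 * s - 1, by omega⟩
  have h2 := pth_count G X (4 * s) hX2 l (by
    have : (2 * (s:ℝ)) = l + 1 := by exact_mod_cast hl
    linarith)
  have h3 : 0 < (dd G X : ℝ) * (4 * s / 2) ^ l := by positivity
  have h4 := cyc_of_nbhd G s {v} (fun _ => X) (fun u hu => by
    rw [Finset.mem_singleton] at hu
    subst hu
    exact hX1)
  rw [Finset.sum_singleton, h0, hl] at h4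
  push_cast at h4
  linarith

/-- the surplus of a graph without `C_2r` -/
lemma surplus_sqrt (s : ℕ) (hs : 1 ≤ s) (h0 : (cyc (s + 1) G).card = 0) :
    (G.edgeFinset.card : ℝ) / 2 + (1 / (512 * s)) * ∑ v, Real.sqrt (G.degree v) ≤ maxCut G := by
  have hs1 : (1:ℝ) ≤ s := by exact_mod_cast hs
  obtain ⟨A, hA⟩ := local_bound G (fun _ => 1 / (16 * s)) (fun _ => by positivity)
    (fun _ => by
      rw [div_le_one (by positivity)]
      linarith)
  have h1 : ((G.interedges A Aᶜ).card : ℝ) ≤ maxCut G := by exact_mod_cast le_maxCut G A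
  refine le_trans ?_ (hA.trans h1)
  have h2 : (1 / (512 * (s:ℝ))) * ∑ v, Real.sqrt (G.degree v) ≤ (1 / 16) * ∑ v,
      (10 / 9 * (1 / (16 * (s:ℝ))) * Real.sqrt (G.degree v) -
        (1 / (16 * (s:ℝ))) ^ 2 * dd G (G.neighborFinset v) / G.degree v) := by
    rw [Finset.mul_sum, Finset.mul_sum]
    refine Finset.sum_le_sum fun v _ => ?_
    have hd := nbhd_sparse G s hs h0 v
    rcases Nat.eq_zero_or_pos (G.degree v) with h3 | h3
    · rw [h3]
      simp
    · have h4 : (1:ℝ) ≤ G.degree v := by exact_mod_cast h3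
      have h5 : (1:ℝ) ≤ Real.sqrt (G.degree v) := Real.one_le_sqrt.2 h4
      have h6 : (1 / (16 * (s:ℝ))) ^ 2 * dd G (G.neighborFinset v) / G.degree v ≤ 1 / (32 * s) := by
        rw [div_le_iff₀ (by linarith)]
        have h7 : (1 / (16 * (s:ℝ))) ^ 2 * dd G (G.neighborFinset v) ≤
            (1 / (16 * (s:ℝ))) ^ 2 * (8 * s * G.degree v) := by gcongr
        have h8 : (1 / (16 * (s:ℝ))) ^ 2 * (8 * s * G.degree v) = 1 / (32 * s) * G.degree v := by
          field_simp
          norm_num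
        linarith
      have h9 : 1 / (32 * (s:ℝ)) ≤ 1 / (32 * s) * Real.sqrt (G.degree v) := by
        have : 0 ≤ 1 / (32 * (s:ℝ)) := by positivity
        nlinarith
      have h10 : 1 / (512 * (s:ℝ)) * Real.sqrt (G.degree v) =
          (1 / 16) * (1 / (32 * s) * Real.sqrt (G.degree v)) := by
        field_simp
        norm_num
      have h11 : 10 / 9 * (1 / (16 * (s:ℝ))) * Real.sqrt (G.degree v) =
          (20 / 9) * (1 / (32 * s) * Real.sqrt (G.degree v)) := by
        field_simp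
        norm_num
      rw [h10, h11]
      have h12 : 0 ≤ 1 / (32 * (s:ℝ)) * Real.sqrt (G.degree v) := by positivity
      linarith
  linarith

/-- Bondy and Simonovits, from supersaturation -/
lemma few_edges (r : ℕ) (hr : 2 ≤ r) (h0 : (cyc r G).card = 0) (Y : Finset V) (δ : ℝ) (hδ : 0 < δ)
    (h : (16 * (r : ℝ) ^ 2 * (8 * (r : ℝ) ^ 2) ^ (r - 2)) * (Y.card : ℝ) ≤ δ ^ r) :
    (dd G Y : ℝ) ≤ 2 * δ * Y.card := by
  by_contra hcon
  push Not at hcon
  obtain ⟨X, hX1, hX2, hX3⟩ := core G Y δ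
  have h1 : X.Nonempty := by
    rw [Finset.nonempty_iff_ne_empty]
    rintro rfl
    have : (dd G (∅ : Finset V) : ℝ) = 0 := by
      unfold dd
      simp
    rw [this] at hX3
    simp at hX3
    linarith
  have h2 := supersat G r hr X h1 δ hδ hX2 (le_trans (by
    have : (X.card : ℝ) ≤ Y.card := by exact_mod_cast Finset.card_le_card hX1
    gcongr) h)
  rw [h0] at h2
  have : 0 < δ ^ (2 * r) / 4 := by positivity
  push_cast at h2
  linarith

lemma dg_union (Y Z : Finset V) (h : Disjoint Y Z) (v : V) :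
    (dg G (Y ∪ Z) v : ℝ) = dg G Y v + dg G Z v := by
  rw [dg_eq, dg_eq, dg_eq, Finset.sum_union h]

lemma dg_mono {Y Z : Finset V} (h : Y ⊆ Z) (v : V) : (dg G Y v : ℝ) ≤ dg G Z v := by
  have : dg G Y v ≤ dg G Z v := Finset.card_le_card (Finset.inter_subset_inter_left h)
  exact_mod_cast this

/-- the unbalanced form -/
lemma unbal (T : Finset V) (δ : ℝ) (hδ : 0 ≤ δ)
    (h : ∀ Y : Finset V, Y.card ≤ 2 * T.card → (dd G Y : ℝ) ≤ 2 * δ * Y.card) (hT : T.Nonempty) :
    ∀ (n : ℕ) (Y : Finset V), Y.card = n →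
      ∑ v ∈ T, (dg G Y v : ℝ) ≤ 4 * δ * (Y.card + T.card) := by
  intro n
  induction n using Nat.strong_induction_on with
  | _ n ih =>
    intro Y hY
    by_cases hc : Y.card ≤ T.card
    · have h1 : (T ∪ Y).card ≤ 2 * T.card := by
        have := Finset.card_union_le T Y
        omega
      have h2 := h (T ∪ Y) h1
      have h3 : ∑ v ∈ T, (dg G Y v : ℝ) ≤ dd G (T ∪ Y) := by
        have h4 : (dd G (T ∪ Y) : ℝ) = ∑ v ∈ T ∪ Y, (dg G (T ∪ Y) v : ℝ) := by
          unfold dd
          push_cast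
          rfl
        rw [h4]
        calc ∑ v ∈ T, (dg G Y v : ℝ) ≤ ∑ v ∈ T, (dg G (T ∪ Y) v : ℝ) :=
              Finset.sum_le_sum fun v _ => dg_mono G Finset.subset_union_right v
          _ ≤ _ := Finset.sum_le_sum_of_subset_of_nonneg Finset.subset_union_left
              fun v _ _ => Nat.cast_nonneg _
      have h5 : ((T ∪ Y).card : ℝ) ≤ 2 * T.card := by exact_mod_cast h1
      have h6 : 2 * δ * ((T ∪ Y).card : ℝ) ≤ 2 * δ * (2 * T.card) := by gcongr
      have h7 : 0 ≤ 4 * δ * (Y.card : ℝ) := by positivity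
      linarith
    · push Not at hc
      obtain ⟨Y', hY'1, hY'2⟩ := Finset.exists_subset_card_eq hc.le
      have hTpos : 0 < T.card := Finset.card_pos.2 hT
      have h1 : (Y \ Y').card = Y.card - T.card := by
        rw [Finset.card_sdiff_of_subset hY'1, hY'2]
      have h2 := ih (Y \ Y').card (by omega) (Y \ Y') rfl
      have h3 := ih Y'.card (by omega) Y' rfl
      have h3' : ∑ v ∈ T, (dg G Y' v : ℝ) ≤ 4 * δ * T.card := by
        have h1 : (T ∪ Y').card ≤ 2 * T.card := by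
          have := Finset.card_union_le T Y'
          omega
        have h2 := h (T ∪ Y') h1
        have h3 : ∑ v ∈ T, (dg G Y' v : ℝ) ≤ dd G (T ∪ Y') := by
          have h4 : (dd G (T ∪ Y') : ℝ) = ∑ v ∈ T ∪ Y', (dg G (T ∪ Y') v : ℝ) := by
            unfold dd
            push_cast
            rfl
          rw [h4]
          calc ∑ v ∈ T, (dg G Y' v : ℝ) ≤ ∑ v ∈ T, (dg G (T ∪ Y') v : ℝ) :=
                Finset.sum_le_sum fun v _ => dg_mono G Finset.subset_union_right v
            _ ≤ _ := Finset.sum_le_sum_of_subset_of_nonneg Finset.subset_union_left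
                fun v _ _ => Nat.cast_nonneg _
        have h5 : ((T ∪ Y').card : ℝ) ≤ 2 * T.card := by exact_mod_cast h1
        have h6 : 2 * δ * ((T ∪ Y').card : ℝ) ≤ 2 * δ * (2 * T.card) := by gcongr
        linarith
      have h4 : ∀ v, (dg G Y v : ℝ) = dg G Y' v + dg G (Y \ Y') v := by
        intro v
        rw [← dg_union G Y' (Y \ Y') Finset.disjoint_sdiff, Finset.union_sdiff_of_subset hY'1]
      rw [Finset.sum_congr rfl fun v _ => h4 v, Finset.sum_add_distrib]
      have h5 : ((Y \ Y').card : ℝ) = Y.card - T.card := by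
        rw [h1, Nat.cast_sub hc.le]
      rw [h5] at h2
      linarith

lemma dd_sdiff (H T : Finset V) :
    (dd G H : ℝ) - 2 * ∑ v ∈ T, (dg G H v : ℝ) ≤ dd G (H \ T) := by
  have h1 : (dd G H : ℝ) = ∑ v ∈ H, (dg G H v : ℝ) := by
    unfold dd
    push_cast
    rfl
  have h2 : (dd G (H \ T) : ℝ) = ∑ v ∈ H \ T, (dg G (H \ T) v : ℝ) := by
    unfold dd
    push_cast
    rfl
  have h3 : ∀ v, (dg G H v : ℝ) = dg G (H \ T) v + dg G (H ∩ T) v := by
    intro v
    rw [← dg_union G (H \ T) (H ∩ T) (Finset.disjoint_sdiff_inter H T), Finset.sdiff_union_inter]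
  have h4 : ∑ v ∈ H, (dg G H v : ℝ) = ∑ v ∈ H \ T, (dg G H v : ℝ) + ∑ v ∈ H ∩ T, (dg G H v : ℝ) := by
    rw [← Finset.sum_union (Finset.disjoint_sdiff_inter H T), Finset.sdiff_union_inter]
  have h5 : ∑ v ∈ H \ T, (dg G (H ∩ T) v : ℝ) ≤ ∑ v ∈ H ∩ T, (dg G H v : ℝ) := by
    have h6 : ∑ v ∈ H \ T, (dg G (H ∩ T) v : ℝ) = ∑ u ∈ H ∩ T, (dg G (H \ T) u : ℝ) := by
      simp only [dg_eq]
      rw [Finset.sum_comm]
      refine Finset.sum_congr rfl fun u _ => Finset.sum_congr rfl fun v _ => ?_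
      simp only [G.adj_comm u v]
    rw [h6]
    exact Finset.sum_le_sum fun u _ => dg_mono G Finset.sdiff_subset u
  have h7 : ∑ v ∈ H ∩ T, (dg G H v : ℝ) ≤ ∑ v ∈ T, (dg G H v : ℝ) :=
    Finset.sum_le_sum_of_subset_of_nonneg Finset.inter_subset_right fun v _ _ => Nat.cast_nonneg _
  rw [h1, h2, h4, Finset.sum_congr rfl fun v _ => h3 v, Finset.sum_add_distrib]
  have h8 : ∑ v ∈ H ∩ T, ((dg G (H \ T) v : ℝ) + dg G (H ∩ T) v) = ∑ v ∈ H ∩ T, (dg G H v : ℝ) :=
    Finset.sum_congr rfl fun v _ => (h3 v).symm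
  linarith

end

end Pool.Agent.Work.FewC
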