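import Pool.Agent.Work.MP_4a0cc5_co.Transfer

set_option autoImplicit false

/-!
MP_4a0cc5_co: graphs without `C_2r` and small surplus, and nearly regular graphs of the density of
the Turan problem: the equivalence.
-/

namespace Pool.Agent.Work.FewC

open Finset SimpleGraph

/-- the dense nearly regular part -/
theorem dense_part {V : Type*} [Fintype V] [DecidableEq V] (G : SimpleGraph V) [DecidableRel G.Adj]
    (s : ℕ) (hs : 1 ≤ s) (h0 : (cyc (s + 1) G).card = 0) (t : ℝ) (ht : 0 < t)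
    (hm : (G.edgeFinset.card : ℝ) = t ^ (2 * (s + 1) + 2)) {C₁ δ θ K : ℝ} (hC₁ : 1 ≤ C₁)
    (hδ : δ = 1 / (4 * C₁ ^ 2)) (hθ : θ = δ / 128)
    (hK : K = 4 * (16 * ((s + 1 : ℕ) : ℝ) ^ 2 * (8 * ((s + 1 : ℕ) : ℝ) ^ 2) ^ (s + 1 - 2)) / θ ^ (s + 1))
    (hsur : ∑ v, Real.sqrt (G.degree v) ≤ C₁ * (G.edgeFinset.card / t)) :
    ∃ X : Finset V, (∀ v ∈ X, δ / 16 * t ^ 2 ≤ dg G X v) ∧ (∀ v ∈ X, (dg G X v : ℝ) ≤ K * t ^ 2) ∧
      (G.edgeFinset.card : ℝ) / 2 ≤ dd G X ∧
      (X.card : ℝ) * (δ * t ^ 2) ≤ 2 * G.edgeFinset.card := by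
  classical
  set m : ℝ := (G.edgeFinset.card : ℝ) with hmdef
  have hm0 : 0 < m := by
    rw [hm]
    positivity
  have hC0 : 0 < C₁ := by linarith
  have hδ0 : 0 < δ := by
    rw [hδ]
    positivity
  have hθ0 : 0 < θ := by
    rw [hθ]
    positivity
  set Mr : ℝ := 16 * ((s + 1 : ℕ) : ℝ) ^ 2 * (8 * ((s + 1 : ℕ) : ℝ) ^ 2) ^ (s + 1 - 2) with hMr
  have hMr0 : 0 < Mr := by
    rw [hMr]
    positivity
  have hK0 : 0 < K := by
    rw [hK]
    positivity
  set H : Finset V := univ.filter (fun v => δ * t ^ 2 < (G.degree v : ℝ)) with hH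
  have h1 : ∑ v ∈ Hᶜ, (G.degree v : ℝ) ≤ m / 2 := by
    have h2 : ∀ v ∈ Hᶜ, (G.degree v : ℝ) ≤ t / (2 * C₁) * Real.sqrt (G.degree v) := by
      intro v hv
      rw [Finset.mem_compl, hH, Finset.mem_filter] at hv
      simp only [Finset.mem_univ, true_and, not_lt] at hv
      have h3 : Real.sqrt (G.degree v) ≤ t / (2 * C₁) := by
        rw [Real.sqrt_le_left (by positivity)]
        refine hv.trans (le_of_eq ?_)
        rw [hδ]
        field_simp
        ring
      have h4 := Real.mul_self_sqrt (Nat.cast_nonneg (α := ℝ) (G.degree v))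
      have h5 := mul_le_mul_of_nonneg_right h3 (Real.sqrt_nonneg (G.degree v : ℝ))
      linarith
    calc ∑ v ∈ Hᶜ, (G.degree v : ℝ) ≤ ∑ v ∈ Hᶜ, t / (2 * C₁) * Real.sqrt (G.degree v) :=
          Finset.sum_le_sum h2
      _ ≤ ∑ v, t / (2 * C₁) * Real.sqrt (G.degree v) :=
          Finset.sum_le_sum_of_subset_of_nonneg (Finset.subset_univ _) fun v _ _ => by positivity
      _ = t / (2 * C₁) * ∑ v, Real.sqrt (G.degree v) := by rw [Finset.mul_sum]
      _ ≤ t / (2 * C₁) * (C₁ * (m / t)) := by gcongr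
      _ = m / 2 := by field_simp
  have h2 : m ≤ dd G H := by
    have := dd_high G H
    rw [← hmdef] at this
    linarith
  have h3 : (H.card : ℝ) * (δ * t ^ 2) ≤ 2 * m := by
    rw [hmdef, ← sum_degree_cast G]
    have h4 : (H.card : ℝ) * (δ * t ^ 2) ≤ ∑ v ∈ H, (G.degree v : ℝ) := by
      rw [← nsmul_eq_mul, ← Finset.sum_const]
      refine Finset.sum_le_sum fun v hv => ?_
      rw [hH, Finset.mem_filter] at hv
      exact hv.2.le
    exact h4.trans (Finset.sum_le_univ_sum_of_nonneg fun v => Nat.cast_nonneg _)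
  set T : Finset V := H.filter (fun v => K * t ^ 2 < (G.degree v : ℝ)) with hT
  have hTH : T ⊆ H := Finset.filter_subset _ _
  have h4 : (T.card : ℝ) * (K * t ^ 2) ≤ 2 * m := by
    rw [hmdef, ← sum_degree_cast G]
    have h4 : (T.card : ℝ) * (K * t ^ 2) ≤ ∑ v ∈ T, (G.degree v : ℝ) := by
      rw [← nsmul_eq_mul, ← Finset.sum_const]
      refine Finset.sum_le_sum fun v hv => ?_
      rw [hT, Finset.mem_filter] at hv
      exact hv.2.le
    exact h4.trans (Finset.sum_le_univ_sum_of_nonneg fun v => Nat.cast_nonneg _)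
  have h5 : ∑ v ∈ T, (dg G H v : ℝ) ≤ m / 8 := by
    rcases Finset.eq_empty_or_nonempty T with hTe | hTn
    · rw [hTe, Finset.sum_empty]
      positivity
    · have h6 := unbal G T (θ * t ^ 2) (by positivity) (fun Y hY => by
        refine few_edges G (s + 1) (by omega) h0 Y (θ * t ^ 2) (by positivity) ?_
        change Mr * (Y.card : ℝ) ≤ (θ * t ^ 2) ^ (s + 1)
        have hY' : (Y.card : ℝ) ≤ 2 * T.card := by exact_mod_cast hY
        have e1 : (T.card : ℝ) * (4 * Mr) ≤ 2 * (t ^ (2 * (s + 1)) * θ ^ (s + 1)) := by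
          have e2 : (T.card : ℝ) * (4 * Mr) * (t ^ 2 / θ ^ (s + 1)) ≤
              2 * (t ^ (2 * (s + 1)) * θ ^ (s + 1)) * (t ^ 2 / θ ^ (s + 1)) := by
            have e3 : (T.card : ℝ) * (4 * Mr) * (t ^ 2 / θ ^ (s + 1)) = T.card * (K * t ^ 2) := by
              rw [hK]
              ring
            have e4 : 2 * (t ^ (2 * (s + 1)) * θ ^ (s + 1)) * (t ^ 2 / θ ^ (s + 1)) = 2 * m := by
              rw [hm]
              field_simp
              ring
            rw [e3, e4]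
            exact h4
          exact le_of_mul_le_mul_right e2 (by positivity)
        calc Mr * (Y.card : ℝ) ≤ Mr * (2 * T.card) := by gcongr
          _ ≤ t ^ (2 * (s + 1)) * θ ^ (s + 1) := by linarith
          _ = (θ * t ^ 2) ^ (s + 1) := by rw [mul_pow, ← pow_mul, mul_comm]) hTn H.card H rfl
      have h7 : (T.card : ℝ) ≤ H.card := by exact_mod_cast Finset.card_le_card hTH
      calc ∑ v ∈ T, (dg G H v : ℝ) ≤ 4 * (θ * t ^ 2) * (H.card + T.card) := h6
        _ ≤ 4 * (θ * t ^ 2) * (H.card + H.card) := by gcongr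
        _ = 1 / 16 * (H.card * (δ * t ^ 2)) := by
            rw [hθ]
            ring
        _ ≤ 1 / 16 * (2 * m) := by gcongr
        _ = m / 8 := by ring
  have h6 := dd_sdiff G H T
  obtain ⟨X, hX1, hX2, hX3⟩ := core G (H \ T) (δ / 16 * t ^ 2)
  have hXH : X ⊆ H := hX1.trans Finset.sdiff_subset
  have h7 : ((H \ T).card : ℝ) ≤ H.card := by exact_mod_cast Finset.card_le_card Finset.sdiff_subset
  refine ⟨X, hX2, fun v hv => ?_, ?_, ?_⟩
  · have h8 := hX1 hv
    have h9 : (G.degree v : ℝ) ≤ K * t ^ 2 := by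
      by_contra hcon
      exact (Finset.mem_sdiff.1 h8).2
        (Finset.mem_filter.2 ⟨(Finset.mem_sdiff.1 h8).1, not_le.1 hcon⟩)
    refine le_trans ?_ h9
    exact_mod_cast dg_le_degree G X v
  · have h8 : 2 * (δ / 16 * t ^ 2) * ((H \ T).card : ℝ) ≤ m / 4 := by
      calc 2 * (δ / 16 * t ^ 2) * ((H \ T).card : ℝ) ≤ 2 * (δ / 16 * t ^ 2) * H.card := by gcongr
        _ = 1 / 8 * (H.card * (δ * t ^ 2)) := by ring
        _ ≤ 1 / 8 * (2 * m) := by gcongr
        _ = m / 4 := by ring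
    have h9 : 0 ≤ 2 * (δ / 16 * t ^ 2) * (X.card : ℝ) := by positivity
    linarith
  · refine le_trans ?_ h3
    have : (X.card : ℝ) ≤ H.card := by exact_mod_cast Finset.card_le_card hXH
    gcongr

/-- degrees in an induced subgraph -/
lemma induce_ncard {V : Type*} [Fintype V] [DecidableEq V] (G : SimpleGraph V)
    [DecidableRel G.Adj] (X : Finset V) (v : (X : Set V)) :
    ((G.induce (X : Set V)).neighborSet v).ncard = dg G X v := by
  classical
  unfold dg
  rw [← Set.ncard_image_of_injective _ Subtype.val_injective, ← Set.ncard_coe_finset]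
  congr 1
  ext w
  rw [Finset.mem_coe, Finset.mem_inter, SimpleGraph.mem_neighborFinset]
  constructor
  · rintro ⟨u, hu, rfl⟩
    exact ⟨hu, u.2⟩
  · rintro ⟨h1, h2⟩
    exact ⟨⟨w, h2⟩, h1, rfl⟩

lemma two_edges {V : Type*} [Fintype V] (G : SimpleGraph V) :
    ∑ v, ((G.neighborSet v).ncard : ℝ) = 2 * (G.edgeSet.ncard : ℝ) := by
  classical
  have h1 : ∀ v, (G.neighborSet v).ncard = G.degree v := by
    intro v
    rw [← SimpleGraph.card_neighborFinset_eq_degree, ← Set.ncard_coe_finset,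
      SimpleGraph.coe_neighborFinset]
  have h2 : G.edgeSet.ncard = G.edgeFinset.card := by
    rw [← SimpleGraph.coe_edgeFinset, Set.ncard_coe_finset]
  rw [h2, ← sum_degree_cast G]
  exact Finset.sum_congr rfl fun v _ => by rw [h1]

lemma induce_edges {V : Type*} [Fintype V] [DecidableEq V] (G : SimpleGraph V)
    [DecidableRel G.Adj] (X : Finset V) :
    2 * ((G.induce (X : Set V)).edgeSet.ncard : ℝ) = dd G X := by
  classical
  rw [← two_edges]
  unfold dd
  push_cast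
  rw [Finset.sum_congr rfl fun v _ => by rw [induce_ncard G X v]]
  exact Finset.sum_coe_sort X (fun v => (dg G X v : ℝ))

/-- `f(m, C_2r)`: the least maximum cut of a finite graph with `m` edges and without `C_2r` -/
noncomputable def fC (r m : ℕ) : ℕ :=
  sInf {k : ℕ | ∃ (V : Type) (_ : Fintype V) (G : SimpleGraph V), G.edgeSet.ncard = m ∧
    (cycleGraph (2 * r)).Free G ∧ maxCut G = k}

lemma fC_spec (r : ℕ) (hr : 2 ≤ r) (m : ℕ) : ∃ (V : Type) (_ : Fintype V) (G : SimpleGraph V),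
    G.edgeSet.ncard = m ∧ (cycleGraph (2 * r)).Free G ∧ maxCut G = fC r m := by
  have hne : {k : ℕ | ∃ (V : Type) (_ : Fintype V) (G : SimpleGraph V), G.edgeSet.ncard = m ∧
      (cycleGraph (2 * r)).Free G ∧ maxCut G = k}.Nonempty := by
    obtain ⟨V, iV, G, h1, _, h3, _⟩ := upper_t r hr m 2 (le_refl 2)
    exact ⟨_, V, iV, G, h1, copyCount_eq_zero.1 (h3 rfl), rfl⟩
  exact Nat.sInf_mem hne

/-- forward direction -/
theorem forward (r : ℕ) (hr : 2 ≤ r)
    (h : ∃ C : ℝ, ∀ M : ℕ, ∃ m : ℕ, M ≤ m ∧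
      (fC r m : ℝ) ≤ m / 2 + C * (m : ℝ) ^ ((2 * r + 1 : ℝ) / (2 * r + 2))) :
    ∃ c C : ℝ, 0 < c ∧ ∀ M : ℕ, ∃ (V : Type) (_ : Fintype V) (G : SimpleGraph V),
      M ≤ Fintype.card V ∧ (cycleGraph (2 * r)).Free G ∧
      (∀ v, c * (Fintype.card V : ℝ) ^ (1 / r : ℝ) ≤ (G.neighborSet v).ncard ∧
        ((G.neighborSet v).ncard : ℝ) ≤ C * (Fintype.card V : ℝ) ^ (1 / r : ℝ)) ∧
      (maxCut G : ℝ) ≤ G.edgeSet.ncard / 2 + C * (Fintype.card V : ℝ) ^ (1 + 1 / (2 * r) : ℝ) := by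
  classical
  obtain ⟨C, hC⟩ := h
  obtain ⟨s, rfl⟩ : ∃ s, r = s + 1 := ⟨r - 1, by omega⟩
  have hs : 1 ≤ s := by omega
  have hs1 : (1:ℝ) ≤ s := by exact_mod_cast hs
  set r : ℝ := ((s + 1 : ℕ) : ℝ) with hrdef
  have hr1 : r = s + 1 := by
    rw [hrdef]
    push_cast
    ring
  have hr2 : 2 ≤ r := by
    rw [hr1]
    linarith
  set C₁ : ℝ := max 1 (512 * s * C) with hC₁
  have hC₁1 : 1 ≤ C₁ := le_max_left _ _
  have hC₁0 : 0 < C₁ := by linarith
  set δ : ℝ := 1 / (4 * C₁ ^ 2) with hδ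
  set θ : ℝ := δ / 128 with hθ
  set K : ℝ := 4 * (16 * ((s + 1 : ℕ) : ℝ) ^ 2 * (8 * ((s + 1 : ℕ) : ℝ) ^ 2) ^ (s + 1 - 2)) /
    θ ^ (s + 1) with hK
  have hδ0 : 0 < δ := by positivity
  have hθ0 : 0 < θ := by positivity
  have hK0 : 0 < K := by positivity
  refine ⟨δ / 16 * (2 / δ) ^ (-(1 / r)), max (K * (2 * K) ^ (1 / r))
    (|C| * (2 * K) ^ (1 + 1 / (2 * r))), by positivity, fun M => ?_⟩
  obtain ⟨m, hm, hfm⟩ := hC (max 1 (⌈(2 * K * M) ^ 2⌉₊))
  have hm1 : 1 ≤ m := (le_max_left _ _).trans hm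
  have hmM : (2 * K * M) ^ 2 ≤ m := by
    have h1 : ⌈(2 * K * M) ^ 2⌉₊ ≤ m := (le_max_right _ _).trans hm
    exact (Nat.le_ceil _).trans (by exact_mod_cast h1)
  have hm1' : (1:ℝ) ≤ m := by exact_mod_cast hm1
  have hm0 : (0:ℝ) < m := by linarith
  obtain ⟨V, iV, G, hG1, hG2, hG3⟩ := fC_spec (s + 1) hr m
  have hE : G.edgeFinset.card = m := by
    rw [← hG1, ← SimpleGraph.coe_edgeFinset, Set.ncard_coe_finset]
  set t : ℝ := (m : ℝ) ^ (1 / (2 * r + 2)) with ht
  have ht0 : 0 < t := by positivity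
  have ht1 : 1 ≤ t := Real.one_le_rpow hm1' (by positivity)
  have htm : (m : ℝ) = t ^ (2 * (s + 1) + 2) := by
    rw [ht, ← Real.rpow_natCast, ← Real.rpow_mul hm0.le]
    have h1 : 1 / (2 * r + 2) * ((2 * (s + 1) + 2 : ℕ) : ℝ) = 1 := by
      push_cast
      rw [hr1]
      field_simp
    rw [h1, Real.rpow_one]
  have htm' : (m : ℝ) ^ ((2 * r + 1) / (2 * r + 2)) = m / t := by
    rw [ht, eq_div_iff (by positivity), ← Real.rpow_add hm0]
    have h1 : (2 * r + 1) / (2 * r + 2) + 1 / (2 * r + 2) = 1 := by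
      field_simp
      ring
    rw [h1, Real.rpow_one]
  have hmt : (m : ℝ) / t = t ^ (2 * (s + 1) + 1) := by
    rw [htm]
    rw [pow_succ t (2 * (s + 1) + 1)]
    field_simp
  have h0 := cyc_empty G (s + 1) (by omega) hG2
  have hcut : (maxCut G : ℝ) ≤ m / 2 + C * (m / t) := by
    have h1 : (maxCut G : ℝ) = fC (s + 1) m := by exact_mod_cast hG3
    rw [h1, ← htm']
    exact hfm
  have hsur : ∑ v, Real.sqrt (G.degree v) ≤ C₁ * (G.edgeFinset.card / t) := by
    have h1 := surplus_sqrt G s hs h0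
    rw [hE] at h1 ⊢
    have h2 : (1 / (512 * (s:ℝ))) * ∑ v, Real.sqrt (G.degree v) ≤ C * (m / t) := by linarith
    have h3 : ∑ v, Real.sqrt (G.degree v) ≤ 512 * s * C * (m / t) := by
      have h4 : ∑ v, Real.sqrt (G.degree v) =
          512 * s * ((1 / (512 * (s:ℝ))) * ∑ v, Real.sqrt (G.degree v)) := by
        field_simp
      rw [h4]
      calc 512 * s * ((1 / (512 * (s:ℝ))) * ∑ v, Real.sqrt (G.degree v)) ≤
            512 * s * (C * (m / t)) := by gcongr
        _ = _ := by ring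
    refine h3.trans ?_
    have h5 : 0 ≤ (m:ℝ) / t := by positivity
    exact mul_le_mul_of_nonneg_right (le_max_right _ _) h5
  obtain ⟨X, hX1, hX2, hX3, hX4⟩ := dense_part G s hs h0 t ht0 (by rw [hE]; exact htm)
    hC₁1 hδ hθ hK hsur
  rw [hE] at hX3 hX4
  -- the number of vertices
  set n : ℝ := (X.card : ℝ) with hn
  have hn1 : n ≤ 2 / δ * t ^ (2 * (s + 1)) := by
    have h1 : n * (δ * t ^ 2) ≤ (2 / δ * t ^ (2 * (s + 1))) * (δ * t ^ 2) := by
      refine hX4.trans (le_of_eq ?_)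
      rw [htm]
      field_simp
      ring
    exact le_of_mul_le_mul_right h1 (by positivity)
  have hn2 : t ^ (2 * (s + 1)) / (2 * K) ≤ n := by
    have h1 : (dd G X : ℝ) ≤ n * (K * t ^ 2) := by
      unfold dd
      push_cast
      calc ∑ v ∈ X, (dg G X v : ℝ) ≤ ∑ v ∈ X, K * t ^ 2 := Finset.sum_le_sum hX2
        _ = n * (K * t ^ 2) := by rw [Finset.sum_const, nsmul_eq_mul]
    have h2 : (t ^ (2 * (s + 1)) / (2 * K)) * (K * t ^ 2) ≤ n * (K * t ^ 2) := by
      refine le_trans (le_of_eq ?_) (hX3.trans h1)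
      rw [htm]
      field_simp
      ring
    exact le_of_mul_le_mul_right h2 (by positivity)
  have hn0 : 0 < n := lt_of_lt_of_le (by positivity) hn2
  have hcard : (Fintype.card (X : Set V) : ℝ) = n := by
    rw [hn]
    simp
  refine ⟨(X : Set V), inferInstance, G.induce (X : Set V), ?_, ?_, ?_, ?_⟩
  · have h1 : (M : ℝ) ≤ n := by
      refine le_trans ?_ hn2
      rw [le_div_iff₀ (by positivity)]
      have h2 : (m : ℝ) ≤ (t ^ (2 * (s + 1))) ^ 2 := by
        rw [htm, ← pow_mul]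
        exact pow_le_pow_right₀ ht1 (by omega)
      have h3 : (M * (2 * K)) ^ 2 ≤ (t ^ (2 * (s + 1))) ^ 2 := by
        refine le_trans (le_of_eq ?_) (hmM.trans h2)
        ring
      exact le_of_sq_le_sq h3 (by positivity)
    rw [← hcard] at h1
    exact_mod_cast h1
  · intro hcon
    exact hG2 (hcon.trans ⟨SimpleGraph.Copy.induce G (X : Set V)⟩)
  · intro v
    rw [induce_ncard, hcard]
    have e1 : (t ^ (2 * (s + 1))) ^ (1 / r) = t ^ 2 := by
      rw [← Real.rpow_natCast, ← Real.rpow_mul ht0.le, ← Real.rpow_natCast]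
      congr 1
      push_cast
      rw [hr1]
      field_simp
    constructor
    · refine le_trans ?_ (hX1 v v.2)
      have h1 : n ^ (1 / r) ≤ (2 / δ) ^ (1 / r) * t ^ 2 := by
        calc n ^ (1 / r) ≤ (2 / δ * t ^ (2 * (s + 1))) ^ (1 / r) :=
              Real.rpow_le_rpow hn0.le hn1 (by positivity)
          _ = _ := by rw [Real.mul_rpow (by positivity) (by positivity), e1]
      calc δ / 16 * (2 / δ) ^ (-(1 / r)) * n ^ (1 / r) ≤
            δ / 16 * (2 / δ) ^ (-(1 / r)) * ((2 / δ) ^ (1 / r) * t ^ 2) := by gcongr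
        _ = δ / 16 * t ^ 2 * ((2 / δ) ^ (-(1 / r)) * (2 / δ) ^ (1 / r)) := by ring
        _ = δ / 16 * t ^ 2 := by
            rw [← Real.rpow_add (by positivity), neg_add_cancel, Real.rpow_zero, mul_one]
    · refine (hX2 v v.2).trans ?_
      have h1 : t ^ 2 ≤ (2 * K) ^ (1 / r) * n ^ (1 / r) := by
        rw [← e1, ← Real.mul_rpow (by positivity) hn0.le]
        refine Real.rpow_le_rpow (by positivity) ?_ (by positivity)
        rw [div_le_iff₀ (by positivity)] at hn2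
        linarith
      calc K * t ^ 2 ≤ K * ((2 * K) ^ (1 / r) * n ^ (1 / r)) := by gcongr
        _ = K * (2 * K) ^ (1 / r) * n ^ (1 / r) := by ring
        _ ≤ _ := mul_le_mul_of_nonneg_right (le_max_left _ _) (Real.rpow_nonneg hn0.le _)
  · have h1 := maxCut_induce G X
    have h2 := induce_edges G X
    rw [hE] at h1
    rw [hcard]
    have h3 : (maxCut (G.induce (X : Set V)) : ℝ) ≤
        (G.induce (X : Set V)).edgeSet.ncard / 2 + C * (m / t) := by
      linarith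
    have h4 : (m : ℝ) / t ≤ (2 * K) ^ (1 + 1 / (2 * r)) * n ^ (1 + 1 / (2 * r)) := by
      have e2 : (t ^ (2 * (s + 1))) ^ (1 + 1 / (2 * r)) = t ^ (2 * (s + 1) + 1) := by
        rw [← Real.rpow_natCast, ← Real.rpow_mul ht0.le, ← Real.rpow_natCast]
        congr 1
        push_cast
        rw [hr1]
        field_simp
      rw [hmt, ← e2, ← Real.mul_rpow (by positivity) hn0.le]
      refine Real.rpow_le_rpow (by positivity) ?_ (by positivity)
      rw [div_le_iff₀ (by positivity)] at hn2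
      linarith
    have h5 : C * (m / t) ≤ max (K * (2 * K) ^ (1 / r)) (|C| * (2 * K) ^ (1 + 1 / (2 * r))) *
        n ^ (1 + 1 / (2 * r)) := by
      calc C * (m / t) ≤ |C| * (m / t) := by
            gcongr
            exact le_abs_self C
        _ ≤ |C| * ((2 * K) ^ (1 + 1 / (2 * r)) * n ^ (1 + 1 / (2 * r))) := by gcongr
        _ = (|C| * (2 * K) ^ (1 + 1 / (2 * r))) * n ^ (1 + 1 / (2 * r)) := by ring
        _ ≤ _ := mul_le_mul_of_nonneg_right (le_max_right _ _) (Real.rpow_nonneg hn0.le _)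
    linarith

/-- backward direction -/
theorem backward (r : ℕ) (hr : 2 ≤ r)
    (h : ∃ c C : ℝ, 0 < c ∧ ∀ M : ℕ, ∃ (V : Type) (_ : Fintype V) (G : SimpleGraph V),
      M ≤ Fintype.card V ∧ (cycleGraph (2 * r)).Free G ∧
      (∀ v, c * (Fintype.card V : ℝ) ^ (1 / r : ℝ) ≤ (G.neighborSet v).ncard ∧
        ((G.neighborSet v).ncard : ℝ) ≤ C * (Fintype.card V : ℝ) ^ (1 / r : ℝ)) ∧
      (maxCut G : ℝ) ≤ G.edgeSet.ncard / 2 + C * (Fintype.card V : ℝ) ^ (1 + 1 / (2 * r) : ℝ)) :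
    ∃ C : ℝ, ∀ M : ℕ, ∃ m : ℕ, M ≤ m ∧
      (fC r m : ℝ) ≤ m / 2 + C * (m : ℝ) ^ ((2 * r + 1 : ℝ) / (2 * r + 2)) := by
  obtain ⟨c, C, hc, h⟩ := h
  have hr2 : (2:ℝ) ≤ r := by exact_mod_cast hr
  refine ⟨|C| * (2 / c) ^ ((2 * r + 1 : ℝ) / (2 * r + 2)), fun M => ?_⟩
  obtain ⟨V, iV, G, hV, hfree, hdeg, hcut⟩ := h (max 1 ⌈2 * M / c⌉₊)
  set n : ℝ := (Fintype.card V : ℝ) with hn
  have hn1 : 1 ≤ n := by
    rw [hn]
    exact_mod_cast (le_max_left _ _).trans hV
  have hnM : 2 * M / c ≤ n := by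
    rw [hn]
    exact (Nat.le_ceil _).trans (by exact_mod_cast (le_max_right _ _).trans hV)
  have hn0 : 0 < n := by linarith
  set m : ℕ := G.edgeSet.ncard with hmdef
  have h1 : c * n ^ (1 + 1 / r : ℝ) ≤ 2 * (m : ℝ) := by
    rw [hmdef, ← two_edges G]
    have h2 : ∑ v : V, c * n ^ (1 / r : ℝ) ≤ ∑ v, ((G.neighborSet v).ncard : ℝ) :=
      Finset.sum_le_sum fun v _ => (hdeg v).1
    rw [Finset.sum_const, Finset.card_univ, nsmul_eq_mul] at h2
    refine le_trans (le_of_eq ?_) h2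
    rw [Real.rpow_add hn0, Real.rpow_one]
    ring
  have hpos : 0 < n ^ (1 + 1 / r : ℝ) := by positivity
  have hm0 : (0:ℝ) < m := by nlinarith
  refine ⟨m, ?_, ?_⟩
  · have h2 : n ≤ n ^ (1 + 1 / r : ℝ) := by
      have := Real.rpow_le_rpow_of_exponent_le hn1 (show (1:ℝ) ≤ 1 + 1 / r by
        have : 0 ≤ 1 / (r:ℝ) := by positivity
        linarith)
      rwa [Real.rpow_one] at this
    have h3 : (M : ℝ) ≤ m := by
      rw [div_le_iff₀ hc] at hnM
      nlinarith
    exact_mod_cast h3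
  · have h2 : fC r m ≤ maxCut G := Nat.sInf_le ⟨V, iV, G, rfl, hfree, rfl⟩
    have h3 : n ^ (1 + 1 / (2 * r) : ℝ) ≤
        (2 / c) ^ ((2 * r + 1 : ℝ) / (2 * r + 2)) * (m : ℝ) ^ ((2 * r + 1 : ℝ) / (2 * r + 2)) := by
      have e1 : n ^ (1 + 1 / (2 * r) : ℝ) = (n ^ (1 + 1 / r : ℝ)) ^ ((2 * r + 1 : ℝ) / (2 * r + 2)) := by
        rw [← Real.rpow_mul hn0.le]
        congr 1
        field_simp
      rw [e1, ← Real.mul_rpow (by positivity) hm0.le]
      refine Real.rpow_le_rpow hpos.le ?_ (by positivity)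
      rw [div_mul_eq_mul_div, le_div_iff₀ hc]
      linarith
    have h4 : C * n ^ (1 + 1 / (2 * r) : ℝ) ≤ |C| * n ^ (1 + 1 / (2 * r) : ℝ) := by
      gcongr
      exact le_abs_self C
    have h5 : |C| * n ^ (1 + 1 / (2 * r) : ℝ) ≤ |C| * ((2 / c) ^ ((2 * r + 1 : ℝ) / (2 * r + 2)) *
        (m : ℝ) ^ ((2 * r + 1 : ℝ) / (2 * r + 2))) := by gcongr
    have h6 : (fC r m : ℝ) ≤ maxCut G := by exact_mod_cast h2
    linarith

end Pool.Agent.Work.FewC
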